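import Pool.Agent.W769.Ent.Core
import Pool.Agent.W769.Iso.DensVol

set_option autoImplicit false
set_option maxHeartbeats 1000000

open MeasureTheory Set Finset Topology Filter
open scoped ENNReal

namespace Pool.Agent.W769.Ent

open Pool.Agent.W769.Iso Pool.Agent.W769.Kak

variable {d : ℕ}

theorem lintegral_slices {G : (Fin (d + 1) → ℝ) → ℝ≥0∞} (hG : Measurable G) :
    ∫⁻ z, G z = ∫⁻ t : ℝ, ∫⁻ y : Fin d → ℝ, G (Fin.cons t y) := by
  have hmp := volume_preserving_piFinSuccAbove (fun _ : Fin (d + 1) => ℝ) 0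
  set e := MeasurableEquiv.piFinSuccAbove (fun _ : Fin (d + 1) => ℝ) 0 with he
  have h1 : ∫⁻ z, G z = ∫⁻ p : ℝ × (Fin d → ℝ), G (e.symm p) := by
    rw [← hmp.lintegral_comp_emb e.measurableEmbedding (fun p => G (e.symm p))]
    simp
  have h2 : Measurable (fun p : ℝ × (Fin d → ℝ) => G (e.symm p)) := hG.comp e.symm.measurable
  rw [h1, Measure.volume_eq_prod, lintegral_prod _ h2.aemeasurable]
  refine lintegral_congr fun t => lintegral_congr fun y => ?_
  congr 1
  rw [he]
  exact Fin.insertNth_zero' t y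

theorem cons_cont : Continuous (fun p : ℝ × (Fin d → ℝ) => (Fin.cons p.1 p.2 : Fin (d + 1) → ℝ)) := by
  rw [continuous_pi_iff]
  intro i
  refine Fin.cases ?_ (fun j => ?_) i
  · simp only [Fin.cons_zero]
    exact continuous_fst
  · simp only [Fin.cons_succ]
    fun_prop

/-- exchange of the order of integration -/
theorem lin_swap {a : (Fin d → ℝ) → Fin d → ℝ} (ha : Continuous a) (δ : ℝ)
    {E : Set (Fin (d + 1) → ℝ)} (hE : MeasurableSet E) :
    ∫⁻ v in Metric.closedBall (0 : Fin d → ℝ) 1, volume (Tb δ a v ∩ E) =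
      ∫⁻ t in Icc (0 : ℝ) 1, ∫⁻ y in {y : Fin d → ℝ | (Fin.cons t y : Fin (d + 1) → ℝ) ∈ E},
        volume (St a δ t y) := by
  set M : Set ((Fin d → ℝ) × (Fin (d + 1) → ℝ)) :=
    {p | p.1 ∈ Metric.closedBall (0 : Fin d → ℝ) 1 ∧ p.2 ∈ Tb δ a p.1 ∩ E} with hM
  have hcn : Continuous (fun p : (Fin d → ℝ) × (Fin (d + 1) → ℝ) =>
      ‖Fin.tail p.2 - (a p.1 + p.2 0 • p.1)‖) := by
    unfold Fin.tail
    fun_prop
  have hMm : MeasurableSet M := by
    apply MeasurableSet.inter
    · exact measurable_fst Metric.isClosed_closedBall.measurableSet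
    · apply MeasurableSet.inter
      · apply MeasurableSet.inter
        · exact ((measurable_pi_apply 0).comp measurable_snd) measurableSet_Icc
        · exact (isClosed_le hcn continuous_const).measurableSet
      · exact measurable_snd hE
  have h1 : ∫⁻ v in Metric.closedBall (0 : Fin d → ℝ) 1, volume (Tb δ a v ∩ E) =
      ((volume : Measure (Fin d → ℝ)).prod (volume : Measure (Fin (d + 1) → ℝ))) M := by
    rw [Measure.prod_apply hMm, ← lintegral_indicator Metric.isClosed_closedBall.measurableSet]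
    refine lintegral_congr fun v => ?_
    by_cases hv : v ∈ Metric.closedBall (0 : Fin d → ℝ) 1
    · rw [Set.indicator_of_mem hv]
      congr 1
      ext z
      simp only [hM, Set.mem_preimage, Set.mem_ofPred_eq]
      exact ⟨fun h => ⟨hv, h⟩, fun h => h.2⟩
    · rw [Set.indicator_of_notMem hv]
      have : Prod.mk v ⁻¹' M = ∅ := by
        ext z
        simp only [hM, Set.mem_preimage, Set.mem_ofPred_eq, Set.mem_empty_iff_false, iff_false]
        exact fun h => hv h.1
      rw [this, measure_empty]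
  rw [h1, Measure.prod_apply_symm hMm, lintegral_slices (measurable_measure_prodMk_right hMm),
    ← lintegral_indicator measurableSet_Icc]
  refine lintegral_congr fun t => ?_
  have hEt : MeasurableSet {y : Fin d → ℝ | (Fin.cons t y : Fin (d + 1) → ℝ) ∈ E} :=
    (cons_cont.comp (continuous_const.prodMk continuous_id : Continuous fun y : Fin d → ℝ =>
      (t, y))).measurable hE
  by_cases ht : t ∈ Icc (0 : ℝ) 1
  · rw [Set.indicator_of_mem ht, ← lintegral_indicator hEt]
    refine lintegral_congr fun y => ?_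
    by_cases hy : y ∈ {y : Fin d → ℝ | (Fin.cons t y : Fin (d + 1) → ℝ) ∈ E}
    · rw [Set.indicator_of_mem hy]
      congr 1
      ext v
      simp only [hM, St, Tb, Set.mem_preimage, Set.mem_ofPred_eq, Set.mem_inter_iff,
        Fin.cons_zero, Fin.tail_cons]
      have e1 : ‖y - (a v + t • v)‖ = ‖a v + t • v - y‖ := norm_sub_rev _ _
      rw [e1]
      exact ⟨fun h => ⟨h.1, h.2.1.2⟩, fun h => ⟨h.1, ⟨ht, h.2⟩, hy⟩⟩
    · rw [Set.indicator_of_notMem hy]
      have : (fun v => (v, (Fin.cons t y : Fin (d + 1) → ℝ))) ⁻¹' M = ∅ := by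
        ext z
        simp only [hM, Set.mem_preimage, Set.mem_ofPred_eq, Set.mem_inter_iff,
          Set.mem_empty_iff_false, iff_false]
        exact fun h => hy h.2.2
      rw [this, measure_empty]
  · rw [Set.indicator_of_notMem ht]
    rw [lintegral_eq_zero_iff' ?_]
    · apply Filter.Eventually.of_forall
      intro y
      have : (fun v => (v, (Fin.cons t y : Fin (d + 1) → ℝ))) ⁻¹' M = ∅ := by
        ext z
        simp only [hM, Tb, Set.mem_preimage, Set.mem_ofPred_eq, Set.mem_inter_iff,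
          Set.mem_empty_iff_false, iff_false, Fin.cons_zero]
        exact fun h => ht h.2.1.1
      simp only [this, measure_empty, Pi.zero_apply]
    · exact ((measurable_measure_prodMk_right hMm).comp (cons_cont.comp
        (continuous_const.prodMk continuous_id : Continuous fun y : Fin d → ℝ =>
          (t, y))).measurable).aemeasurable

theorem St_eq {a : (Fin d → ℝ) → Fin d → ℝ} {δ : ℝ} (hδ : 0 < δ) (t : ℝ) (y : Fin d → ℝ) :
    volume (St a δ t y) = ENNReal.ofReal (δ ^ d) * ENNReal.ofReal (Nm a δ t y) := by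
  have hf : volume (St a δ t y) ≠ ⊤ :=
    ne_top_of_le_ne_top (isCompact_closedBall (0 : Fin d → ℝ) 1).measure_lt_top.ne
      (measure_mono fun w hw => hw.1)
  rw [← ENNReal.ofReal_mul (by positivity)]
  unfold Nm
  rw [mul_div_cancel₀ _ (by positivity)]
  exact (ENNReal.ofReal_toReal hf).symm

/-- from the entropy to sets -/
theorem level (a : (Fin d → ℝ) → Fin d → ℝ) (δ : ℝ) {E : Set (Fin (d + 1) → ℝ)}
    (hE : MeasurableSet E) {lam : ℝ} (hl : 1 < lam) :
    ∫⁻ t in Icc (0 : ℝ) 1, ∫⁻ y in {y : Fin d → ℝ | (Fin.cons t y : Fin (d + 1) → ℝ) ∈ E},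
        ENNReal.ofReal (Nm a δ t y) ≤
      ENNReal.ofReal lam * volume E + ENNReal.ofReal (1 / Real.log lam) *
        ∫⁻ t in Icc (0 : ℝ) 1, ∫⁻ y, ENNReal.ofReal (Nm a δ t y * Real.posLog (Nm a δ t y)) := by
  have hlog : 0 < Real.log lam := Real.log_pos hl
  have hpt : ∀ t y, ENNReal.ofReal (Nm a δ t y) ≤ ENNReal.ofReal lam +
      ENNReal.ofReal (1 / Real.log lam) *
        ENNReal.ofReal (Nm a δ t y * Real.posLog (Nm a δ t y)) := by
    intro t y
    rw [← ENNReal.ofReal_mul (by positivity)]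
    rcases le_or_gt (Nm a δ t y) lam with h | h
    · exact (ENNReal.ofReal_le_ofReal h).trans le_self_add
    · refine le_trans (ENNReal.ofReal_le_ofReal ?_) le_add_self
      have h1 : Real.log lam ≤ Real.posLog (Nm a δ t y) := by
        rw [Real.posLog_eq_log]
        · exact Real.log_le_log (by linarith) h.le
        · rw [abs_of_pos (by linarith)]; linarith
      have h2 : 0 < Nm a δ t y := by linarith
      calc Nm a δ t y = 1 / Real.log lam * (Nm a δ t y * Real.log lam) := by field_simp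
        _ ≤ 1 / Real.log lam * (Nm a δ t y * Real.posLog (Nm a δ t y)) := by gcongr
  have hinner : ∀ t, ∫⁻ y in {y : Fin d → ℝ | (Fin.cons t y : Fin (d + 1) → ℝ) ∈ E},
        ENNReal.ofReal (Nm a δ t y) ≤
      ENNReal.ofReal lam * volume {y : Fin d → ℝ | (Fin.cons t y : Fin (d + 1) → ℝ) ∈ E} +
        ENNReal.ofReal (1 / Real.log lam) *
          ∫⁻ y, ENNReal.ofReal (Nm a δ t y * Real.posLog (Nm a δ t y)) := by
    intro t
    calc ∫⁻ y in {y : Fin d → ℝ | (Fin.cons t y : Fin (d + 1) → ℝ) ∈ E},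
          ENNReal.ofReal (Nm a δ t y)
        ≤ ∫⁻ y in {y : Fin d → ℝ | (Fin.cons t y : Fin (d + 1) → ℝ) ∈ E},
          (ENNReal.ofReal lam + ENNReal.ofReal (1 / Real.log lam) *
            ENNReal.ofReal (Nm a δ t y * Real.posLog (Nm a δ t y))) :=
          lintegral_mono fun y => hpt t y
      _ = ENNReal.ofReal lam * volume {y : Fin d → ℝ | (Fin.cons t y : Fin (d + 1) → ℝ) ∈ E} +
          ∫⁻ y in {y : Fin d → ℝ | (Fin.cons t y : Fin (d + 1) → ℝ) ∈ E},
            ENNReal.ofReal (1 / Real.log lam) *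
              ENNReal.ofReal (Nm a δ t y * Real.posLog (Nm a δ t y)) := by
          rw [lintegral_add_left measurable_const, setLIntegral_const]
      _ ≤ _ := by
          gcongr
          refine (setLIntegral_le_lintegral _ _).trans ?_
          rw [lintegral_const_mul' _ _ ENNReal.ofReal_ne_top]
  obtain ⟨hsm, hsv⟩ := volume_eq_slices hE
  calc ∫⁻ t in Icc (0 : ℝ) 1, ∫⁻ y in {y : Fin d → ℝ | (Fin.cons t y : Fin (d + 1) → ℝ) ∈ E},
        ENNReal.ofReal (Nm a δ t y)
      ≤ ∫⁻ t in Icc (0 : ℝ) 1, (ENNReal.ofReal lam *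
          volume {y : Fin d → ℝ | (Fin.cons t y : Fin (d + 1) → ℝ) ∈ E} +
        ENNReal.ofReal (1 / Real.log lam) *
          ∫⁻ y, ENNReal.ofReal (Nm a δ t y * Real.posLog (Nm a δ t y))) :=
        lintegral_mono fun t => hinner t
    _ = (∫⁻ t in Icc (0 : ℝ) 1, ENNReal.ofReal lam *
          volume {y : Fin d → ℝ | (Fin.cons t y : Fin (d + 1) → ℝ) ∈ E}) +
        ENNReal.ofReal (1 / Real.log lam) *
          ∫⁻ t in Icc (0 : ℝ) 1, ∫⁻ y, ENNReal.ofReal (Nm a δ t y * Real.posLog (Nm a δ t y)) := by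
        rw [lintegral_add_left (hsm.const_mul _)]
        congr 1
        exact lintegral_const_mul' _ _ ENNReal.ofReal_ne_top
    _ ≤ _ := by
        gcongr
        rw [lintegral_const_mul _ hsm, hsv]
        gcongr
        exact Measure.restrict_le_self

/-- **Lower bound for the measure of sets meeting a positive proportion of a Lipschitz family.** -/
theorem level_set (hd : 1 ≤ d) : ∃ C : ℝ, 0 < C ∧ ∀ (L δ γ : ℝ)
    (a : (Fin d → ℝ) → Fin d → ℝ) (E : Set (Fin (d + 1) → ℝ)), 0 ≤ L → 0 < δ → δ ≤ 1 → 0 < γ →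
    (∀ v ∈ Metric.closedBall (0 : Fin d → ℝ) 1, ∀ w ∈ Metric.closedBall (0 : Fin d → ℝ) 1,
        ‖a v - a w‖ ≤ L * ‖v - w‖) → MeasurableSet E →
    ENNReal.ofReal (γ * (2 * δ) ^ d) ≤
      ∫⁻ v in Metric.closedBall (0 : Fin d → ℝ) 1, volume (Tb δ a v ∩ E) →
    ENNReal.ofReal (Real.exp (-(C / γ * (1 + L) ^ (2 * d * (d + 1)) *
        (1 + Real.log (1 / δ)) ^ (1 - 1 / (2 * (d : ℝ) ^ 2 + 2 * d + 1))))) ≤ volume E := by
  obtain ⟨C1, hC1, hcore⟩ := entropy_core hd
  refine ⟨2 * C1 + 4, by positivity, ?_⟩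
  intro L δ γ a E hL hδ hδ1 hγ hLip hE hint
  have hlogδ : 0 ≤ Real.log (1 / δ) := Real.log_nonneg (by rw [le_div_iff₀ hδ]; linarith)
  set Λ : ℝ := 1 + Real.log (1 / δ) with hΛ
  have hΛ1 : 1 ≤ Λ := by linarith
  set e : ℝ := 1 / (2 * (d : ℝ) ^ 2 + 2 * d + 1) with he
  have he1 : e ≤ 1 := by
    rw [he, div_le_one (by positivity)]
    nlinarith [show (0 : ℝ) ≤ d by positivity]
  set Y : ℝ := (1 + L) ^ (2 * d * (d + 1)) * Λ ^ (1 - e) with hY
  have hY1 : 1 ≤ Y := by
    have h1 : (1 : ℝ) ≤ (1 + L) ^ (2 * d * (d + 1)) := one_le_pow₀ (by linarith)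
    have h2 : 1 ≤ Λ ^ (1 - e) := Real.one_le_rpow hΛ1 (by linarith)
    nlinarith
  -- extension
  set b : (Fin d → ℝ) → Fin d → ℝ := fun v => a (clamp 0 1 v) with hb
  have hbL : ∀ v w, ‖b v - b w‖ ≤ (1 + L) * ‖v - w‖ := by
    intro v w
    have h1 := hLip _ (clamp_mem 0 zero_le_one v) _ (clamp_mem 0 zero_le_one w)
    have h2 := clamp_lip (0 : Fin d → ℝ) 1 v w
    calc ‖b v - b w‖ ≤ L * ‖clamp 0 1 v - clamp 0 1 w‖ := h1
      _ ≤ (1 + L) * ‖v - w‖ := by
          gcongr
          linarith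
  have hbc : Continuous b := Lip_cont (by linarith) hbL
  have hba : ∀ v ∈ Metric.closedBall (0 : Fin d → ℝ) 1, Tb δ a v = Tb δ b v := by
    intro v hv
    unfold Tb
    rw [hb]
    simp only
    rw [clamp_eq 0 zero_le_one hv]
  have h1 := hcore (1 + L) δ b (by linarith) hδ hδ1 hbL
  set X : ℝ := C1 * (1 + L) ^ (2 * d * (d + 1)) * Λ ^ (1 - e) with hX
  have hXY : X = C1 * Y := by rw [hX, hY]; ring
  have hX0 : 0 < X := by rw [hXY]; positivity
  -- the integral
  have h2 : ENNReal.ofReal (γ * 2 ^ d) ≤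
      ∫⁻ t in Icc (0 : ℝ) 1, ∫⁻ y in {y : Fin d → ℝ | (Fin.cons t y : Fin (d + 1) → ℝ) ∈ E},
        ENNReal.ofReal (Nm b δ t y) := by
    have h3 : ∫⁻ v in Metric.closedBall (0 : Fin d → ℝ) 1, volume (Tb δ a v ∩ E) =
        ENNReal.ofReal (δ ^ d) * ∫⁻ t in Icc (0 : ℝ) 1,
          ∫⁻ y in {y : Fin d → ℝ | (Fin.cons t y : Fin (d + 1) → ℝ) ∈ E},
            ENNReal.ofReal (Nm b δ t y) := by
      rw [setLIntegral_congr_fun (g := fun v => volume (Tb δ b v ∩ E))
        Metric.isClosed_closedBall.measurableSet (fun v hv => by simp only [hba v hv]),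
        lin_swap hbc δ hE, ← lintegral_const_mul' _ _ ENNReal.ofReal_ne_top]
      refine lintegral_congr fun t => ?_
      rw [← lintegral_const_mul' _ _ ENNReal.ofReal_ne_top]
      exact lintegral_congr fun y => St_eq hδ t y
    rw [h3] at hint
    have h4 : ENNReal.ofReal (γ * (2 * δ) ^ d) =
        ENNReal.ofReal (δ ^ d) * ENNReal.ofReal (γ * 2 ^ d) := by
      rw [← ENNReal.ofReal_mul (by positivity)]
      congr 1
      rw [mul_pow]; ring
    rw [h4] at hint
    have h5 : ENNReal.ofReal (δ ^ d) ≠ 0 := by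
      rw [Ne, ENNReal.ofReal_eq_zero, not_le]; positivity
    exact (ENNReal.mul_le_mul_iff_right h5 ENNReal.ofReal_ne_top).1 hint
  set g' : ℝ := γ * 2 ^ d with hg'
  have hg'0 : 0 < g' := by positivity
  set lam : ℝ := Real.exp (2 * X / g') with hlam
  have hlam1 : 1 < lam := Real.one_lt_exp_iff.2 (by positivity)
  have hloglam : Real.log lam = 2 * X / g' := Real.log_exp _
  have h6 := h2.trans (level b δ hE hlam1)
  have h7 : ENNReal.ofReal g' ≤ ENNReal.ofReal lam * volume E + ENNReal.ofReal (g' / 2) := by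
    refine h6.trans ?_
    gcongr
    calc ENNReal.ofReal (1 / Real.log lam) *
          ∫⁻ t in Icc (0 : ℝ) 1, ∫⁻ y, ENNReal.ofReal (Nm b δ t y * Real.posLog (Nm b δ t y))
        ≤ ENNReal.ofReal (1 / Real.log lam) * ENNReal.ofReal X := by gcongr
      _ = ENNReal.ofReal (g' / 2) := by
          rw [← ENNReal.ofReal_mul (by rw [hloglam]; positivity), hloglam]
          congr 1
          field_simp
  rcases eq_or_ne (volume E) ⊤ with htop | htop
  · rw [htop]; exact le_top
  set p : ℝ := (volume E).toReal with hp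
  have hpE : volume E = ENNReal.ofReal p := (ENNReal.ofReal_toReal htop).symm
  have hp0 : 0 ≤ p := ENNReal.toReal_nonneg
  rw [hpE] at h7 ⊢
  rw [← ENNReal.ofReal_mul (by positivity), ← ENNReal.ofReal_add (by positivity) (by positivity),
    ENNReal.ofReal_le_ofReal_iff (by positivity)] at h7
  apply ENNReal.ofReal_le_ofReal
  have h8 : g' / 2 ≤ lam * p := by linarith
  have h9 : Real.exp (-(2 / g')) ≤ g' / 2 := by
    have h10 := Real.one_sub_inv_le_log_of_pos (show 0 < g' / 2 by positivity)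
    have h11 : (g' / 2)⁻¹ = 2 / g' := by rw [inv_div]
    rw [h11] at h10
    calc Real.exp (-(2 / g')) ≤ Real.exp (Real.log (g' / 2)) := by
          apply Real.exp_le_exp.2
          linarith
      _ = g' / 2 := Real.exp_log (by positivity)
  have h12 : Real.exp (-(2 / g') - 2 * X / g') ≤ p := by
    rw [Real.exp_sub, div_le_iff₀ (Real.exp_pos _), mul_comm p]
    exact h9.trans h8
  refine le_trans ?_ h12
  apply Real.exp_le_exp.2
  have h13 : 2 / g' + 2 * X / g' ≤ (2 + 2 * X) / γ := by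
    rw [← add_div]
    apply div_le_div_of_nonneg_left (by positivity) hγ
    rw [hg']
    have : (1 : ℝ) ≤ 2 ^ d := one_le_pow₀ (by norm_num)
    nlinarith
  have h14 : (2 + 2 * X) / γ ≤ (2 * C1 + 4) / γ * (1 + L) ^ (2 * d * (d + 1)) * Λ ^ (1 - e) := by
    have h15 : (2 * C1 + 4) / γ * (1 + L) ^ (2 * d * (d + 1)) * Λ ^ (1 - e) =
        ((2 * C1 + 4) * Y) / γ := by rw [hY]; ring
    rw [h15]
    gcongr
    rw [hXY]
    nlinarith
  linarith

end Pool.Agent.W769.Ent
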