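import Pool.Agent.W769.Ent.Graph
import Pool.Agent.W769.Iso.Euclid

set_option autoImplicit false
set_option maxHeartbeats 1000000

open MeasureTheory Set Finset Topology Filter
open scoped ENNReal InnerProductSpace

namespace Pool.Agent.W769.Ent

open Pool.Agent.W769.Iso Pool.Agent.W769.Kak

variable {d : ℕ}

/-- the multiplicity function of a family of tubes -/
noncomputable def Nt {ι : Type} [Fintype ι] (e a : ι → Eu d) (δ : ℝ) (y : Eu d) : ℝ :=
  ∑ i, (tube δ (e i) (a i)).indicator (fun _ => (1 : ℝ)) y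

theorem Nt_nonneg {ι : Type} [Fintype ι] (e a : ι → Eu d) (δ : ℝ) (y : Eu d) :
    0 ≤ Nt e a δ y :=
  Finset.sum_nonneg fun _ _ => Set.indicator_nonneg (fun _ _ => zero_le_one) _

theorem Nt_meas {ι : Type} [Fintype ι] (e a : ι → Eu d) (δ : ℝ) : Measurable (Nt e a δ) := by
  unfold Nt
  exact Finset.measurable_fun_sum _ fun i _ =>
    measurable_const.indicator (isClosed_tube δ (e i) (a i)).measurableSet

theorem posLog_meas : Measurable Real.posLog := by
  unfold Real.posLog
  exact measurable_const.max Real.measurable_log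

theorem Ph_meas : Measurable Ph := by
  unfold Ph
  exact measurable_id.mul (measurable_const.add posLog_meas)

/-- the measure preserving change of coordinates -/
noncomputable def Th (A : Eu d ≃ₗᵢ[ℝ] Eu d) (c0 : Eu d) (z : Fin (d + 1) → ℝ) : Eu d :=
  c0 + A.symm (WithLp.toLp 2 z)

theorem A_Th (A : Eu d ≃ₗᵢ[ℝ] Eu d) (c0 : Eu d) (z : Fin (d + 1) → ℝ) :
    A (Th A c0 z - c0) = WithLp.toLp 2 z := by
  unfold Th
  rw [add_sub_cancel_left, LinearIsometryEquiv.apply_symm_apply]

theorem Th_mp (A : Eu d ≃ₗᵢ[ℝ] Eu d) (c0 : Eu d) : MeasurePreserving (Th A c0) := by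
  have h1 := PiLp.volume_preserving_toLp (Fin (d + 1))
  have h2 := A.symm.measurePreserving
  have h3 := measurePreserving_add_left (volume : Measure (Eu d)) c0
  exact h3.comp (h2.comp h1)

theorem lintegral_Th (A : Eu d ≃ₗᵢ[ℝ] Eu d) (c0 : Eu d) {G : Eu d → ℝ≥0∞} (hG : Measurable G) :
    ∫⁻ y, G y = ∫⁻ t : ℝ, ∫⁻ y : Fin d → ℝ, G (Th A c0 (Fin.cons t y)) := by
  rw [← (Th_mp A c0).lintegral_comp hG]
  exact lintegral_slices (hG.comp (Th_mp A c0).measurable)

/-- integrals over bounded intervals of heights -/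
theorem heights_split {G : ℝ → ℝ≥0∞} (hG : Measurable G) (M : ℕ)
    (h0 : ∀ t, (M : ℝ) < |t| → G t = 0) :
    ∫⁻ t, G t ≤ ∑ m ∈ Finset.Icc (-(M : ℤ)) M, ∫⁻ t in Icc (0 : ℝ) 1, G ((m : ℝ) + t) := by
  have h1 : ∀ t, G t ≤ ∑ m ∈ Finset.Icc (-(M : ℤ)) M, (Icc (m : ℝ) (m + 1)).indicator G t := by
    intro t
    rcases lt_or_ge (M : ℝ) |t| with h | h
    · rw [h0 t h]; exact zero_le
    · rw [abs_le] at h
      have hm : ⌊t⌋ ∈ Finset.Icc (-(M : ℤ)) M := by
        rw [Finset.mem_Icc]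
        constructor
        · rw [Int.le_floor]; push_cast; exact h.1
        · have : (⌊t⌋ : ℝ) ≤ M := (Int.floor_le t).trans h.2
          exact_mod_cast this
      have h2 : G t = (Icc (⌊t⌋ : ℝ) (⌊t⌋ + 1)).indicator G t := by
        rw [Set.indicator_of_mem]
        exact ⟨Int.floor_le t, (Int.lt_floor_add_one t).le⟩
      rw [h2]
      exact Finset.single_le_sum (f := fun m : ℤ => (Icc (m : ℝ) (m + 1)).indicator G t)
        (fun _ _ => zero_le) hm
  calc ∫⁻ t, G t ≤ ∫⁻ t, ∑ m ∈ Finset.Icc (-(M : ℤ)) M, (Icc (m : ℝ) (m + 1)).indicator G t :=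
        lintegral_mono h1
    _ = ∑ m ∈ Finset.Icc (-(M : ℤ)) M, ∫⁻ t, (Icc (m : ℝ) (m + 1)).indicator G t :=
        lintegral_finsetSum _ fun m _ => hG.indicator measurableSet_Icc
    _ = _ := by
        refine Finset.sum_congr rfl fun m _ => ?_
        rw [← lintegral_indicator measurableSet_Icc,
          ← lintegral_add_left_eq_self ((Icc (m : ℝ) (m + 1)).indicator G) (m : ℝ)]
        refine lintegral_congr fun t => ?_
        by_cases ht : t ∈ Icc (0 : ℝ) 1
        · rw [Set.indicator_of_mem ht, Set.indicator_of_mem]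
          exact ⟨by linarith [ht.1], by linarith [ht.2]⟩
        · rw [Set.indicator_of_notMem ht, Set.indicator_of_notMem]
          intro hm
          exact ht ⟨by linarith [hm.1], by linarith [hm.2]⟩

/-- **Tubes with directions in a cap.** -/
theorem cap (hd : 1 ≤ d) : ∃ C : ℝ, 0 < C ∧ ∀ (ι : Type) [Fintype ι]
    (e a : ι → Eu d) (e₀ : Eu d) (L δ : ℝ), 0 ≤ L → 0 < δ → δ ≤ 1 → ‖e₀‖ = 1 →
    (∀ i, ‖e i‖ = 1) → (∀ i, ‖e i - e₀‖ ≤ 1 / 8) →
    (∀ i j, i ≠ j → δ ≤ ‖e i - e j‖) →
    (∀ i j, ‖a i - a j‖ ≤ L * ‖e i - e j‖) →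
    ∫⁻ y, ENNReal.ofReal (Ph (Nt e a δ y)) ≤
      ENNReal.ofReal (C * (1 + L) ^ (2 * d * (d + 2) + 1) *
        (1 + Real.log (1 / δ)) ^ (1 - 1 / (2 * (d : ℝ) ^ 2 + 2 * d + 1))) := by
  obtain ⟨C1, hC1, hgraph⟩ := graph_disc hd
  have hd0 : (0 : ℝ) < d := by exact_mod_cast (show 0 < d by omega)
  have hd1 : (1 : ℝ) ≤ d := by exact_mod_cast hd
  refine ⟨9 * (C1 * (9 * d) ^ (2 * d * (d + 2))), by positivity, ?_⟩
  intro ι _ e a e₀ L δ hL hδ hδ1 he₀ he hcap hsep hlip
  rcases isEmpty_or_nonempty ι with hι | ⟨⟨i0⟩⟩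
  · have h0 : ∀ y, Nt e a δ y = 0 := fun y => by simp [Nt]
    have h1 : ∀ y, ENNReal.ofReal (Ph (Nt e a δ y)) = 0 := fun y => by
      rw [h0, Ph]; simp
    simp_rw [h1]
    simp
  set c0 := a i0 with hc0
  obtain ⟨A, hA⟩ := exists_rot e₀ he₀
  set x0 : ι → ℝ := fun i => A (e i) 0 with hx0
  have hdiff : ∀ i k, |A (e i) k - (mk 1 0 : Eu d) k| ≤ 1 / 8 := by
    intro i k
    have h1 : ‖A (e i) - mk 1 0‖ ≤ 1 / 8 := by
      rw [← hA, ← map_sub, A.norm_map]
      exact hcap i
    exact (coord_le (A (e i) - mk 1 0) k).trans h1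
  have hx0l : ∀ i, 7 / 8 ≤ x0 i := by
    intro i
    have := hdiff i 0
    rw [Iso.mk_zero, abs_le] at this
    rw [hx0]
    linarith [this.1]
  have hx0u : ∀ i, x0 i ≤ 1 := by
    intro i
    have h1 := coord_le (A (e i)) 0
    rw [A.norm_map, he i] at h1
    exact (le_abs_self _).trans h1
  set v : ι → Fin d → ℝ := fun i j => A (e i) j.succ / x0 i with hv
  have hAe : ∀ i, A (e i) = x0 i • mk 1 (v i) := by
    intro i
    have h1 : x0 i ≠ 0 := by have := hx0l i; linarith
    ext k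
    refine Fin.cases ?_ (fun j => ?_) k
    · simp [hx0]
    · simp only [PiLp.smul_apply, mk_succ, smul_eq_mul, hv]
      field_simp
  have hvn : ∀ i, ‖v i‖ ≤ 1 / 2 := by
    intro i
    rw [pi_norm_le_iff_of_nonneg (by norm_num)]
    intro j
    have h1 := hdiff i j.succ
    rw [mk_succ, Pi.zero_apply, sub_zero] at h1
    have h2 := hx0l i
    rw [Real.norm_eq_abs, hv]
    simp only
    rw [abs_div, abs_of_pos (by linarith : 0 < x0 i), div_le_iff₀ (by linarith)]
    linarith
  set h : ι → ℝ := fun i => A (a i - c0) 0 with hh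
  set p : ι → Fin d → ℝ := fun i j => A (a i - c0) j.succ with hp
  have hAa : ∀ i, A (a i - c0) = mk (h i) (p i) := by
    intro i
    ext k
    refine Fin.cases ?_ (fun j => ?_) k
    · simp [hh]
    · simp [hp]
  have hee : ∀ i j, ‖e i - e j‖ ≤ 2 * d * ‖v i - v j‖ := by
    intro i j
    have h1 := norm_unit_sub_le (hAe i) (hAe j) (by linarith [hx0l i]) (by linarith [hx0l j])
      (by rw [A.norm_map]; exact he i) (by rw [A.norm_map]; exact he j) (one_le_norm_mk _)
    rw [← map_sub, A.norm_map, mk_sub, sub_self] at h1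
    have h2 := norm_mk_zero_le (v i - v j)
    linarith
  have hhL : ∀ i, |h i| ≤ L := by
    intro i
    have h1 := coord_le (A (a i - c0)) 0
    rw [A.norm_map] at h1
    have h2 := hlip i i0
    have h3 : ‖e i - e i0‖ ≤ 1 := by
      have : e i - e i0 = (e i - e₀) - (e i0 - e₀) := by abel
      rw [this]
      have := norm_sub_le (e i - e₀) (e i0 - e₀)
      linarith [hcap i, hcap i0]
    have h4 : L * ‖e i - e i0‖ ≤ L * 1 := by gcongr
    calc |h i| ≤ ‖a i - c0‖ := h1
      _ ≤ L := by linarith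
  set q : ι → Fin d → ℝ := fun i => p i - h i • v i with hq
  have hqL : ∀ i j, ‖q i - q j‖ ≤ 4 * d * L * ‖v i - v j‖ := by
    intro i j
    have hdAa : A (a i - c0) - A (a j - c0) = A (a i - a j) := by
      rw [← map_sub]; congr 1; abel
    have h1 : ‖p i - p j‖ ≤ ‖a i - a j‖ := by
      rw [pi_norm_le_iff_of_nonneg (norm_nonneg _)]
      intro k
      have h2 := coord_le (A (a i - a j)) k.succ
      rw [A.norm_map, ← hdAa] at h2
      exact h2
    have h2 : |h i - h j| ≤ ‖a i - a j‖ := by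
      have h3 := coord_le (A (a i - a j)) 0
      rw [A.norm_map, ← hdAa] at h3
      exact h3
    have h3 : q i - q j = (p i - p j) - (h i - h j) • v i - h j • (v i - v j) := by
      rw [hq]
      simp only
      rw [sub_smul, smul_sub]; abel
    have h4 := hlip i j
    have h5 := hee i j
    have h6 : ‖a i - a j‖ ≤ L * (2 * d * ‖v i - v j‖) := h4.trans (by gcongr)
    have h7 : ‖(h i - h j) • v i‖ ≤ ‖a i - a j‖ * (1 / 2) := by
      rw [norm_smul, Real.norm_eq_abs]
      gcongr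
      exact hvn i
    have h8 : ‖h j • (v i - v j)‖ ≤ L * ‖v i - v j‖ := by
      rw [norm_smul, Real.norm_eq_abs]
      gcongr
      exact hhL j
    rw [h3]
    have h9 := norm_sub_le ((p i - p j) - (h i - h j) • v i) (h j • (v i - v j))
    have h10 := norm_sub_le (p i - p j) ((h i - h j) • v i)
    have h11 : L * ‖v i - v j‖ ≤ d * (L * ‖v i - v j‖) := by
      have : 0 ≤ L * ‖v i - v j‖ := by positivity
      nlinarith
    calc ‖(p i - p j) - (h i - h j) • v i - h j • (v i - v j)‖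
        ≤ ‖a i - a j‖ + ‖a i - a j‖ * (1 / 2) + L * ‖v i - v j‖ := by linarith
      _ ≤ 4 * d * L * ‖v i - v j‖ := by nlinarith
  -- the inclusion
  have hincl : ∀ (t : ℝ) (y : Fin d → ℝ) (i : ι), Th A c0 (Fin.cons t y) ∈ tube δ (e i) (a i) →
      |t| ≤ L + 2 ∧ ‖q i + t • v i - y‖ ≤ 2 * δ := by
    rintro t y i ⟨h1, h2⟩
    set Y := Th A c0 (Fin.cons t y) with hY
    set s : ℝ := ⟪Y - a i, e i⟫_ℝ with hs
    set W : Eu d := (Y - a i) - s • e i with hW
    have hAY : A (Y - c0) = mk t y := A_Th A c0 (Fin.cons t y)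
    have hdec : A W = mk t y - mk (h i) (p i) - (s * x0 i) • mk 1 (v i) := by
      have h3 : W = (Y - c0) - (a i - c0) - s • e i := by rw [hW]; abel
      rw [h3, map_sub, map_sub, map_smul, hAY, hAa, hAe, smul_smul]
    have hWc : ∀ k, |A W k| ≤ δ := fun k => by
      have := coord_le (A W) k
      rw [A.norm_map] at this
      exact this.trans h2
    have hw0 : A W 0 = t - h i - s * x0 i := by
      rw [hdec]
      simp
    have hwj : ∀ j : Fin d, A W j.succ = y j - p i j - s * x0 i * v i j := by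
      intro j
      rw [hdec]
      simp
    constructor
    · have h3 := hWc 0
      rw [hw0] at h3
      have h4 := hhL i
      have h5 : |s * x0 i| ≤ 1 / 2 := by
        rw [abs_mul, abs_of_pos (by linarith [hx0l i] : 0 < x0 i)]
        have := hx0u i
        have := hx0l i
        nlinarith [abs_nonneg s]
      rw [abs_le] at h3 h4 h5 ⊢
      constructor <;> linarith [h3.1, h3.2, h4.1, h4.2, h5.1, h5.2]
    · rw [pi_norm_le_iff_of_nonneg (by positivity)]
      intro j
      have h3 : (q i + t • v i - y) j = A W 0 * v i j - A W j.succ := by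
        rw [hw0, hwj]
        simp only [hq, Pi.sub_apply, Pi.add_apply, Pi.smul_apply, smul_eq_mul]
        ring
      rw [h3, Real.norm_eq_abs]
      have h4 := abs_sub (A W 0 * v i j) (A W j.succ)
      have h5 : |A W 0 * v i j| ≤ δ * (1 / 2) := by
        rw [abs_mul]
        have h6 := hWc 0
        have h7 : |v i j| ≤ 1 / 2 := (norm_le_pi_norm (v i) j).trans (hvn i)
        gcongr
      have h6 := hWc j.succ
      linarith
  -- the heights
  set M : ℕ := ⌈L + 2⌉₊ with hM
  have hM1 : L + 2 ≤ M := Nat.le_ceil _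
  have hM2 : (M : ℝ) < L + 2 + 1 := Nat.ceil_lt_add_one (by linarith)
  set G : ℝ → ℝ≥0∞ := fun t => ∫⁻ y : Fin d → ℝ,
    ENNReal.ofReal (Ph (Nt e a δ (Th A c0 (Fin.cons t y)))) with hG
  have hFm : Measurable (fun y => ENNReal.ofReal (Ph (Nt e a δ y))) :=
    ENNReal.measurable_ofReal.comp (Ph_meas.comp (Nt_meas e a δ))
  have hGm : Measurable G := by
    rw [hG]
    apply Measurable.lintegral_prod_right'
      (f := fun p : ℝ × (Fin d → ℝ) => ENNReal.ofReal (Ph (Nt e a δ (Th A c0 (Fin.cons p.1 p.2)))))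
    exact hFm.comp ((Th_mp A c0).measurable.comp cons_cont.measurable)
  have hG0 : ∀ t, (M : ℝ) < |t| → G t = 0 := by
    intro t ht
    rw [hG]
    simp only
    have : ∀ y : Fin d → ℝ, ENNReal.ofReal (Ph (Nt e a δ (Th A c0 (Fin.cons t y)))) = 0 := by
      intro y
      have h1 : Nt e a δ (Th A c0 (Fin.cons t y)) = 0 := by
        unfold Nt
        apply Finset.sum_eq_zero
        intro i _
        apply Set.indicator_of_notMem
        intro hmem
        have := (hincl t y i hmem).1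
        linarith
      rw [h1, Ph]; simp
    simp_rw [this]
    simp
  rw [lintegral_Th A c0 hFm]
  refine (heights_split hGm M hG0).trans ?_
  set X : ℝ := C1 * (1 + (4 * d * L + M)) ^ (2 * d * (d + 2)) *
    (1 + Real.log (1 / δ)) ^ (1 - 1 / (2 * (d : ℝ) ^ 2 + 2 * d + 1)) with hX
  have hlogδ : 0 ≤ Real.log (1 / δ) := Real.log_nonneg (by rw [le_div_iff₀ hδ]; linarith)
  have hX0 : 0 ≤ X := by positivity
  have hpiece : ∀ m ∈ Finset.Icc (-(M : ℤ)) M, ∫⁻ t in Icc (0 : ℝ) 1, G ((m : ℝ) + t) ≤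
      ENNReal.ofReal X := by
    intro m hm
    rw [Finset.mem_Icc] at hm
    have hmM : |(m : ℝ)| ≤ M := by
      rw [abs_le]
      exact ⟨by exact_mod_cast hm.1, by exact_mod_cast hm.2⟩
    refine le_trans ?_ (hgraph ι v (fun i => q i + (m : ℝ) • v i) (4 * d * L + M) δ
      (by positivity) hδ hδ1 hvn (fun i j hij => (hsep i j hij).trans (hee i j)) (by
        intro i j
        have h1 : (q i + (m : ℝ) • v i) - (q j + (m : ℝ) • v j) =
            (q i - q j) + (m : ℝ) • (v i - v j) := by rw [smul_sub]; abel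
        rw [h1]
        have h2 := norm_add_le (q i - q j) ((m : ℝ) • (v i - v j))
        have h3 : ‖(m : ℝ) • (v i - v j)‖ ≤ M * ‖v i - v j‖ := by
          rw [norm_smul, Real.norm_eq_abs]
          gcongr
        have h4 := hqL i j
        linarith))
    refine lintegral_mono fun t => lintegral_mono fun y => ?_
    apply ENNReal.ofReal_le_ofReal
    apply Ph_mono (Nt_nonneg _ _ _ _)
    unfold Nt Ng
    refine Finset.sum_le_sum fun i _ => ?_
    by_cases hmem : Th A c0 (Fin.cons ((m : ℝ) + t) y) ∈ tube δ (e i) (a i)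
    · rw [Set.indicator_of_mem hmem, Set.indicator_of_mem]
      have h1 := (hincl _ y i hmem).2
      rw [Set.mem_ofPred_eq]
      have h2 : q i + (m : ℝ) • v i + t • v i - y = q i + ((m : ℝ) + t) • v i - y := by
        rw [add_smul]; abel
      rw [h2]
      exact h1
    · rw [Set.indicator_of_notMem hmem]
      exact Set.indicator_nonneg (fun _ _ => zero_le_one) _
  refine (Finset.sum_le_sum hpiece).trans ?_
  rw [Finset.sum_const, nsmul_eq_mul, Int.card_Icc]
  have hcard : (((M : ℤ) + 1 - -(M : ℤ)).toNat : ℝ≥0∞) = ENNReal.ofReal (2 * M + 1) := by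
    have h1 : ((M : ℤ) + 1 - -(M : ℤ)).toNat = 2 * M + 1 := by omega
    rw [h1, ENNReal.ofReal_add (by positivity) zero_le_one, ENNReal.ofReal_mul (by norm_num),
      ENNReal.ofReal_natCast, ENNReal.ofReal_one]
    push_cast
    rw [ENNReal.ofReal_ofNat]
  rw [hcard, ← ENNReal.ofReal_mul (by positivity)]
  apply ENNReal.ofReal_le_ofReal
  have h1 : (2 * (M : ℝ) + 1) ≤ 9 * (1 + L) := by linarith
  have h2 : 1 + (4 * d * L + M) ≤ 9 * d * (1 + L) := by nlinarith
  calc (2 * (M : ℝ) + 1) * X ≤ (9 * (1 + L)) * (C1 * (9 * d * (1 + L)) ^ (2 * d * (d + 2)) *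
        (1 + Real.log (1 / δ)) ^ (1 - 1 / (2 * (d : ℝ) ^ 2 + 2 * d + 1))) := by
        rw [hX]
        gcongr
    _ = _ := by
        rw [mul_pow (9 * (d : ℝ)), pow_succ (1 + L)]
        ring

end Pool.Agent.W769.Ent
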