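import Pool.Agent.W769.Ent.Main

set_option autoImplicit false
set_option maxHeartbeats 1000000

open MeasureTheory Set Finset Topology Filter
open scoped ENNReal

namespace Pool.Agent.W769.Ent

variable {d : ℕ}

/-- the pointwise entropy inequality -/
theorem pointwise (hd : 1 ≤ d) {a : (Fin d → ℝ) → Fin d → ℝ} {L : ℝ} (hL : 1 ≤ L)
    (ha : ∀ v w, ‖a v - a w‖ ≤ L * ‖v - w‖) {η κ τ δ : ℝ} (hη : 0 < η) (hκ1 : κ ≤ 1)
    (hκ : κ = η / ((d.factorial : ℝ) * (L + 1) ^ (d - 1))) (hτ : τ = κ / (64 * d)) (hδ : 0 < δ)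
    (Bd : ℕ → Set (Fin d → ℝ)) (hBm : ∀ j, MeasurableSet (Bd j))
    (hBd : ∀ (j : ℕ) (w : Fin d → ℝ), w ∉ Bd j → ∀ u : Fin d → ℝ, ‖u‖ ≤ 1 →
        ‖a (w + (1 / 2 ^ j : ℝ) • u) - a w - (1 / 2 ^ j : ℝ) • (Aq a (1 / 2 ^ j) w).mulVec u‖ ≤
          8 * d * (τ * (1 / 2 ^ j)))
    {k0 : ℕ} (hk0 : ∀ j < k0, 2 ^ j * (16 * δ) < κ) (hk1 : κ ≤ 2 ^ k0 * (16 * δ))
    {t : ℝ} (ht : t ∈ Icc (0 : ℝ) 1) (y : Fin d → ℝ) :
    Nm a δ t y * Real.posLog (Nm a δ t y) ≤ d * Real.log (96 / κ) * Nm a δ t y +
      (d * Real.log 5) * ∑ i ∈ range k0,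
        volume.real (St a δ t y ∩ (Bd i ∪ badT a η (1 / 2 ^ i) t)) / δ ^ d := by
  have hac : Continuous a := Lip_cont (by linarith) ha
  have hfac : (0 : ℝ) < (d.factorial : ℝ) * (L + 1) ^ (d - 1) := by
    have : 0 < L + 1 := by linarith
    positivity
  have hκ0 : 0 < κ := by rw [hκ]; positivity
  have hbt : ∀ i : ℕ, MeasurableSet (badT a η (1 / 2 ^ i) t) := by
    intro i
    have h : Continuous (fun w : Fin d → ℝ =>
        |(Aq a (1 / 2 ^ i) w + t • (1 : Matrix (Fin d) (Fin d) ℝ)).det|) :=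
      (detc hac (1 / 2 ^ i)).comp (continuous_const.prodMk continuous_id)
    exact (isClosed_le h continuous_const).measurableSet
  have hcount := count_entropy k0 (fun i => Bd i ∪ badT a η (1 / 2 ^ i) t)
    (fun i => (hBm i).union (hbt i)) (St_meas hac δ t y) (fun w hw => hw.1) (by
      intro i hi w hw w' hw' h1 h2
      by_contra hcon
      rw [Set.mem_union, not_or] at hcon
      have h3 := annulus hd hL ha hη hκ hτ ht (hBd i w hcon.1) hcon.2 h1 h2
      have h4 : ‖(a w' + t • w') - (a w + t • w)‖ ≤ 2 * δ := by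
        have h5 : (a w' + t • w') - (a w + t • w) =
            (a w' + t • w' - y) - (a w + t • w - y) := by abel
        rw [h5]
        refine (norm_sub_le _ _).trans ?_
        linarith [hw.2, hw'.2]
      have h6 := hk0 i hi
      have h7 : κ / 8 * (1 / 2 ^ i) ≤ 2 * δ := h3.trans h4
      have h8 : (0 : ℝ) < 2 ^ i := by positivity
      rw [mul_one_div, div_le_iff₀ h8] at h7
      linarith)
  set x := volume.real (St a δ t y) with hx
  set X := ∑ i ∈ range k0, volume.real (St a δ t y ∩ (Bd i ∪ badT a η (1 / 2 ^ i) t)) with hX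
  have hx0 : 0 ≤ x := measureReal_nonneg
  have hX0 : 0 ≤ X := Finset.sum_nonneg fun _ _ => measureReal_nonneg
  have hδd : 0 < δ ^ d := by positivity
  have hNx : Nm a δ t y = x / δ ^ d := rfl
  have hd0 : (0 : ℝ) ≤ d := by positivity
  have hl5 : 0 ≤ Real.log 5 := Real.log_nonneg (by norm_num)
  have hl96 : 0 ≤ Real.log (96 / κ) := Real.log_nonneg (by rw [le_div_iff₀ hκ0]; linarith)
  rw [← Finset.sum_div, ← hX]
  have hN0 : 0 ≤ Nm a δ t y := by rw [hNx]; positivity
  rcases le_or_gt (Nm a δ t y) 1 with h1 | h1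
  · have h2 : Real.posLog (Nm a δ t y) = 0 := by
      rw [Real.posLog_eq_zero_iff, abs_of_nonneg hN0]
      exact h1
    rw [h2, mul_zero]
    positivity
  · have h2 : Real.posLog (Nm a δ t y) = Real.log (Nm a δ t y) := by
      rw [Real.posLog_eq_log]
      rw [abs_of_nonneg hN0]
      exact h1.le
    have hxp : 0 < x := by
      rw [hNx, lt_div_iff₀ hδd] at h1
      linarith
    rw [h2]
    have h3 : Real.log (Nm a δ t y) ≤ Real.log (x / (2 / 2 ^ k0) ^ d) + d * Real.log (32 / κ) := by
      have h4 : Nm a δ t y ≤ x / (2 / 2 ^ k0) ^ d * (32 / κ) ^ d := by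
        rw [hNx, div_mul_eq_mul_div, le_div_iff₀ (by positivity), div_mul_eq_mul_div,
          div_le_iff₀ hδd, mul_assoc]
        gcongr
        rw [← mul_pow]
        gcongr
        rw [div_mul_eq_mul_div, le_div_iff₀ hκ0, div_mul_eq_mul_div, div_le_iff₀ (by positivity)]
        linarith
      calc Real.log (Nm a δ t y) ≤ Real.log (x / (2 / 2 ^ k0) ^ d * (32 / κ) ^ d) :=
            Real.log_le_log (by linarith) h4
        _ = _ := by
            rw [Real.log_mul (by positivity) (by positivity), Real.log_pow (n := d) (32 / κ)]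
    have h5 : Real.log (96 / κ) = Real.log (32 / κ) + Real.log 3 := by
      rw [← Real.log_mul (by positivity) (by norm_num)]
      congr 1
      field_simp
      norm_num
    rw [hNx] at h3 ⊢
    rw [h5]
    have h6 : x * Real.log (x / δ ^ d) ≤ x * (d * Real.log 3) + d * Real.log 5 * X +
        x * (d * Real.log (32 / κ)) := by
      have := mul_le_mul_of_nonneg_left h3 hx0
      rw [mul_add] at this
      linarith
    calc x / δ ^ d * Real.log (x / δ ^ d) = (x * Real.log (x / δ ^ d)) / δ ^ d := by ring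
      _ ≤ (x * (d * Real.log 3) + d * Real.log 5 * X + x * (d * Real.log (32 / κ))) / δ ^ d := by
          gcongr
      _ = _ := by ring

/-- **Entropy of Lipschitz families of tubes.** -/
theorem entropy_core (hd : 1 ≤ d) : ∃ C : ℝ, 0 < C ∧ ∀ (L δ : ℝ)
    (a : (Fin d → ℝ) → Fin d → ℝ), 1 ≤ L → 0 < δ → δ ≤ 1 →
    (∀ v w, ‖a v - a w‖ ≤ L * ‖v - w‖) →
    ∫⁻ t in Icc (0 : ℝ) 1, ∫⁻ y, ENNReal.ofReal (Nm a δ t y * Real.posLog (Nm a δ t y)) ≤
      ENNReal.ofReal (C * L ^ (2 * d * (d + 1)) *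
        (1 + Real.log (1 / δ)) ^ (1 - 1 / (2 * (d : ℝ) ^ 2 + 2 * d + 1))) := by
  obtain ⟨C0, hC0, hqd⟩ := quant_diff d
  have hd0 : (0 : ℝ) < d := by exact_mod_cast (show 0 < d by omega)
  have hd1 : (1 : ℝ) ≤ d := by exact_mod_cast hd
  set K1 : ℝ := (d.factorial : ℝ) * 2 ^ (d - 1) with hK1
  have hK1p : 0 < K1 := by positivity
  have hl5 : 0 ≤ Real.log 5 := Real.log_nonneg (by norm_num)
  set C : ℝ := 4 ^ d * (96 * d * K1) + d * Real.log 5 * 2 ^ d *
    (C0 * (64 * d * K1) ^ (2 * d + 2) + 2 ^ d * (2 * d * 2)) with hC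
  refine ⟨C, by positivity, ?_⟩
  intro L δ a hL hδ hδ1 ha
  have hL0 : 0 < L := by linarith
  have hac : Continuous a := Lip_cont hL0.le ha
  set Λ : ℝ := 1 + Real.log (1 / δ) with hΛ
  have hlogδ : 0 ≤ Real.log (1 / δ) := Real.log_nonneg (by rw [le_div_iff₀ hδ]; linarith)
  have hΛ1 : 1 ≤ Λ := by linarith
  have hΛ0 : 0 < Λ := by linarith
  set e : ℝ := 1 / (2 * (d : ℝ) ^ 2 + 2 * d + 1) with he
  have he0 : 0 < e := by positivity
  set s : ℝ := Λ ^ (-e) with hs
  have hs0 : 0 < s := by positivity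
  have hs1 : s ≤ 1 := Real.rpow_le_one_of_one_le_of_nonpos hΛ1 (by linarith)
  set W : ℝ := Λ ^ (1 - e) with hW
  have hWp : 0 < W := by positivity
  set P : ℝ := L ^ (2 * d * (d + 1)) with hP
  have hPp : 0 < P := by positivity
  have hP1 : 1 ≤ P := one_le_pow₀ hL
  set κ : ℝ := s ^ d / ((d.factorial : ℝ) * (L + 1) ^ (d - 1)) with hκ
  have hfac1 : (1 : ℝ) ≤ (d.factorial : ℝ) := by exact_mod_cast Nat.factorial_pos d
  have hden1 : 1 ≤ (d.factorial : ℝ) * (L + 1) ^ (d - 1) := by
    have : (1 : ℝ) ≤ (L + 1) ^ (d - 1) := one_le_pow₀ (by linarith)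
    nlinarith
  have hden0 : 0 < (d.factorial : ℝ) * (L + 1) ^ (d - 1) := by linarith
  have hκ0 : 0 < κ := by positivity
  have hκ1 : κ ≤ 1 := by
    rw [hκ, div_le_one hden0]
    exact (pow_le_one₀ hs0.le hs1).trans hden1
  set τ : ℝ := κ / (64 * d) with hτ
  have hτ0 : 0 < τ := by positivity
  have hτ1 : τ ≤ 1 := by
    rw [hτ, div_le_one (by positivity)]
    linarith
  obtain ⟨Bd, hBm, hBsum, hBd⟩ := hqd L τ a hL hτ0 hτ1 ha
  obtain ⟨k0, hk0, hk1, hk2⟩ := exists_scale hκ1 hδ hδ1
  rw [← hΛ] at hk2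
  set Q := Metric.closedBall (0 : Fin d → ℝ) 1 with hQ
  have hQv : volume Q = ENNReal.ofReal (2 ^ d) := by
    rw [hQ, Real.volume_pi_closedBall _ zero_le_one, Fintype.card_fin, mul_one]
  have hQf : volume Q ≠ ⊤ := by rw [hQv]; exact ENNReal.ofReal_ne_top
  have hl96 : 0 ≤ Real.log (96 / κ) := Real.log_nonneg (by rw [le_div_iff₀ hκ0]; linarith)
  set c1 : ℝ := d * Real.log (96 / κ) with hc1
  have hc10 : 0 ≤ c1 := by positivity
  set c2 : ℝ := d * Real.log 5 with hc2
  have hc20 : 0 ≤ c2 := by positivity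
  have hδd : 0 < δ ^ d := by positivity
  -- the inner integral
  have hinner : ∀ t ∈ Icc (0 : ℝ) 1,
      ∫⁻ y, ENNReal.ofReal (Nm a δ t y * Real.posLog (Nm a δ t y)) ≤
        ENNReal.ofReal (c1 * 4 ^ d) + ENNReal.ofReal (c2 * 2 ^ d) *
          ∑ i ∈ range k0, (volume (Q ∩ Bd i) + volume (Q ∩ badT a (s ^ d) (1 / 2 ^ i) t)) := by
    intro t ht
    have hTm : ∀ i : ℕ, MeasurableSet (Bd i ∪ badT a (s ^ d) (1 / 2 ^ i) t) := by
      intro i
      have h : Continuous (fun w : Fin d → ℝ =>
          |(Aq a (1 / 2 ^ i) w + t • (1 : Matrix (Fin d) (Fin d) ℝ)).det|) :=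
        (detc hac (1 / 2 ^ i)).comp (continuous_const.prodMk continuous_id)
      exact (hBm i).union (isClosed_le h continuous_const).measurableSet
    have hSf : ∀ (y : Fin d → ℝ) (T : Set (Fin d → ℝ)), volume (St a δ t y ∩ T) ≠ ⊤ := by
      intro y T
      exact ne_top_of_le_ne_top hQf (measure_mono fun w hw => hw.1.1)
    have hpt : ∀ y, ENNReal.ofReal (Nm a δ t y * Real.posLog (Nm a δ t y)) ≤
        ENNReal.ofReal (c1 / δ ^ d) * volume (St a δ t y ∩ univ) +
          ENNReal.ofReal (c2 / δ ^ d) *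
            ∑ i ∈ range k0, volume (St a δ t y ∩ (Bd i ∪ badT a (s ^ d) (1 / 2 ^ i) t)) := by
      intro y
      have h1 := pointwise hd hL ha (by positivity : 0 < s ^ d) hκ1 hκ hτ hδ Bd hBm hBd hk0 hk1
        ht y
      refine (ENNReal.ofReal_le_ofReal h1).trans (le_of_eq ?_)
      have hsum0 : 0 ≤ ∑ i ∈ range k0,
          volume.real (St a δ t y ∩ (Bd i ∪ badT a (s ^ d) (1 / 2 ^ i) t)) / δ ^ d :=
        Finset.sum_nonneg fun _ _ => by positivity
      have hN0 : 0 ≤ Nm a δ t y := by unfold Nm; positivity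
      rw [ENNReal.ofReal_add (by positivity) (by positivity)]
      congr 1
      · unfold Nm
        rw [Set.inter_univ]
        have : d * Real.log (96 / κ) * (volume.real (St a δ t y) / δ ^ d) =
            c1 / δ ^ d * volume.real (St a δ t y) := by rw [hc1]; ring
        rw [this, ENNReal.ofReal_mul (by positivity)]
        congr 1
        have h3 := hSf y univ
        rw [Set.inter_univ] at h3
        exact ENNReal.ofReal_toReal h3
      · rw [← Finset.sum_div, mul_div_assoc']
        have : d * Real.log 5 * (∑ i ∈ range k0,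
            volume.real (St a δ t y ∩ (Bd i ∪ badT a (s ^ d) (1 / 2 ^ i) t))) / δ ^ d =
            c2 / δ ^ d * ∑ i ∈ range k0,
            volume.real (St a δ t y ∩ (Bd i ∪ badT a (s ^ d) (1 / 2 ^ i) t)) := by
          rw [hc2]; ring
        rw [this, ENNReal.ofReal_mul (by positivity),
          ENNReal.ofReal_sum_of_nonneg fun _ _ => measureReal_nonneg]
        congr 1
        refine Finset.sum_congr rfl fun i _ => ?_
        exact ENNReal.ofReal_toReal (hSf y _)
    have htu := tonelli hac hδ.le t MeasurableSet.univ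
    have hti := fun i : ℕ => tonelli hac hδ.le t (hTm i)
    calc ∫⁻ y, ENNReal.ofReal (Nm a δ t y * Real.posLog (Nm a δ t y))
        ≤ ∫⁻ y, (ENNReal.ofReal (c1 / δ ^ d) * volume (St a δ t y ∩ univ) +
          ENNReal.ofReal (c2 / δ ^ d) *
            ∑ i ∈ range k0, volume (St a δ t y ∩ (Bd i ∪ badT a (s ^ d) (1 / 2 ^ i) t))) :=
          lintegral_mono hpt
      _ = ENNReal.ofReal (c1 / δ ^ d) * (ENNReal.ofReal ((2 * δ) ^ d) * volume (Q ∩ univ)) +
          ENNReal.ofReal (c2 / δ ^ d) * ∑ i ∈ range k0, (ENNReal.ofReal ((2 * δ) ^ d) *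
            volume (Q ∩ (Bd i ∪ badT a (s ^ d) (1 / 2 ^ i) t))) := by
          rw [lintegral_add_left (htu.1.const_mul _), lintegral_const_mul _ htu.1, htu.2,
            lintegral_const_mul _ (Finset.measurable_fun_sum _ fun i _ => (hti i).1),
            lintegral_finsetSum _ fun i _ => (hti i).1]
          congr 2
          exact Finset.sum_congr rfl fun i _ => (hti i).2
      _ = ENNReal.ofReal (c1 * 4 ^ d) + ENNReal.ofReal (c2 * 2 ^ d) * ∑ i ∈ range k0,
            volume (Q ∩ (Bd i ∪ badT a (s ^ d) (1 / 2 ^ i) t)) := by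
          rw [← Finset.mul_sum, ← mul_assoc, ← mul_assoc, Set.inter_univ, hQv,
            ← ENNReal.ofReal_mul (by positivity), ← ENNReal.ofReal_mul (by positivity),
            ← ENNReal.ofReal_mul (by positivity)]
          have e1 : c1 / δ ^ d * (2 * δ) ^ d * 2 ^ d = c1 * 4 ^ d := by
            rw [mul_pow]
            have : (4 : ℝ) ^ d = 2 ^ d * 2 ^ d := by rw [← mul_pow]; norm_num
            rw [this]
            field_simp
          have e2 : c2 / δ ^ d * (2 * δ) ^ d = c2 * 2 ^ d := by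
            rw [mul_pow]
            field_simp
          rw [e1, e2]
      _ ≤ _ := by
          gcongr with i _
          rw [Set.inter_union_distrib_left]
          exact measure_union_le _ _
  -- the outer integral
  have hhm := fun i : ℕ => heights_le hd hac hs0.le (1 / 2 ^ i)
  have hBfin : ∀ i : ℕ, volume (Q ∩ Bd i) ≠ ⊤ := fun i =>
    ne_top_of_le_ne_top hQf (measure_mono Set.inter_subset_left)
  have hI : volume (Icc (0 : ℝ) 1) = 1 := by rw [Real.volume_Icc]; norm_num
  calc ∫⁻ t in Icc (0 : ℝ) 1, ∫⁻ y, ENNReal.ofReal (Nm a δ t y * Real.posLog (Nm a δ t y))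
      ≤ ∫⁻ t in Icc (0 : ℝ) 1, (ENNReal.ofReal (c1 * 4 ^ d) + ENNReal.ofReal (c2 * 2 ^ d) *
          ∑ i ∈ range k0, (volume (Q ∩ Bd i) + volume (Q ∩ badT a (s ^ d) (1 / 2 ^ i) t))) :=
        setLIntegral_mono' measurableSet_Icc hinner
    _ = ENNReal.ofReal (c1 * 4 ^ d) + ENNReal.ofReal (c2 * 2 ^ d) *
          ∑ i ∈ range k0, (volume (Q ∩ Bd i) +
            ∫⁻ t in Icc (0 : ℝ) 1, volume (Q ∩ badT a (s ^ d) (1 / 2 ^ i) t)) := by
        have hm : ∀ i : ℕ, Measurable (fun t : ℝ =>
            volume (Q ∩ Bd i) + volume (Q ∩ badT a (s ^ d) (1 / 2 ^ i) t)) := fun i =>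
          measurable_const.add (hhm i).1
        rw [lintegral_add_left measurable_const, setLIntegral_const, hI, mul_one,
          lintegral_const_mul _ (Finset.measurable_fun_sum _ fun i _ => hm i),
          lintegral_finsetSum _ fun i _ => hm i]
        congr 2
        refine Finset.sum_congr rfl fun i _ => ?_
        rw [lintegral_add_left measurable_const, setLIntegral_const, hI, mul_one]
    _ ≤ ENNReal.ofReal (c1 * 4 ^ d) + ENNReal.ofReal (c2 * 2 ^ d) *
          ∑ i ∈ range k0, (ENNReal.ofReal (volume (Bd i ∩ Q)).toReal +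
            ENNReal.ofReal (2 ^ d * (2 * d * s))) := by
        gcongr with i _
        · rw [ENNReal.ofReal_toReal (by rw [Set.inter_comm]; exact hBfin i), Set.inter_comm]
        · exact (hhm i).2
    _ = ENNReal.ofReal (c1 * 4 ^ d + c2 * 2 ^ d *
          (∑ i ∈ range k0, (volume (Bd i ∩ Q)).toReal + k0 * (2 ^ d * (2 * d * s)))) := by
        rw [ENNReal.ofReal_add (by positivity) (by positivity),
          ENNReal.ofReal_mul (by positivity : 0 ≤ c2 * 2 ^ d)]
        congr 2
        have e3 : ENNReal.ofReal ((k0 : ℝ) * (2 ^ d * (2 * d * s))) =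
            (k0 : ℝ≥0∞) * ENNReal.ofReal (2 ^ d * (2 * d * s)) := by
          rw [ENNReal.ofReal_mul (Nat.cast_nonneg k0), ENNReal.ofReal_natCast]
        rw [Finset.sum_add_distrib, ENNReal.ofReal_add (by positivity) (by positivity),
          ENNReal.ofReal_sum_of_nonneg fun _ _ => ENNReal.toReal_nonneg, Finset.sum_const,
          Finset.card_range, nsmul_eq_mul, e3]
    _ ≤ ENNReal.ofReal (C * P * W) := by
        apply ENNReal.ofReal_le_ofReal
        -- numerics
        set G : ℝ := s⁻¹ with hG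
        have hG1 : 1 ≤ G := (one_le_inv₀ hs0).2 hs1
        have hG0 : 0 < G := by linarith
        have hGW : G ^ (d * (2 * d + 2)) = W := by
          rw [hG, hs, ← Real.rpow_neg hΛ0.le, neg_neg, ← Real.rpow_natCast,
            ← Real.rpow_mul hΛ0.le, hW]
          congr 1
          rw [he]
          push_cast
          field_simp
          ring
        have hksW : (k0 : ℝ) * s ≤ 2 * W := by
          have h1 : Λ * s = W := by
            rw [hs, hW, ← Real.rpow_one_add' hΛ0.le]
            · congr 1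
            · have : e < 1 := by
                rw [he, div_lt_one (by positivity)]
                nlinarith
              linarith
          calc (k0 : ℝ) * s ≤ (2 * Λ) * s := by gcongr
            _ = 2 * W := by rw [mul_assoc, h1]
        have hκinv : 1 / κ ≤ K1 * L ^ (d - 1) * G ^ d := by
          rw [hκ, one_div_div, div_le_iff₀ (by positivity)]
          have h1 : (L + 1) ^ (d - 1) ≤ 2 ^ (d - 1) * L ^ (d - 1) := by
            rw [← mul_pow]
            gcongr
            linarith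
          have h2 : G ^ d * s ^ d = 1 := by
            rw [← mul_pow, hG, inv_mul_cancel₀ hs0.ne', one_pow]
          calc (d.factorial : ℝ) * (L + 1) ^ (d - 1) ≤
                (d.factorial : ℝ) * (2 ^ (d - 1) * L ^ (d - 1)) := by gcongr
            _ = K1 * L ^ (d - 1) * (G ^ d * s ^ d) := by rw [h2, hK1]; ring
            _ = _ := by ring
        have hLP : L ^ (d - 1) ≤ P := by
          rw [hP]
          apply pow_le_pow_right₀ hL
          nlinarith [Nat.sub_le d 1]
        have hGd : G ^ d ≤ W := by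
          rw [← hGW]
          apply pow_le_pow_right₀ hG1
          nlinarith
        have hb1 : c1 ≤ 96 * d * K1 * P * W := by
          have h1 : Real.log (96 / κ) ≤ 96 / κ := by
            have := Real.log_le_sub_one_of_pos (show 0 < 96 / κ by positivity)
            linarith
          have h2 : 96 / κ = 96 * (1 / κ) := by ring
          have h3 : 96 * (1 / κ) ≤ 96 * (K1 * L ^ (d - 1) * G ^ d) := by linarith
          have h4 : Real.log (96 / κ) ≤ 96 * (K1 * L ^ (d - 1) * G ^ d) := by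
            rw [← h2] at h3
            exact h1.trans h3
          calc c1 ≤ d * (96 * (K1 * L ^ (d - 1) * G ^ d)) :=
                mul_le_mul_of_nonneg_left h4 hd0.le
            _ ≤ d * (96 * (K1 * P * W)) := by gcongr
            _ = _ := by ring
        have hb2 : (L / τ) ^ (2 * d + 2) ≤ (64 * d * K1) ^ (2 * d + 2) * (P * W) := by
          have h1 : L / τ ≤ 64 * d * K1 * (L ^ d * G ^ d) := by
            have h2 : L / τ = 64 * d * L * (1 / κ) := by
              rw [hτ]; field_simp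
            rw [h2]
            calc 64 * d * L * (1 / κ) ≤ 64 * d * L * (K1 * L ^ (d - 1) * G ^ d) := by gcongr
              _ = 64 * d * K1 * ((L ^ (d - 1) * L) * G ^ d) := by ring
              _ = _ := by rw [← pow_succ, Nat.sub_add_cancel hd]
          calc (L / τ) ^ (2 * d + 2) ≤ (64 * d * K1 * (L ^ d * G ^ d)) ^ (2 * d + 2) := by gcongr
            _ = (64 * d * K1) ^ (2 * d + 2) * (P * W) := by
                rw [mul_pow (64 * (d : ℝ) * K1), mul_pow (L ^ d), ← pow_mul, ← pow_mul, hGW, hP]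
                congr 3
                ring
        have hb3 : ∑ i ∈ range k0, (volume (Bd i ∩ Q)).toReal ≤
            C0 * ((64 * d * K1) ^ (2 * d + 2) * (P * W)) := by
          refine (hBsum k0).trans ?_
          gcongr
        have hb4 : (k0 : ℝ) * (2 ^ d * (2 * d * s)) ≤ 2 ^ d * (2 * d * 2) * (P * W) := by
          calc (k0 : ℝ) * (2 ^ d * (2 * d * s)) = 2 ^ d * (2 * d) * (k0 * s) := by ring
            _ ≤ 2 ^ d * (2 * d) * (2 * W) := by gcongr
            _ ≤ 2 ^ d * (2 * d) * (2 * (P * W)) := by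
                gcongr
                nlinarith
            _ = _ := by ring
        calc c1 * 4 ^ d + c2 * 2 ^ d *
              (∑ i ∈ range k0, (volume (Bd i ∩ Q)).toReal + k0 * (2 ^ d * (2 * d * s)))
            ≤ (96 * d * K1 * P * W) * 4 ^ d + c2 * 2 ^ d *
              (C0 * ((64 * d * K1) ^ (2 * d + 2) * (P * W)) + 2 ^ d * (2 * d * 2) * (P * W)) := by
              gcongr
          _ = C * P * W := by rw [hC, hc2]; ring

end Pool.Agent.W769.Ent
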