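import Mathlib

set_option autoImplicit false
set_option maxHeartbeats 1000000

open MeasureTheory Set Finset Topology Filter
open scoped ENNReal

namespace Pool.Agent.W769.Ent

variable {d : ℕ}

/-- Jensen's inequality for `x log x` -/
theorem log_sum {ι : Type*} (I : Finset ι) (x : ι → ℝ) (hx : ∀ i ∈ I, 0 ≤ x i) {M : ℝ}
    (hM : (I.card : ℝ) ≤ M) {v0 : ℝ} (hv0 : 0 < v0) :
    (∑ i ∈ I, x i) * Real.log ((∑ i ∈ I, x i) / v0) ≤
      (∑ i ∈ I, x i) * Real.log M + ∑ i ∈ I, x i * Real.log (x i / v0) := by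
  rcases I.eq_empty_or_nonempty with rfl | hI
  · simp
  have hc : 0 < (I.card : ℝ) := by exact_mod_cast hI.card_pos
  set X := ∑ i ∈ I, x i with hX
  have hX0 : 0 ≤ X := Finset.sum_nonneg hx
  rcases hX0.eq_or_lt with h0 | hXp
  · rw [← h0, zero_mul, zero_mul, zero_add]
    have : ∀ i ∈ I, x i = 0 := by
      have h1 := (Finset.sum_eq_zero_iff_of_nonneg hx).1 (hX ▸ h0.symm)
      exact h1
    rw [Finset.sum_eq_zero fun i hi => by rw [this i hi, zero_mul]]
  have hJ := Real.convexOn_mul_log.map_sum_le (t := I) (w := fun _ => 1 / (I.card : ℝ)) (p := x)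
    (fun _ _ => by positivity) (by rw [Finset.sum_const, nsmul_eq_mul]; field_simp)
    (fun i hi => hx i hi)
  simp only [smul_eq_mul] at hJ
  rw [← Finset.mul_sum, ← Finset.mul_sum, ← hX] at hJ
  have h1 : X * Real.log (1 / (I.card : ℝ) * X) ≤ ∑ i ∈ I, x i * Real.log (x i) := by
    have := mul_le_mul_of_nonneg_left hJ hc.le
    calc X * Real.log (1 / (I.card : ℝ) * X) =
          (I.card : ℝ) * (1 / (I.card : ℝ) * X * Real.log (1 / (I.card : ℝ) * X)) := by
          field_simp
      _ ≤ (I.card : ℝ) * (1 / (I.card : ℝ) * ∑ i ∈ I, x i * Real.log (x i)) := this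
      _ = _ := by field_simp
  have h2 : ∑ i ∈ I, x i * Real.log (x i / v0) =
      ∑ i ∈ I, x i * Real.log (x i) - X * Real.log v0 := by
    rw [hX, Finset.sum_mul, ← Finset.sum_sub_distrib]
    refine Finset.sum_congr rfl fun i hi => ?_
    rcases (hx i hi).eq_or_lt with h | h
    · rw [← h]; ring
    · rw [Real.log_div h.ne' hv0.ne']
      ring
  rw [h2, Real.log_div hXp.ne' hv0.ne']
  rw [Real.log_mul (by positivity) hXp.ne', Real.log_div one_ne_zero hc.ne', Real.log_one] at h1
  have h3 : Real.log (I.card : ℝ) ≤ Real.log M := Real.log_le_log hc hM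
  nlinarith

/-- splitting into cubes -/
theorem split_entropy {S : Set (Fin d → ℝ)} (hS : MeasurableSet S) (hfin : volume S ≠ ⊤)
    {s : ℝ} (hs : 0 < s) (x : Fin d → ℤ) (b : ℕ)
    (hx : ∀ w ∈ S, ∀ i, ⌊s * w i⌋ ∈ Finset.Icc (x i - b) (x i + b)) {v0 c : ℝ} (hv0 : 0 < v0)
    (J : Finset ℕ) (Bd : ℕ → Set (Fin d → ℝ)) (hBd : ∀ i, MeasurableSet (Bd i))
    (hT : ∀ T ⊆ S, MeasurableSet T → (∀ w ∈ T, ∀ w' ∈ T, ‖w - w'‖ ≤ 1 / s) →
      volume.real T * Real.log (volume.real T / v0) ≤ c * ∑ i ∈ J, volume.real (T ∩ Bd i)) :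
    volume.real S * Real.log (volume.real S / v0) ≤
      volume.real S * (d * Real.log (2 * b + 1)) + c * ∑ i ∈ J, volume.real (S ∩ Bd i) := by
  classical
  set I : Finset (Fin d → ℤ) := Fintype.piFinset (fun i => Finset.Icc (x i - b) (x i + b)) with hI
  have hcard : (I.card : ℝ) = (2 * b + 1) ^ d := by
    have h1 : I.card = (2 * b + 1) ^ d := by
      rw [hI, Fintype.card_piFinset]
      have : ∀ i : Fin d, (Finset.Icc (x i - b) (x i + b)).card = 2 * b + 1 := by
        intro i
        rw [Int.card_Icc]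
        omega
      rw [Finset.prod_congr rfl fun i _ => this i, Finset.prod_const, Finset.card_univ,
        Fintype.card_fin]
    rw [h1]; push_cast; rfl
  set cell : (Fin d → ℤ) → Set (Fin d → ℝ) := fun z => {w | ∀ i, ⌊s * w i⌋ = z i} with hcell
  have hcm : ∀ z, MeasurableSet (cell z) := by
    intro z
    have : cell z = ⋂ i, {w : Fin d → ℝ | ⌊s * w i⌋ = z i} := by
      ext w; simp [hcell]
    rw [this]
    refine MeasurableSet.iInter fun i => ?_
    exact (Int.measurable_floor.comp (measurable_const.mul (measurable_pi_apply i)))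
      (measurableSet_singleton (z i))
  have hdisj : ∀ T : Set (Fin d → ℝ),
      Set.PairwiseDisjoint (I : Set (Fin d → ℤ)) (fun z => T ∩ cell z) := by
    intro T z _ z' _ hzz
    rw [Function.onFun, Set.disjoint_left]
    rintro w ⟨_, hw⟩ ⟨_, hw'⟩
    apply hzz
    funext i
    rw [← hw i, ← hw' i]
  have hsum : ∀ T : Set (Fin d → ℝ), MeasurableSet T → T ⊆ S →
      volume.real T = ∑ z ∈ I, volume.real (T ∩ cell z) := by
    intro T hTm hTS
    have hU : T = ⋃ z ∈ I, T ∩ cell z := by
      ext w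
      simp only [Set.mem_iUnion]
      constructor
      · intro hw
        exact ⟨fun i => ⌊s * w i⌋, Fintype.mem_piFinset.2 fun i => hx w (hTS hw) i, hw,
          fun i => rfl⟩
      · rintro ⟨z, _, hw, _⟩
        exact hw
    conv_lhs => rw [hU]
    refine measureReal_biUnion_finset (hdisj T) (fun z _ => hTm.inter (hcm z)) fun z _ => ?_
    exact ne_top_of_le_ne_top hfin (measure_mono (Set.inter_subset_left.trans hTS))
  have hpiece : ∀ z ∈ I, volume.real (S ∩ cell z) * Real.log (volume.real (S ∩ cell z) / v0) ≤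
      c * ∑ i ∈ J, volume.real (S ∩ cell z ∩ Bd i) := by
    intro z _
    refine hT _ Set.inter_subset_left (hS.inter (hcm z)) ?_
    rintro w ⟨_, hw⟩ w' ⟨_, hw'⟩
    rw [pi_norm_le_iff_of_nonneg (by positivity)]
    intro i
    rw [Pi.sub_apply, Real.norm_eq_abs, le_div_iff₀ hs]
    have h1 : |s * w i - s * w' i| < 1 := by
      apply Int.abs_sub_lt_one_of_floor_eq_floor
      rw [hw i, hw' i]
    rw [← mul_sub, abs_mul, abs_of_pos hs] at h1
    linarith
  have h1 := log_sum I (fun z => volume.real (S ∩ cell z)) (fun _ _ => measureReal_nonneg)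
    (M := (2 * b + 1) ^ d) hcard.le hv0
  rw [← hsum S hS subset_rfl, Real.log_pow] at h1
  have h2 : ∑ z ∈ I, c * ∑ i ∈ J, volume.real (S ∩ cell z ∩ Bd i) =
      c * ∑ i ∈ J, volume.real (S ∩ Bd i) := by
    rw [← Finset.mul_sum, Finset.sum_comm]
    congr 1
    refine Finset.sum_congr rfl fun i _ => ?_
    rw [hsum (S ∩ Bd i) (hS.inter (hBd i)) Set.inter_subset_left]
    refine Finset.sum_congr rfl fun z _ => ?_
    congr 1
    ext w
    simp only [Set.mem_inter_iff]
    tauto
  have h3 := Finset.sum_le_sum hpiece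
  rw [h2] at h3
  linarith

/-- the induction over the scales -/
theorem count_aux (k0 : ℕ) (Bd : ℕ → Set (Fin d → ℝ)) (hBd : ∀ i, MeasurableSet (Bd i)) :
    ∀ (n j : ℕ), j + n = k0 → ∀ S : Set (Fin d → ℝ), MeasurableSet S →
      (∀ w ∈ S, ∀ w' ∈ S, ‖w - w'‖ ≤ 1 / 2 ^ j) →
      (∀ i < k0, ∀ w ∈ S, ∀ w' ∈ S, 1 / 2 ^ (i + 2) ≤ ‖w - w'‖ → ‖w - w'‖ ≤ 1 / 2 ^ i →
        w ∈ Bd i) →
      volume.real S * Real.log (volume.real S / (2 / 2 ^ k0) ^ d) ≤
        (d * Real.log 5) * ∑ i ∈ Finset.Ico j k0, volume.real (S ∩ Bd i) := by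
  intro n
  induction n with
  | zero =>
    intro j hj S hS hdiam _
    rw [add_zero] at hj
    subst hj
    rw [Finset.Ico_self, Finset.sum_empty, mul_zero]
    rcases S.eq_empty_or_nonempty with rfl | ⟨w0, hw0⟩
    · simp
    have h1 : volume.real S ≤ (2 / 2 ^ j) ^ d := by
      have hsub : S ⊆ Metric.closedBall w0 (1 / 2 ^ j) := by
        intro w hw
        rw [Metric.mem_closedBall, dist_eq_norm]
        exact hdiam w hw w0 hw0
      have h2 : volume.real S ≤ volume.real (Metric.closedBall w0 (1 / 2 ^ j)) :=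
        measureReal_mono hsub (isCompact_closedBall _ _).measure_lt_top.ne
      refine h2.trans (le_of_eq ?_)
      rw [Measure.real, Real.volume_pi_closedBall _ (by positivity), Fintype.card_fin,
        ENNReal.toReal_ofReal (by positivity)]
      congr 1
      ring
    have h3 : Real.log (volume.real S / (2 / 2 ^ j) ^ d) ≤ 0 := by
      apply Real.log_nonpos
      · positivity
      · rw [div_le_one (by positivity)]
        exact h1
    exact mul_nonpos_of_nonneg_of_nonpos measureReal_nonneg h3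
  | succ n ih =>
    intro j hj S hS hdiam hann
    have hjk : j < k0 := by omega
    have hlog5 : 0 ≤ (d : ℝ) * Real.log 5 := by
      have : 0 ≤ Real.log 5 := Real.log_nonneg (by norm_num)
      positivity
    rcases S.eq_empty_or_nonempty with rfl | ⟨w0, hw0⟩
    · simp
    by_cases hA : ∀ w ∈ S, ∀ w' ∈ S, ‖w - w'‖ ≤ 1 / 2 ^ (j + 1)
    · refine (ih (j + 1) (by omega) S hS hA hann).trans ?_
      gcongr
      omega
    · push Not at hA
      obtain ⟨w1, hw1, w2, hw2, h12⟩ := hA
      have hfin : volume S ≠ ⊤ := by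
        have hcb : volume (Metric.closedBall w0 (1 / 2 ^ j : ℝ)) ≠ ⊤ :=
          (isCompact_closedBall _ _).measure_lt_top.ne
        apply ne_top_of_le_ne_top hcb
        apply measure_mono
        intro w hw
        rw [Metric.mem_closedBall, dist_eq_norm]
        exact hdiam w hw w0 hw0
      have hSB : S ∩ Bd j = S := by
        apply Set.inter_eq_left.2
        intro w hw
        have h3 : 1 / 2 ^ (j + 1) ≤ ‖w - w1‖ + ‖w - w2‖ := by
          calc (1 : ℝ) / 2 ^ (j + 1) ≤ ‖w1 - w2‖ := h12.le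
            _ = ‖(w - w2) - (w - w1)‖ := by congr 1; abel
            _ ≤ ‖w - w2‖ + ‖w - w1‖ := norm_sub_le _ _
            _ = _ := add_comm _ _
        have h4 : (1 : ℝ) / 2 ^ (j + 1) = 2 * (1 / 2 ^ (j + 2)) := by
          rw [pow_succ, pow_succ, pow_succ]; field_simp
        rw [h4] at h3
        rcases le_or_gt (1 / 2 ^ (j + 2)) ‖w - w1‖ with h5 | h5
        · exact hann j hjk w hw w1 hw1 h5 (hdiam w hw w1 hw1)
        · exact hann j hjk w hw w2 hw2 (by linarith) (hdiam w hw w2 hw2)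
      have hs : (0 : ℝ) < 2 ^ (j + 1) := by positivity
      have h1 := split_entropy hS hfin hs (fun i => ⌊2 ^ (j + 1) * w0 i⌋) 2 (by
        intro w hw i
        have h2 : |w i - w0 i| ≤ 1 / 2 ^ j := (norm_le_pi_norm (w - w0) i).trans
          (hdiam w hw w0 hw0)
        have h3 : |(2 : ℝ) ^ (j + 1) * w i - 2 ^ (j + 1) * w0 i| ≤ 2 := by
          rw [← mul_sub, abs_mul, abs_of_pos hs]
          calc (2 : ℝ) ^ (j + 1) * |w i - w0 i| ≤ 2 ^ (j + 1) * (1 / 2 ^ j) := by gcongr
            _ = 2 := by rw [pow_succ]; field_simp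
        rw [abs_le] at h3
        rw [Finset.mem_Icc]
        constructor
        · rw [Int.le_floor]
          push_cast
          have := Int.floor_le ((2 : ℝ) ^ (j + 1) * w0 i)
          linarith
        · have : ⌊(2 : ℝ) ^ (j + 1) * w i⌋ < ⌊(2 : ℝ) ^ (j + 1) * w0 i⌋ + 3 := by
            rw [Int.floor_lt]
            push_cast
            have := Int.lt_floor_add_one ((2 : ℝ) ^ (j + 1) * w0 i)
            linarith
          push_cast
          omega) (v0 := (2 / 2 ^ k0) ^ d) (c := d * Real.log 5) (by positivity)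
        (Finset.Ico (j + 1) k0) Bd hBd (by
          intro T hTS hTm hTd
          refine ih (j + 1) (by omega) T hTm hTd ?_
          intro i hi w hw w' hw'
          exact hann i hi w (hTS hw) w' (hTS hw'))
      have h2 : ∑ i ∈ Finset.Ico j k0, volume.real (S ∩ Bd i) =
          volume.real S + ∑ i ∈ Finset.Ico (j + 1) k0, volume.real (S ∩ Bd i) := by
        rw [Finset.sum_eq_sum_Ico_succ_bot hjk, hSB]
      rw [h2]
      have h3 : (2 : ℝ) * ((2 : ℕ) : ℝ) + 1 = 5 := by norm_num
      rw [h3] at h1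
      linarith

/-- **Entropy bound for sets with few occupied scales.** -/
theorem count_entropy (k0 : ℕ) (Bd : ℕ → Set (Fin d → ℝ)) (hBd : ∀ i, MeasurableSet (Bd i))
    {S : Set (Fin d → ℝ)} (hS : MeasurableSet S) (hS1 : S ⊆ Metric.closedBall 0 1)
    (hann : ∀ i < k0, ∀ w ∈ S, ∀ w' ∈ S, 1 / 2 ^ (i + 2) ≤ ‖w - w'‖ → ‖w - w'‖ ≤ 1 / 2 ^ i →
      w ∈ Bd i) :
    volume.real S * Real.log (volume.real S / (2 / 2 ^ k0) ^ d) ≤
      volume.real S * (d * Real.log 3) +
        (d * Real.log 5) * ∑ i ∈ Finset.range k0, volume.real (S ∩ Bd i) := by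
  have hfin : volume S ≠ ⊤ :=
    ne_top_of_le_ne_top (isCompact_closedBall (0 : Fin d → ℝ) 1).measure_lt_top.ne
      (measure_mono hS1)
  have h1 := split_entropy hS hfin one_pos (fun _ => 0) 1 (by
    intro w hw i
    have h2 : |w i| ≤ 1 := by
      have := hS1 hw
      rw [Metric.mem_closedBall, dist_zero_right] at this
      exact (norm_le_pi_norm w i).trans this
    rw [abs_le] at h2
    rw [Finset.mem_Icc, one_mul]
    constructor
    · rw [Int.le_floor]; push_cast; linarith
    · have : ⌊w i⌋ < 2 := by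
        rw [Int.floor_lt]; push_cast; linarith
      push_cast
      omega) (v0 := (2 / 2 ^ k0) ^ d) (c := d * Real.log 5) (by positivity)
    (Finset.Ico 0 k0) Bd hBd (by
      intro T hTS hTm hTd
      refine count_aux k0 Bd hBd k0 0 (by omega) T hTm ?_ ?_
      · intro w hw w' hw'
        rw [pow_zero]
        exact hTd w hw w' hw'
      · intro i hi w hw w' hw'
        exact hann i hi w (hTS hw) w' (hTS hw'))
  have h3 : (2 : ℝ) * ((1 : ℕ) : ℝ) + 1 = 3 := by norm_num
  rw [h3, ← Finset.range_eq_Ico] at h1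
  exact h1

end Pool.Agent.W769.Ent
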