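import Mathlib

set_option autoImplicit false
set_option maxHeartbeats 1000000

open Set Finset MeasureTheory
open scoped ENNReal

namespace Pool.Agent.W769.Ent

variable {d : ℕ}

/-- Cramer's rule -/
theorem cramer_mulVec (B : Matrix (Fin d) (Fin d) ℝ) (u : Fin d → ℝ) (i : Fin d) :
    B.det * u i = (B.updateCol i (B.mulVec u)).det := by
  rw [← Matrix.cramer_apply, Matrix.cramer_eq_adjugate_mulVec, Matrix.mulVec_mulVec,
    Matrix.adjugate_mul, Matrix.smul_mulVec, Matrix.one_mulVec]
  simp

theorem det_updateCol_le (B : Matrix (Fin d) (Fin d) ℝ) {m s : ℝ}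
    (hB : ∀ i k, |B i k| ≤ m) (b : Fin d → ℝ) (hb : ∀ k, |b k| ≤ s) (i : Fin d) :
    |(B.updateCol i b).det| ≤ (d.factorial : ℝ) * (s * m ^ (d - 1)) := by
  have hs0 : 0 ≤ s := (abs_nonneg _).trans (hb i)
  rw [Matrix.det_apply']
  calc |∑ σ : Equiv.Perm (Fin d), ((Equiv.Perm.sign σ : ℤ) : ℝ) *
          ∏ k, (B.updateCol i b) (σ k) k|
      ≤ ∑ σ : Equiv.Perm (Fin d), |((Equiv.Perm.sign σ : ℤ) : ℝ) *
          ∏ k, (B.updateCol i b) (σ k) k| := Finset.abs_sum_le_sum_abs _ _
    _ ≤ ∑ σ : Equiv.Perm (Fin d), s * m ^ (d - 1) := by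
        refine Finset.sum_le_sum fun σ _ => ?_
        rw [abs_mul]
        have hs : |((Equiv.Perm.sign σ : ℤ) : ℝ)| = 1 := by
          rcases Int.units_eq_one_or (Equiv.Perm.sign σ) with h | h <;> simp [h]
        rw [hs, one_mul, Finset.abs_prod, ← Finset.mul_prod_erase _ _ (Finset.mem_univ i)]
        have h1 : |(B.updateCol i b) (σ i) i| ≤ s := by
          rw [Matrix.updateCol_self]
          exact hb _
        have h2 : ∏ k ∈ univ.erase i, |(B.updateCol i b) (σ k) k| ≤ m ^ (d - 1) := by
          calc ∏ k ∈ univ.erase i, |(B.updateCol i b) (σ k) k| ≤ ∏ _k ∈ univ.erase i, m := by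
                refine Finset.prod_le_prod (fun _ _ => abs_nonneg _) fun k hk => ?_
                rw [Matrix.updateCol_ne (Finset.ne_of_mem_erase hk)]
                exact hB _ _
            _ = m ^ (d - 1) := by
                rw [Finset.prod_const, Finset.card_erase_of_mem (Finset.mem_univ i),
                  Finset.card_univ, Fintype.card_fin]
        exact mul_le_mul h1 h2 (Finset.prod_nonneg fun _ _ => abs_nonneg _) hs0
    _ = (d.factorial : ℝ) * (s * m ^ (d - 1)) := by
        rw [Finset.sum_const, Finset.card_univ, Fintype.card_perm, Fintype.card_fin, nsmul_eq_mul]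

/-- lower bound for the smallest singular value -/
theorem det_lower (B : Matrix (Fin d) (Fin d) ℝ) {m : ℝ} (hm : 0 ≤ m) (hB : ∀ i k, |B i k| ≤ m)
    (u : Fin d → ℝ) :
    |B.det| * ‖u‖ ≤ (d.factorial : ℝ) * m ^ (d - 1) * ‖B.mulVec u‖ := by
  have h0 : 0 ≤ (d.factorial : ℝ) * m ^ (d - 1) * ‖B.mulVec u‖ := by positivity
  rw [← Real.norm_eq_abs, ← norm_smul, pi_norm_le_iff_of_nonneg h0]
  intro i
  rw [Pi.smul_apply, smul_eq_mul, cramer_mulVec, Real.norm_eq_abs]
  refine (det_updateCol_le B hB _ (fun k => norm_le_pi_norm (B.mulVec u) k) i).trans (le_of_eq ?_)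
  ring

theorem ms_norm (R : Multiset ℂ) (t : ℂ) :
    ‖(R.map (fun z => t - z)).prod‖ = (R.map (fun z => ‖t - z‖)).prod := by
  induction R using Multiset.induction_on with
  | empty => simp
  | cons z R ih =>
    rw [Multiset.map_cons, Multiset.prod_cons, Multiset.map_cons, Multiset.prod_cons, norm_mul, ih]

theorem ms_lt (g : ℂ → ℝ) {s : ℝ} (hs : 0 ≤ s) (R : Multiset ℂ) (h : ∀ z ∈ R, s < g z) :
    0 < (R.map g).prod ∧ s ^ R.card ≤ (R.map g).prod ∧ (R ≠ 0 → s ^ R.card < (R.map g).prod) := by
  induction R using Multiset.induction_on with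
  | empty => simp
  | cons z R ih =>
    obtain ⟨h1, h2, -⟩ := ih fun y hy => h y (Multiset.mem_cons_of_mem hy)
    have hz := h z (Multiset.mem_cons_self z R)
    rw [Multiset.map_cons, Multiset.prod_cons, Multiset.card_cons, pow_succ]
    have h3 : s ^ R.card * s < g z * (R.map g).prod := by
      calc s ^ R.card * s ≤ (R.map g).prod * s := by gcongr
        _ < (R.map g).prod * g z := by gcongr
        _ = _ := mul_comm _ _
    exact ⟨mul_pos (hs.trans_lt hz) h1, h3.le, fun _ => h3⟩

/-- **Sublevel sets of the determinant along a line.** -/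
theorem sublevel (A : Matrix (Fin d) (Fin d) ℝ) (hd : 1 ≤ d) {s : ℝ} (hs : 0 ≤ s) :
    volume {t : ℝ | |(A + t • (1 : Matrix (Fin d) (Fin d) ℝ)).det| ≤ s ^ d} ≤
      ENNReal.ofReal (2 * d * s) := by
  classical
  set p : Polynomial ℝ := (-A).charpoly with hp
  have heval : ∀ t : ℝ, p.eval t = (A + t • (1 : Matrix (Fin d) (Fin d) ℝ)).det := by
    intro t
    rw [hp, Matrix.eval_charpoly]
    congr 1
    rw [sub_neg_eq_add, add_comm]
    congr 1
    ext i j
    simp [Matrix.scalar_apply, Matrix.diagonal_apply, Matrix.one_apply]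
  have hmon : p.Monic := (-A).charpoly_monic
  have hdeg : p.natDegree = d := by
    rw [hp, Matrix.charpoly_natDegree_eq_dim, Fintype.card_fin]
  set q : Polynomial ℂ := p.map (algebraMap ℝ ℂ) with hq
  have hqm : q.Monic := hmon.map _
  have hsplit : q.Splits := IsAlgClosed.splits q
  have hprod : q = (q.roots.map (fun z => Polynomial.X - Polynomial.C z)).prod :=
    hsplit.eq_prod_roots_of_monic hqm
  have hcard : q.roots.card = d := by
    rw [← hsplit.natDegree_eq_card_roots, hq, Polynomial.natDegree_map, hdeg]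
  have habs : ∀ t : ℝ, |p.eval t| = (q.roots.map (fun z => ‖(t : ℂ) - z‖)).prod := by
    intro t
    have h1 : q.eval (t : ℂ) = ((p.eval t : ℝ) : ℂ) := by
      rw [hq, Polynomial.eval_map_algebraMap]
      exact (Polynomial.aeval_algebraMap_apply_eq_algebraMap_eval t p)
    have h2 : |p.eval t| = ‖q.eval (t : ℂ)‖ := by
      rw [h1, Complex.norm_real, Real.norm_eq_abs]
    rw [h2]
    conv_lhs => rw [hprod]
    rw [Polynomial.eval_multiset_prod, Multiset.map_map]
    have h3 : (Polynomial.eval (t : ℂ) ∘ fun z => Polynomial.X - Polynomial.C z) =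
        fun z => (t : ℂ) - z := by
      funext z
      simp
    rw [h3, ms_norm]
  have hsub : {t : ℝ | |(A + t • (1 : Matrix (Fin d) (Fin d) ℝ)).det| ≤ s ^ d} ⊆
      ⋃ z ∈ q.roots.toFinset, Metric.closedBall z.re s := by
    intro t ht
    rw [Set.mem_ofPred_eq, ← heval, habs] at ht
    by_contra hcon
    simp only [Set.mem_iUnion, not_exists, Metric.mem_closedBall, not_le] at hcon
    have h1 : s ^ d < (q.roots.map (fun z => ‖(t : ℂ) - z‖)).prod := by
      have h2 := ms_lt (fun z => ‖(t : ℂ) - z‖) hs q.roots (fun z hz => by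
        have h3 := hcon z (Multiset.mem_toFinset.2 hz)
        rw [Real.dist_eq] at h3
        have h4 := Complex.abs_re_le_norm ((t : ℂ) - z)
        rw [Complex.sub_re, Complex.ofReal_re] at h4
        exact h3.trans_le h4)
      rw [hcard] at h2
      refine h2.2.2 fun h0 => ?_
      rw [h0, Multiset.card_zero] at hcard
      omega
    linarith
  calc volume {t : ℝ | |(A + t • (1 : Matrix (Fin d) (Fin d) ℝ)).det| ≤ s ^ d}
      ≤ volume (⋃ z ∈ q.roots.toFinset, Metric.closedBall z.re s) := measure_mono hsub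
    _ ≤ ∑ z ∈ q.roots.toFinset, volume (Metric.closedBall z.re s) :=
        measure_biUnion_finset_le _ _
    _ = ∑ _z ∈ q.roots.toFinset, ENNReal.ofReal (2 * s) := by
        refine Finset.sum_congr rfl fun z _ => ?_
        rw [Real.volume_closedBall]
    _ = (q.roots.toFinset.card : ℝ≥0∞) * ENNReal.ofReal (2 * s) := by
        rw [Finset.sum_const, nsmul_eq_mul]
    _ ≤ (d : ℝ≥0∞) * ENNReal.ofReal (2 * s) := by
        gcongr
        rw [← hcard]
        exact Multiset.toFinset_card_le _
    _ = ENNReal.ofReal (2 * d * s) := by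
        rw [← ENNReal.ofReal_natCast d, ← ENNReal.ofReal_mul (by positivity)]
        congr 1
        ring

end Pool.Agent.W769.Ent
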