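import Mathlib

set_option autoImplicit false
set_option maxHeartbeats 1000000

open MeasureTheory Set Finset Topology Filter

namespace Pool.Agent.W769.Ent

variable {d : ℕ}

/-- difference quotient in the direction `u` at scale `c` -/
noncomputable def gq (f : (Fin d → ℝ) → ℝ) (u : Fin d → ℝ) (c : ℝ) (w : Fin d → ℝ) : ℝ :=
  (f (w + c • u) - f w) / c

/-- normalised second difference -/
noncomputable def D2 (f : (Fin d → ℝ) → ℝ) (u : Fin d → ℝ) (c : ℝ) (w : Fin d → ℝ) : ℝ :=
  (f (w + c • u) - 2 * f (w + (c / 2) • u) + f w) * (2 / c)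

theorem gq_cont {f : (Fin d → ℝ) → ℝ} (hf : Continuous f) (u : Fin d → ℝ) (c : ℝ) :
    Continuous (gq f u c) := by
  unfold gq
  fun_prop

theorem D2_cont {f : (Fin d → ℝ) → ℝ} (hf : Continuous f) (u : Fin d → ℝ) (c : ℝ) :
    Continuous (D2 f u c) := by
  unfold D2
  fun_prop

theorem gq_identity (f : (Fin d → ℝ) → ℝ) (u : Fin d → ℝ) {c : ℝ} (hc : 0 < c) (w : Fin d → ℝ) :
    (gq f u c w) ^ 2 + 1 / 4 * (D2 f u c w) ^ 2 =
      ((gq f u (c / 2) w) ^ 2 + (gq f u (c / 2) (w + (c / 2) • u)) ^ 2) / 2 := by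
  have h1 : w + (c / 2) • u + (c / 2) • u = w + c • u := by
    rw [add_assoc, ← add_smul]
    congr 2
    ring
  unfold gq D2
  rw [h1]
  field_simp
  ring

theorem intOn {g : (Fin d → ℝ) → ℝ} (hg : Continuous g) (R : ℝ) :
    IntegrableOn g (Metric.closedBall (0 : Fin d → ℝ) R) :=
  hg.continuousOn.integrableOn_compact (isCompact_closedBall _ _)

theorem shift_le {g : (Fin d → ℝ) → ℝ} (hg : Continuous g) (h0 : ∀ w, 0 ≤ g w) (h : Fin d → ℝ)
    (R : ℝ) : ∫ w in Metric.closedBall (0 : Fin d → ℝ) R, g (w + h) ≤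
      ∫ w in Metric.closedBall (0 : Fin d → ℝ) (R + ‖h‖), g w := by
  have h1 : ∫ w in Metric.closedBall (0 : Fin d → ℝ) R, g (w + h) =
      ∫ w in Metric.closedBall h R, g w := by
    have hmp := measurePreserving_add_right (volume : Measure (Fin d → ℝ)) h
    have he : MeasurableEmbedding (fun w : Fin d → ℝ => w + h) :=
      (Homeomorph.addRight h).measurableEmbedding
    have h2 : (fun w : Fin d → ℝ => w + h) ⁻¹' (Metric.closedBall h R) =
        Metric.closedBall (0 : Fin d → ℝ) R := by
      ext w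
      simp [dist_eq_norm]
    have h3 := hmp.setIntegral_preimage_emb he g (Metric.closedBall h R)
    rw [h2] at h3
    exact h3
  rw [h1]
  have hsub : Metric.closedBall h R ⊆ Metric.closedBall (0 : Fin d → ℝ) (R + ‖h‖) := by
    intro w hw
    rw [Metric.mem_closedBall] at hw ⊢
    calc dist w 0 ≤ dist w h + dist h 0 := dist_triangle _ _ _
      _ ≤ R + ‖h‖ := by
          rw [dist_zero_right h]
          linarith
  exact setIntegral_mono_set (intOn hg _) (Filter.Eventually.of_forall h0) hsub.eventuallyLE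

theorem energy {f : (Fin d → ℝ) → ℝ} (hf : Continuous f) (u : Fin d → ℝ) :
    ∀ (k : ℕ) (c R : ℝ), 0 < c →
      (∫ w in Metric.closedBall (0 : Fin d → ℝ) R, (gq f u c w) ^ 2) +
        1 / 4 * ∑ j ∈ range k, ∫ w in Metric.closedBall (0 : Fin d → ℝ) R,
          (D2 f u (c / 2 ^ j) w) ^ 2 ≤
      ∫ w in Metric.closedBall (0 : Fin d → ℝ) (R + c * ‖u‖), (gq f u (c / 2 ^ k) w) ^ 2 := by
  intro k
  induction k with
  | zero =>
    intro c R hc
    rw [Finset.range_zero, Finset.sum_empty, mul_zero, add_zero, pow_zero, div_one]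
    have hsub : Metric.closedBall (0 : Fin d → ℝ) R ⊆ Metric.closedBall 0 (R + c * ‖u‖) := by
      apply Metric.closedBall_subset_closedBall
      have : 0 ≤ c * ‖u‖ := by positivity
      linarith
    exact setIntegral_mono_set (intOn ((gq_cont hf u c).pow 2) _)
      (Filter.Eventually.of_forall fun w => sq_nonneg _) hsub.eventuallyLE
  | succ k ih =>
    intro c R hc
    have hc2 : 0 < c / 2 := by linarith
    set R' := R + c / 2 * ‖u‖ with hR'
    have hRR' : R ≤ R' := by
      have : 0 ≤ c / 2 * ‖u‖ := by positivity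
      linarith
    have h1 := ih (c / 2) R' hc2
    have h2 : R' + c / 2 * ‖u‖ = R + c * ‖u‖ := by rw [hR']; ring
    have h3 : c / 2 / 2 ^ k = c / 2 ^ (k + 1) := by rw [pow_succ]; field_simp
    rw [h2, h3] at h1
    have hc1 : Continuous (fun w => (gq f u c w) ^ 2) := (gq_cont hf u c).pow 2
    have hcD : Continuous (fun w => (D2 f u c w) ^ 2) := (D2_cont hf u c).pow 2
    have hc3 : Continuous (fun w => (gq f u (c / 2) w) ^ 2) := (gq_cont hf u (c / 2)).pow 2
    have hc4 : Continuous (fun w => (gq f u (c / 2) (w + (c / 2) • u)) ^ 2) :=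
      hc3.comp (continuous_id.add continuous_const)
    -- one step
    have hstep : (∫ w in Metric.closedBall (0 : Fin d → ℝ) R, (gq f u c w) ^ 2) +
        1 / 4 * ∫ w in Metric.closedBall (0 : Fin d → ℝ) R, (D2 f u c w) ^ 2 ≤
        ∫ w in Metric.closedBall (0 : Fin d → ℝ) R', (gq f u (c / 2) w) ^ 2 := by
      have e1 : (∫ w in Metric.closedBall (0 : Fin d → ℝ) R, (gq f u c w) ^ 2) +
          1 / 4 * ∫ w in Metric.closedBall (0 : Fin d → ℝ) R, (D2 f u c w) ^ 2 =
          ((∫ w in Metric.closedBall (0 : Fin d → ℝ) R, (gq f u (c / 2) w) ^ 2) +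
            ∫ w in Metric.closedBall (0 : Fin d → ℝ) R,
              (gq f u (c / 2) (w + (c / 2) • u)) ^ 2) / 2 := by
        rw [← integral_const_mul, ← integral_add (intOn hc1 R) ((intOn hcD R).const_mul _),
          ← integral_add (intOn hc3 R) (intOn hc4 R), ← integral_div]
        refine setIntegral_congr_fun Metric.isClosed_closedBall.measurableSet fun w _ => ?_
        exact gq_identity f u hc w
      rw [e1]
      have e2 : ∫ w in Metric.closedBall (0 : Fin d → ℝ) R, (gq f u (c / 2) w) ^ 2 ≤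
          ∫ w in Metric.closedBall (0 : Fin d → ℝ) R', (gq f u (c / 2) w) ^ 2 := by
        exact setIntegral_mono_set (intOn hc3 _)
          (Filter.Eventually.of_forall fun w => sq_nonneg _)
          (Metric.closedBall_subset_closedBall hRR').eventuallyLE
      have e3 : ∫ w in Metric.closedBall (0 : Fin d → ℝ) R,
              (gq f u (c / 2) (w + (c / 2) • u)) ^ 2 ≤
          ∫ w in Metric.closedBall (0 : Fin d → ℝ) R', (gq f u (c / 2) w) ^ 2 := by
        have := shift_le hc3 (fun w => sq_nonneg _) ((c / 2) • u) R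
        rw [norm_smul, Real.norm_eq_abs, abs_of_pos hc2] at this
        exact this
      linarith
    have hsum : ∑ j ∈ range (k + 1), ∫ w in Metric.closedBall (0 : Fin d → ℝ) R,
          (D2 f u (c / 2 ^ j) w) ^ 2 ≤
        (∑ j ∈ range k, ∫ w in Metric.closedBall (0 : Fin d → ℝ) R',
          (D2 f u (c / 2 / 2 ^ j) w) ^ 2) +
          ∫ w in Metric.closedBall (0 : Fin d → ℝ) R, (D2 f u c w) ^ 2 := by
      rw [Finset.sum_range_succ']
      rw [pow_zero, div_one]
      gcongr with j hj
      have e4 : c / 2 / 2 ^ j = c / 2 ^ (j + 1) := by rw [pow_succ]; field_simp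
      rw [e4]
      exact setIntegral_mono_set (intOn ((D2_cont hf u _).pow 2) _)
        (Filter.Eventually.of_forall fun w => sq_nonneg _)
        (Metric.closedBall_subset_closedBall hRR').eventuallyLE
    linarith

/-- **Square function estimate for second differences of Lipschitz functions.** -/
theorem energy_lip {f : (Fin d → ℝ) → ℝ} {L : ℝ} (hL : 0 ≤ L)
    (hf : ∀ v w, |f v - f w| ≤ L * ‖v - w‖) (u : Fin d → ℝ) (k : ℕ) {c R : ℝ} (hc : 0 < c)
    (hR : 0 ≤ R) :
    ∑ j ∈ range k, ∫ w in Metric.closedBall (0 : Fin d → ℝ) R, (D2 f u (c / 2 ^ j) w) ^ 2 ≤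
      4 * (L * ‖u‖) ^ 2 * (2 * (R + c * ‖u‖)) ^ d := by
  have hfc : Continuous f := by
    have : LipschitzWith (Real.toNNReal L) f := by
      apply LipschitzWith.of_dist_le_mul
      intro v w
      rw [Real.dist_eq, dist_eq_norm, Real.coe_toNNReal _ hL]
      exact hf v w
    exact this.continuous
  have h1 := energy hfc u k c R hc
  have h2 : 0 ≤ ∫ w in Metric.closedBall (0 : Fin d → ℝ) R, (gq f u c w) ^ 2 :=
    setIntegral_nonneg Metric.isClosed_closedBall.measurableSet fun w _ => sq_nonneg _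
  have hRc : 0 ≤ R + c * ‖u‖ := by positivity
  have h3 : ∫ w in Metric.closedBall (0 : Fin d → ℝ) (R + c * ‖u‖), (gq f u (c / 2 ^ k) w) ^ 2 ≤
      (L * ‖u‖) ^ 2 * (2 * (R + c * ‖u‖)) ^ d := by
    have hck : 0 < c / 2 ^ k := by positivity
    calc ∫ w in Metric.closedBall (0 : Fin d → ℝ) (R + c * ‖u‖), (gq f u (c / 2 ^ k) w) ^ 2
        ≤ ∫ _w in Metric.closedBall (0 : Fin d → ℝ) (R + c * ‖u‖), (L * ‖u‖) ^ 2 := by
          apply setIntegral_mono_on (intOn ((gq_cont hfc u _).pow 2) _)
            (intOn continuous_const _) Metric.isClosed_closedBall.measurableSet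
          intro w _
          apply sq_le_sq.2
          rw [abs_of_nonneg (show 0 ≤ L * ‖u‖ by positivity)]
          unfold gq
          rw [abs_div, abs_of_pos hck, div_le_iff₀ hck]
          refine (hf _ _).trans ?_
          rw [add_sub_cancel_left, norm_smul, Real.norm_eq_abs, abs_of_pos hck]
          nlinarith
      _ = (L * ‖u‖) ^ 2 * (2 * (R + c * ‖u‖)) ^ d := by
          rw [setIntegral_const, smul_eq_mul, Measure.real, Real.volume_pi_closedBall _ hRc,
            Fintype.card_fin, ENNReal.toReal_ofReal (by positivity), mul_comm]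
  linarith

end Pool.Agent.W769.Ent
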