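import Pool.Agent.W769.Ent.Level
import Pool.Agent.W769.Iso.Tubes

set_option autoImplicit false
set_option maxHeartbeats 1000000

open MeasureTheory Set Finset Topology Filter
open scoped ENNReal

namespace Pool.Agent.W769.Ent

open Pool.Agent.W769.Iso Pool.Agent.W769.Kak

variable {d : ℕ}

/-- the entropy function -/
noncomputable def Ph (x : ℝ) : ℝ := x * (1 + Real.posLog x)

theorem Ph_nonneg {x : ℝ} (hx : 0 ≤ x) : 0 ≤ Ph x := by
  unfold Ph
  have := Real.posLog_nonneg (x := x)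
  positivity

theorem Ph_mono {x y : ℝ} (hx : 0 ≤ x) (hxy : x ≤ y) : Ph x ≤ Ph y := by
  have _ := hx
  unfold Ph
  have h1 := Real.posLog_nonneg (x := x)
  have h2 : Real.posLog x ≤ Real.posLog y := Real.posLog_le_posLog hx hxy
  have h3 : 0 ≤ y := hx.trans hxy
  nlinarith

theorem posLog_mul_le {M x : ℝ} (hM : 1 ≤ M) :
    Real.posLog (M * x) ≤ Real.log M + Real.posLog x := by
  refine Real.posLog_mul.trans ?_
  rw [Real.posLog_eq_log (x := M) (by rw [abs_of_pos (by linarith)]; exact hM)]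

theorem Ph_mul_le {M x : ℝ} (hM : 1 ≤ M) (hx : 0 ≤ x) : Ph (M * x) ≤ M ^ 2 * Ph x := by
  unfold Ph
  have h1 := posLog_mul_le (x := x) hM
  have h2 := Real.posLog_nonneg (x := x)
  have h3 : Real.log M ≤ M - 1 := Real.log_le_sub_one_of_pos (by linarith)
  have h4 : 1 + Real.posLog (M * x) ≤ M * (1 + Real.posLog x) := by nlinarith
  calc M * x * (1 + Real.posLog (M * x)) ≤ M * x * (M * (1 + Real.posLog x)) := by
        gcongr
    _ = M ^ 2 * (x * (1 + Real.posLog x)) := by ring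

/-- several summands -/
theorem Ph_sum_le {ι : Type*} (I : Finset ι) (x : ι → ℝ) (hx : ∀ i ∈ I, 0 ≤ x i) {M : ℝ}
    (hM : (I.card : ℝ) ≤ M) (hM1 : 1 ≤ M) :
    Ph (∑ i ∈ I, x i) ≤ M ^ 2 * ∑ i ∈ I, Ph (x i) := by
  rcases I.eq_empty_or_nonempty with rfl | hI
  · simp [Ph]
  obtain ⟨m, hm, hmax⟩ := I.exists_max_image x hI
  have hxm := hx m hm
  have h1 : ∑ i ∈ I, x i ≤ M * x m := by
    calc ∑ i ∈ I, x i ≤ ∑ _i ∈ I, x m := Finset.sum_le_sum fun i hi => hmax i hi
      _ = (I.card : ℝ) * x m := by rw [Finset.sum_const, nsmul_eq_mul]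
      _ ≤ M * x m := by gcongr
  calc Ph (∑ i ∈ I, x i) ≤ Ph (M * x m) := Ph_mono (Finset.sum_nonneg hx) h1
    _ ≤ M ^ 2 * Ph (x m) := Ph_mul_le hM1 hxm
    _ ≤ M ^ 2 * ∑ i ∈ I, Ph (x i) := by
        gcongr
        exact Finset.single_le_sum (f := fun i => Ph (x i)) (fun i hi => Ph_nonneg (hx i hi)) hm

theorem entropy_all (hd : 1 ≤ d) : ∃ C : ℝ, 0 < C ∧ ∀ (L δ : ℝ)
    (a : (Fin d → ℝ) → Fin d → ℝ), 1 ≤ L → 0 < δ →
    (∀ v w, ‖a v - a w‖ ≤ L * ‖v - w‖) →
    ∫⁻ t in Icc (0 : ℝ) 1, ∫⁻ y, ENNReal.ofReal (Ph (Nm a δ t y)) ≤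
      ENNReal.ofReal (C * L ^ (2 * d * (d + 1)) *
        (1 + Real.posLog (1 / δ)) ^ (1 - 1 / (2 * (d : ℝ) ^ 2 + 2 * d + 1))) := by
  obtain ⟨C1, hC1, hcore⟩ := entropy_core hd
  refine ⟨C1 + 4 ^ d * (1 + d), by positivity, ?_⟩
  intro L δ a hL hδ ha
  have hL0 : 0 < L := by linarith
  have hac : Continuous a := Lip_cont hL0.le ha
  set e : ℝ := 1 / (2 * (d : ℝ) ^ 2 + 2 * d + 1) with he
  have he1 : e ≤ 1 := by
    rw [he, div_le_one (by positivity)]
    nlinarith [show (0 : ℝ) ≤ d by positivity]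
  have hpl : 0 ≤ Real.posLog (1 / δ) := Real.posLog_nonneg
  set Y : ℝ := L ^ (2 * d * (d + 1)) * (1 + Real.posLog (1 / δ)) ^ (1 - e) with hY
  have hY1 : 1 ≤ Y := by
    have h1 : (1 : ℝ) ≤ L ^ (2 * d * (d + 1)) := one_le_pow₀ hL
    have h2 : 1 ≤ (1 + Real.posLog (1 / δ)) ^ (1 - e) :=
      Real.one_le_rpow (by linarith) (by linarith)
    nlinarith
  have hNn : ∀ t y, 0 ≤ Nm a δ t y := fun t y => by unfold Nm; positivity
  -- the mass
  have hmass : ∀ t : ℝ, Measurable (fun y => ENNReal.ofReal (Nm a δ t y)) ∧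
      ∫⁻ y, ENNReal.ofReal (Nm a δ t y) = ENNReal.ofReal (4 ^ d) := by
    intro t
    have h1 := tonelli hac hδ.le t MeasurableSet.univ
    have h2 : ∀ y, ENNReal.ofReal (Nm a δ t y) =
        ENNReal.ofReal ((δ ^ d)⁻¹) * volume (St a δ t y ∩ univ) := by
      intro y
      rw [Set.inter_univ, St_eq hδ, ← mul_assoc, ← ENNReal.ofReal_mul (by positivity),
        inv_mul_cancel₀ (by positivity), ENNReal.ofReal_one, one_mul]
    simp_rw [h2]
    refine ⟨h1.1.const_mul _, ?_⟩
    rw [lintegral_const_mul _ h1.1, h1.2, Set.inter_univ, Real.volume_pi_closedBall _ zero_le_one,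
      Fintype.card_fin, mul_one, ← ENNReal.ofReal_mul (by positivity),
      ← ENNReal.ofReal_mul (by positivity)]
    congr 1
    rw [mul_pow]
    have : (4 : ℝ) ^ d = 2 ^ d * 2 ^ d := by rw [← mul_pow]; norm_num
    rw [this]
    field_simp
  have hI : volume (Icc (0 : ℝ) 1) = 1 := by rw [Real.volume_Icc]; norm_num
  have hmass2 : ∫⁻ t in Icc (0 : ℝ) 1, ∫⁻ y, ENNReal.ofReal (Nm a δ t y) =
      ENNReal.ofReal (4 ^ d) := by
    rw [lintegral_congr fun t => (hmass t).2, setLIntegral_const, hI, mul_one]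
  rcases le_or_gt δ 1 with hδ1 | hδ1
  · have h1 := hcore L δ a hL hδ hδ1 ha
    have hpe : Real.posLog (1 / δ) = Real.log (1 / δ) := by
      apply Real.posLog_eq_log
      rw [abs_of_pos (by positivity), le_div_iff₀ hδ]
      linarith
    have h2 : ∀ t y, ENNReal.ofReal (Ph (Nm a δ t y)) = ENNReal.ofReal (Nm a δ t y) +
        ENNReal.ofReal (Nm a δ t y * Real.posLog (Nm a δ t y)) := by
      intro t y
      rw [← ENNReal.ofReal_add (hNn t y) (mul_nonneg (hNn t y) Real.posLog_nonneg)]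
      congr 1
      unfold Ph
      ring
    have h3 : ∫⁻ t in Icc (0 : ℝ) 1, ∫⁻ y, ENNReal.ofReal (Ph (Nm a δ t y)) =
        (∫⁻ t in Icc (0 : ℝ) 1, ∫⁻ y, ENNReal.ofReal (Nm a δ t y)) +
        ∫⁻ t in Icc (0 : ℝ) 1, ∫⁻ y,
          ENNReal.ofReal (Nm a δ t y * Real.posLog (Nm a δ t y)) := by
      calc ∫⁻ t in Icc (0 : ℝ) 1, ∫⁻ y, ENNReal.ofReal (Ph (Nm a δ t y))
          = ∫⁻ t in Icc (0 : ℝ) 1, (ENNReal.ofReal (4 ^ d) +
            ∫⁻ y, ENNReal.ofReal (Nm a δ t y * Real.posLog (Nm a δ t y))) := by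
            refine lintegral_congr fun t => ?_
            rw [lintegral_congr (h2 t), lintegral_add_left (hmass t).1, (hmass t).2]
        _ = _ := by
            rw [lintegral_add_left measurable_const, setLIntegral_const, hI, mul_one, hmass2]
    rw [h3, hmass2]
    refine (add_le_add le_rfl h1).trans ?_
    rw [← ENNReal.ofReal_add (by positivity) (by
      have : 0 ≤ Real.log (1 / δ) := by rw [← hpe]; exact hpl
      positivity)]
    apply ENNReal.ofReal_le_ofReal
    rw [← hpe]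
    have e1 : C1 * L ^ (2 * d * (d + 1)) * (1 + Real.posLog (1 / δ)) ^ (1 - e) = C1 * Y := by
      rw [hY]; ring
    have e2 : (C1 + 4 ^ d * (1 + d)) * L ^ (2 * d * (d + 1)) *
        (1 + Real.posLog (1 / δ)) ^ (1 - e) = (C1 + 4 ^ d * (1 + d)) * Y := by
      rw [hY]; ring
    rw [e1, e2]
    have h4 : (0 : ℝ) < 4 ^ d := by positivity
    have h5 : (4 : ℝ) ^ d ≤ 4 ^ d * (1 + d) := by
      have : (0 : ℝ) ≤ 4 ^ d * d := by positivity
      linarith
    nlinarith
  · -- large δ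
    have hNle : ∀ t y, Nm a δ t y ≤ 2 ^ d := by
      intro t y
      unfold Nm
      rw [div_le_iff₀ (by positivity)]
      have h1 : volume.real (St a δ t y) ≤ volume.real (Metric.closedBall (0 : Fin d → ℝ) 1) :=
        measureReal_mono (fun w hw => hw.1) (isCompact_closedBall _ _).measure_lt_top.ne
      have h2 : volume.real (Metric.closedBall (0 : Fin d → ℝ) 1) = 2 ^ d := by
        rw [Measure.real, Real.volume_pi_closedBall _ zero_le_one, Fintype.card_fin,
          ENNReal.toReal_ofReal (by positivity), mul_one]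
      have h3 : (1 : ℝ) ≤ δ ^ d := one_le_pow₀ hδ1.le
      rw [h2] at h1
      nlinarith [show (0 : ℝ) < 2 ^ d by positivity]
    have h2 : ∀ t y, ENNReal.ofReal (Ph (Nm a δ t y)) ≤
        ENNReal.ofReal (1 + d) * ENNReal.ofReal (Nm a δ t y) := by
      intro t y
      rw [← ENNReal.ofReal_mul (by positivity)]
      apply ENNReal.ofReal_le_ofReal
      unfold Ph
      rw [mul_comm]
      apply mul_le_mul_of_nonneg_right _ (hNn t y)
      have h3 : Real.posLog (Nm a δ t y) ≤ Real.posLog (2 ^ d) :=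
        Real.posLog_le_posLog (hNn t y) (hNle t y)
      have h4 : Real.posLog ((2 : ℝ) ^ d) = d * Real.log 2 := by
        rw [Real.posLog_eq_log, Real.log_pow]
        rw [abs_of_pos (by positivity)]
        exact one_le_pow₀ (by norm_num)
      have h5 : Real.log 2 ≤ 1 := by
        have := Real.log_two_lt_d9
        linarith
      have h6 : (d : ℝ) * Real.log 2 ≤ d * 1 := by gcongr
      linarith
    calc ∫⁻ t in Icc (0 : ℝ) 1, ∫⁻ y, ENNReal.ofReal (Ph (Nm a δ t y))
        ≤ ∫⁻ t in Icc (0 : ℝ) 1, ∫⁻ y,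
            ENNReal.ofReal (1 + d) * ENNReal.ofReal (Nm a δ t y) :=
          lintegral_mono fun t => lintegral_mono fun y => h2 t y
      _ = ENNReal.ofReal (1 + d) * ENNReal.ofReal (4 ^ d) := by
          rw [← hmass2, ← lintegral_const_mul' _ _ ENNReal.ofReal_ne_top]
          refine lintegral_congr fun t => ?_
          exact lintegral_const_mul' _ _ ENNReal.ofReal_ne_top
      _ = ENNReal.ofReal ((1 + d) * 4 ^ d) := by rw [← ENNReal.ofReal_mul (by positivity)]
      _ ≤ _ := by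
          apply ENNReal.ofReal_le_ofReal
          have e2 : (C1 + 4 ^ d * (1 + d)) * L ^ (2 * d * (d + 1)) *
            (1 + Real.posLog (1 / δ)) ^ (1 - e) = (C1 + 4 ^ d * (1 + d)) * Y := by
            rw [hY]; ring
          rw [e2]
          have h4 : (0 : ℝ) < 4 ^ d * (1 + d) := by positivity
          nlinarith

/-- the number of the lines of a finite family that pass near `y` at height `t` -/
noncomputable def Ng {ι : Type} [Fintype ι] (v q : ι → Fin d → ℝ) (δ t : ℝ) (y : Fin d → ℝ) : ℝ :=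
  ∑ i, {y : Fin d → ℝ | ‖q i + t • v i - y‖ ≤ 2 * δ}.indicator (fun _ => (1 : ℝ)) y

theorem Ng_nonneg {ι : Type} [Fintype ι] (v q : ι → Fin d → ℝ) (δ t : ℝ) (y : Fin d → ℝ) :
    0 ≤ Ng v q δ t y :=
  Finset.sum_nonneg fun _ _ => Set.indicator_nonneg (fun _ _ => zero_le_one) _

/-- **Discrete families.** -/
theorem graph_disc (hd : 1 ≤ d) : ∃ C : ℝ, 0 < C ∧ ∀ (ι : Type) [Fintype ι]
    (v q : ι → Fin d → ℝ) (L δ : ℝ), 0 ≤ L → 0 < δ → δ ≤ 1 → (∀ i, ‖v i‖ ≤ 1 / 2) →
    (∀ i j, i ≠ j → δ ≤ 2 * d * ‖v i - v j‖) →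
    (∀ i j, ‖q i - q j‖ ≤ L * ‖v i - v j‖) →
    ∫⁻ t in Icc (0 : ℝ) 1, ∫⁻ y, ENNReal.ofReal (Ph (Ng v q δ t y)) ≤
      ENNReal.ofReal (C * (1 + L) ^ (2 * d * (d + 2)) *
        (1 + Real.log (1 / δ)) ^ (1 - 1 / (2 * (d : ℝ) ^ 2 + 2 * d + 1))) := by
  classical
  obtain ⟨C1, hC1, hall⟩ := entropy_all hd
  have hd0 : (0 : ℝ) < d := by exact_mod_cast (show 0 < d by omega)
  have hd1 : (1 : ℝ) ≤ d := by exact_mod_cast hd
  refine ⟨((6 * d) ^ d) ^ 2 * C1, by positivity, ?_⟩
  intro ι _ v q L δ hL hδ hδ1 hv hsep hlip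
  rcases isEmpty_or_nonempty ι with hι | hι
  · have h0 : ∀ t y, Ng v q δ t y = 0 := fun t y => by simp [Ng]
    have h1 : ∀ t y, ENNReal.ofReal (Ph (Ng v q δ t y)) = 0 := fun t y => by
      rw [h0, Ph]; simp
    simp_rw [h1]
    simp
  set e : ℝ := 1 / (2 * (d : ℝ) ^ 2 + 2 * d + 1) with he
  have he1 : e ≤ 1 := by
    rw [he, div_le_one (by positivity)]
    nlinarith
  have hlogδ : 0 ≤ Real.log (1 / δ) := Real.log_nonneg (by rw [le_div_iff₀ hδ]; linarith)
  -- extension
  have hext : ∀ k : Fin d, ∃ b : (Fin d → ℝ) → ℝ, (∀ x y, |b x - b y| ≤ L * ‖x - y‖) ∧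
      ∀ i, |b (v i) - q i k| ≤ L * 0 := by
    intro k
    apply mcshane v (fun i => q i k) hL
    intro i j
    rw [add_zero]
    exact (norm_le_pi_norm (q i - q j) k).trans (hlip i j)
  choose b hb1 hb2 using hext
  set B : (Fin d → ℝ) → Fin d → ℝ := fun x k => b k x with hB
  have hBL : ∀ x y, ‖B x - B y‖ ≤ (1 + L) * ‖x - y‖ := by
    intro x y
    rw [pi_norm_le_iff_of_nonneg (by positivity)]
    intro k
    refine (hb1 k x y).trans ?_
    have := norm_nonneg (x - y)
    nlinarith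
  have hBq : ∀ i, B (v i) = q i := by
    intro i
    funext k
    have := hb2 k i
    rw [mul_zero] at this
    have h1 := le_antisymm this (abs_nonneg _)
    rw [abs_eq_zero, sub_eq_zero] at h1
    exact h1
  set δ' : ℝ := (L + 3) * δ with hδ'
  have hδ'0 : 0 < δ' := by positivity
  set M : ℝ := (2 * d * (L + 3)) ^ d with hM
  have hM1 : 1 ≤ M := by
    apply one_le_pow₀
    nlinarith
  set ρ : ℝ := δ / (4 * d) with hρ
  have hρ0 : 0 < ρ := by positivity
  have hρ1 : ρ ≤ 1 / 4 := by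
    rw [hρ, div_le_iff₀ (by positivity)]
    linarith
  have hρδ : ρ ≤ δ := by
    rw [hρ, div_le_iff₀ (by positivity)]
    nlinarith
  -- comparison of the multiplicities
  have hcomp : ∀ t ∈ Icc (0 : ℝ) 1, ∀ y, Ng v q δ t y ≤ M * Nm B δ' t y := by
    intro t ht y
    set I : Finset ι := Finset.univ.filter (fun i => ‖q i + t • v i - y‖ ≤ 2 * δ) with hI
    have hNI : Ng v q δ t y = I.card := by
      unfold Ng
      rw [hI, Finset.card_filter]
      push_cast
      refine Finset.sum_congr rfl fun i _ => ?_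
      rw [Set.indicator_apply]
      rfl
    have hsub : (⋃ i ∈ I, Metric.ball (v i) ρ) ⊆ St B δ' t y := by
      intro w hw
      simp only [Set.mem_iUnion] at hw
      obtain ⟨i, hi, hwi⟩ := hw
      rw [hI, Finset.mem_filter] at hi
      rw [Metric.mem_ball, dist_eq_norm] at hwi
      constructor
      · rw [Metric.mem_closedBall, dist_zero_right]
        calc ‖w‖ = ‖(w - v i) + v i‖ := by congr 1; abel
          _ ≤ ‖w - v i‖ + ‖v i‖ := norm_add_le _ _
          _ ≤ 1 := by linarith [hv i]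
      · have h1 : B w + t • w - y = (B w - B (v i)) + t • (w - v i) + (q i + t • v i - y) := by
          rw [hBq, smul_sub]; abel
        rw [h1]
        have h2 := hBL w (v i)
        have h3 : ‖t • (w - v i)‖ ≤ ‖w - v i‖ := by
          rw [norm_smul, Real.norm_of_nonneg ht.1]
          have := norm_nonneg (w - v i)
          nlinarith [ht.2]
        have h5 : ‖(B w - B (v i)) + t • (w - v i) + (q i + t • v i - y)‖ ≤
            ‖B w - B (v i)‖ + ‖t • (w - v i)‖ + ‖q i + t • v i - y‖ := norm_add₃_le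
        have h6 : ‖w - v i‖ ≤ ρ := hwi.le
        have h7 : (1 + L) * ‖w - v i‖ ≤ (1 + L) * ρ := by gcongr
        -- 2δ + (L+2) ρ ≤ (L+3) δ
        have h8 : ρ ≤ δ / 4 := by
          rw [hρ]
          apply div_le_div_of_nonneg_left hδ.le (by norm_num)
          linarith
        have h9 : (L + 2) * ρ ≤ (L + 2) * (δ / 4) := by gcongr
        have h10 : (L + 2) * (δ / 4) ≤ (L + 1) * δ := by nlinarith
        have h11 : δ' = (L + 1) * δ + 2 * δ := by rw [hδ']; ring
        rw [h11]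
        nlinarith [hi.2]
    have hdisj : Set.PairwiseDisjoint (I : Set ι) (fun i => Metric.ball (v i) ρ) := by
      intro i _ j _ hij
      apply Metric.ball_disjoint_ball
      rw [dist_eq_norm]
      have h1 := hsep i j hij
      have h2 : ρ + ρ = δ / (2 * d) := by rw [hρ]; field_simp; norm_num
      rw [h2, div_le_iff₀ (by positivity)]
      linarith
    have hfin : volume (St B δ' t y) ≠ ⊤ :=
      ne_top_of_le_ne_top (isCompact_closedBall (0 : Fin d → ℝ) 1).measure_lt_top.ne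
        (measure_mono fun w hw => hw.1)
    have hvol : (I.card : ℝ) * (2 * ρ) ^ d ≤ volume.real (St B δ' t y) := by
      have h1 := measureReal_mono (μ := volume) hsub hfin
      rw [measureReal_biUnion_finset hdisj (fun _ _ => Metric.isOpen_ball.measurableSet)
        (fun i _ => measure_ball_lt_top.ne)] at h1
      have h2 : ∀ i ∈ I, volume.real (Metric.ball (v i) ρ) = (2 * ρ) ^ d := by
        intro i _
        rw [Measure.real, Real.volume_pi_ball _ hρ0, Fintype.card_fin,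
          ENNReal.toReal_ofReal (by positivity)]
      rw [Finset.sum_congr rfl h2, Finset.sum_const, nsmul_eq_mul] at h1
      exact h1
    rw [hNI]
    unfold Nm
    rw [← mul_div_assoc, le_div_iff₀ (by positivity)]
    have h3 : δ' ^ d = M * (2 * ρ) ^ d := by
      rw [hM, ← mul_pow, hδ', hρ]
      congr 1
      field_simp
      norm_num
    rw [h3]
    calc (I.card : ℝ) * (M * (2 * ρ) ^ d) = M * ((I.card : ℝ) * (2 * ρ) ^ d) := by ring
      _ ≤ M * volume.real (St B δ' t y) := by gcongr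
  have h1 := hall (1 + L) δ' B (by linarith) hδ'0 hBL
  calc ∫⁻ t in Icc (0 : ℝ) 1, ∫⁻ y, ENNReal.ofReal (Ph (Ng v q δ t y))
      ≤ ∫⁻ t in Icc (0 : ℝ) 1, ENNReal.ofReal (M ^ 2) *
          ∫⁻ y, ENNReal.ofReal (Ph (Nm B δ' t y)) := by
        refine setLIntegral_mono' measurableSet_Icc fun t ht => ?_
        rw [← lintegral_const_mul' _ _ ENNReal.ofReal_ne_top]
        refine lintegral_mono fun y => ?_
        rw [← ENNReal.ofReal_mul (by positivity)]
        apply ENNReal.ofReal_le_ofReal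
        have hN0 : 0 ≤ Nm B δ' t y := by unfold Nm; positivity
        exact (Ph_mono (Ng_nonneg v q δ t y) (hcomp t ht y)).trans (Ph_mul_le hM1 hN0)
    _ = ENNReal.ofReal (M ^ 2) * ∫⁻ t in Icc (0 : ℝ) 1,
          ∫⁻ y, ENNReal.ofReal (Ph (Nm B δ' t y)) :=
        lintegral_const_mul' _ _ ENNReal.ofReal_ne_top
    _ ≤ ENNReal.ofReal (M ^ 2) * ENNReal.ofReal (C1 * (1 + L) ^ (2 * d * (d + 1)) *
          (1 + Real.posLog (1 / δ')) ^ (1 - e)) := by gcongr
    _ ≤ _ := by
        rw [← ENNReal.ofReal_mul (by positivity)]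
        apply ENNReal.ofReal_le_ofReal
        have hM2 : M ^ 2 ≤ ((6 * d) ^ d) ^ 2 * (1 + L) ^ (2 * d) := by
          have h2 : M ≤ (6 * d) ^ d * (1 + L) ^ d := by
            rw [hM, ← mul_pow]
            apply pow_le_pow_left₀ (by positivity)
            nlinarith
          calc M ^ 2 ≤ ((6 * d) ^ d * (1 + L) ^ d) ^ 2 := by gcongr
            _ = _ := by
                rw [mul_pow, ← pow_mul (1 + L), mul_comm d 2]
        have hlog : Real.posLog (1 / δ') ≤ Real.log (1 / δ) := by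
          rw [← Real.posLog_eq_log (x := 1 / δ) (by
            rw [abs_of_pos (by positivity), le_div_iff₀ hδ]; linarith)]
          apply Real.posLog_le_posLog (by positivity)
          apply div_le_div_of_nonneg_left zero_le_one hδ
          rw [hδ']
          nlinarith
        have hpl : 0 ≤ Real.posLog (1 / δ') := Real.posLog_nonneg
        have hrp : (1 + Real.posLog (1 / δ')) ^ (1 - e) ≤ (1 + Real.log (1 / δ)) ^ (1 - e) := by
          apply Real.rpow_le_rpow (by positivity) (by linarith) (by linarith)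
        calc M ^ 2 * (C1 * (1 + L) ^ (2 * d * (d + 1)) * (1 + Real.posLog (1 / δ')) ^ (1 - e))
            ≤ (((6 * d) ^ d) ^ 2 * (1 + L) ^ (2 * d)) *
              (C1 * (1 + L) ^ (2 * d * (d + 1)) * (1 + Real.log (1 / δ)) ^ (1 - e)) := by gcongr
          _ = ((6 * d) ^ d) ^ 2 * C1 * ((1 + L) ^ (2 * d) * (1 + L) ^ (2 * d * (d + 1))) *
              (1 + Real.log (1 / δ)) ^ (1 - e) := by ring
          _ = _ := by
              rw [← pow_add]
              have : 2 * d + 2 * d * (d + 1) = 2 * d * (d + 2) := by ring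
              rw [this]

end Pool.Agent.W769.Ent
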