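import Mathlib

set_option autoImplicit false
set_option maxHeartbeats 1000000

open Set Finset

namespace Pool.Agent.W769.Ent

variable {d : ℕ}

/-- approximately additive functions of one variable -/
theorem line_add {ψ : ℝ → ℝ} {τ B : ℝ} (hB : ∀ s ∈ Icc (0 : ℝ) 1, |ψ s| ≤ B)
    (h1 : ψ 1 = 0) (h0 : ψ 0 = 0)
    (hadd : ∀ x y : ℝ, |x| ≤ 2 → |y| ≤ 2 → |x + y| ≤ 2 → |ψ (x + y) - ψ x - ψ y| ≤ 2 * τ) :
    ∀ s : ℝ, |s| ≤ 1 → |ψ s| ≤ 6 * τ := by
  have hτ : 0 ≤ τ := by
    have := hadd 0 0 (by norm_num) (by norm_num) (by norm_num)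
    have h2 := abs_nonneg (ψ (0 + 0) - ψ 0 - ψ 0)
    linarith
  have hB0 : 0 ≤ B := (abs_nonneg _).trans (hB 0 ⟨le_rfl, zero_le_one⟩)
  have hiter : ∀ n : ℕ, ∀ s ∈ Icc (0 : ℝ) 1, |ψ s| ≤ 4 * τ + B / 2 ^ n := by
    intro n
    induction n with
    | zero =>
      intro s hs
      have := hB s hs
      rw [pow_zero, div_one]
      linarith
    | succ n ih =>
      intro s hs
      have hs2 : |s| ≤ 2 := by
        rw [abs_of_nonneg hs.1]; linarith [hs.2]
      have hss : |s + s| ≤ 2 := by
        rw [abs_of_nonneg (by linarith [hs.1])]; linarith [hs.2]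
      have h2 := hadd s s hs2 hs2 hss
      have h3 : |ψ (s + s)| ≤ 4 * τ + B / 2 ^ n + 2 * τ := by
        by_cases hle : s + s ≤ 1
        · have := ih (s + s) ⟨by linarith [hs.1], hle⟩
          linarith
        · push Not at hle
          have h4 := hadd 1 (s + s - 1) (by norm_num)
            (by rw [abs_of_nonneg (by linarith)]; linarith [hs.2])
            (by rw [abs_of_nonneg (by linarith)]; linarith [hs.2])
          have h5 : (1 : ℝ) + (s + s - 1) = s + s := by ring
          rw [h5, h1] at h4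
          have h6 := ih (s + s - 1) ⟨by linarith, by linarith [hs.2]⟩
          have h7 : |ψ (s + s)| ≤ |ψ (s + s) - 0 - ψ (s + s - 1)| + |ψ (s + s - 1)| := by
            calc |ψ (s + s)| = |(ψ (s + s) - 0 - ψ (s + s - 1)) + ψ (s + s - 1)| := by ring_nf
              _ ≤ _ := abs_add_le _ _
          linarith
      have h8 : |2 * ψ s| ≤ |ψ (s + s)| + |ψ (s + s) - ψ s - ψ s| := by
        calc |2 * ψ s| = |ψ (s + s) - (ψ (s + s) - ψ s - ψ s)| := by ring_nf
          _ ≤ _ := abs_sub _ _
      rw [abs_mul, abs_of_pos (by norm_num : (0 : ℝ) < 2)] at h8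
      have h9 : B / 2 ^ (n + 1) = B / 2 ^ n / 2 := by rw [pow_succ]; field_simp
      rw [h9]
      linarith
  have hpos : ∀ s ∈ Icc (0 : ℝ) 1, |ψ s| ≤ 4 * τ := by
    intro s hs
    by_contra hcon
    push Not at hcon
    have ht : Filter.Tendsto (fun n : ℕ => 4 * τ + B / 2 ^ n) Filter.atTop (nhds (4 * τ + 0)) := by
      apply Filter.Tendsto.const_add
      have h3 := (tendsto_pow_atTop_nhds_zero_of_lt_one (r := (1 / 2 : ℝ)) (by norm_num)
        (by norm_num)).const_mul B
      rw [mul_zero] at h3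
      refine h3.congr fun n => ?_
      rw [one_div, inv_pow, div_eq_mul_inv]
    have h4 := ge_of_tendsto' ht (fun n => hiter n s hs)
    linarith
  intro s hs
  rw [abs_le] at hs
  by_cases h : 0 ≤ s
  · have := hpos s ⟨h, hs.2⟩
    linarith
  · push Not at h
    have h2 := hadd s (-s) (by rw [abs_le]; constructor <;> linarith)
      (by rw [abs_le]; constructor <;> linarith) (by simp)
    rw [add_neg_cancel, h0] at h2
    have h3 := hpos (-s) ⟨by linarith, by linarith⟩
    have h4 : |ψ s| ≤ |0 - ψ s - ψ (-s)| + |ψ (-s)| := by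
      calc |ψ s| = |-((0 - ψ s - ψ (-s)) + ψ (-s))| := by ring_nf
        _ = |(0 - ψ s - ψ (-s)) + ψ (-s)| := abs_neg _
        _ ≤ _ := abs_add_le _ _
    linarith

/-- **Stability of affine functions** (maximum norm). -/
theorem jensen_stab {f : (Fin d → ℝ) → ℝ} {w : Fin d → ℝ} {r τ L : ℝ} (hr : 0 < r) (hL : 0 ≤ L)
    (hf : ∀ v w, |f v - f w| ≤ L * ‖v - w‖)
    (h : ∀ x y : Fin d → ℝ, ‖x‖ ≤ 2 → ‖y‖ ≤ 2 →
      |f (w + r • x) + f (w + r • y) - 2 * f (w + r • ((1 / 2 : ℝ) • (x + y)))| ≤ τ) :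
    ∀ u : Fin d → ℝ, ‖u‖ ≤ 1 →
      |f (w + r • u) - f w - ∑ i, u i * (f (w + r • Pi.single i 1) - f w)| ≤ 8 * d * τ := by
  classical
  set φ : (Fin d → ℝ) → ℝ := fun u =>
    f (w + r • u) - f w - ∑ i, u i * (f (w + r • Pi.single i 1) - f w) with hφ
  have hφ0 : φ 0 = 0 := by simp [hφ]
  have hτ : 0 ≤ τ := (abs_nonneg _).trans (h 0 0 (by simp) (by simp))
  have hφe : ∀ i, φ (Pi.single i 1) = 0 := by
    intro i
    simp only [hφ]
    rw [Finset.sum_eq_single i]
    · simp
    · intro j _ hj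
      rw [Pi.single_eq_of_ne hj]
      ring
    · intro hi
      exact absurd (Finset.mem_univ i) hi
  -- Jensen
  have hJ : ∀ x y : Fin d → ℝ, ‖x‖ ≤ 2 → ‖y‖ ≤ 2 →
      |φ x + φ y - 2 * φ ((1 / 2 : ℝ) • (x + y))| ≤ τ := by
    intro x y hx hy
    have h1 := h x y hx hy
    have h2 : φ x + φ y - 2 * φ ((1 / 2 : ℝ) • (x + y)) =
        f (w + r • x) + f (w + r • y) - 2 * f (w + r • ((1 / 2 : ℝ) • (x + y))) := by
      simp only [hφ]
      have h3 : ∑ i, ((1 / 2 : ℝ) • (x + y)) i * (f (w + r • Pi.single i 1) - f w) =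
          1 / 2 * (∑ i, x i * (f (w + r • Pi.single i 1) - f w) +
            ∑ i, y i * (f (w + r • Pi.single i 1) - f w)) := by
        rw [← Finset.sum_add_distrib, Finset.mul_sum]
        refine Finset.sum_congr rfl fun i _ => ?_
        simp only [Pi.smul_apply, Pi.add_apply, smul_eq_mul]
        ring
      rw [h3]
      ring
    rw [h2]
    exact h1
  have hadd : ∀ x y : Fin d → ℝ, ‖x‖ ≤ 2 → ‖y‖ ≤ 2 → ‖x + y‖ ≤ 2 →
      |φ (x + y) - φ x - φ y| ≤ 2 * τ := by
    intro x y hx hy hxy
    have h1 := hJ x y hx hy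
    have h2 := hJ (x + y) 0 hxy (by simp)
    rw [add_zero, hφ0, add_zero] at h2
    calc |φ (x + y) - φ x - φ y| = |(φ (x + y) - 2 * φ ((1 / 2 : ℝ) • (x + y))) -
          (φ x + φ y - 2 * φ ((1 / 2 : ℝ) • (x + y)))| := by ring_nf
      _ ≤ |φ (x + y) - 2 * φ ((1 / 2 : ℝ) • (x + y))| +
          |φ x + φ y - 2 * φ ((1 / 2 : ℝ) • (x + y))| := abs_sub _ _
      _ ≤ 2 * τ := by linarith
  -- boundedness
  have hbd : ∀ u : Fin d → ℝ, ‖u‖ ≤ 1 → |φ u| ≤ L * r + ∑ i, |f (w + r • Pi.single i 1) - f w| := by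
    intro u hu
    have h1 : |f (w + r • u) - f w| ≤ L * r := by
      refine (hf _ _).trans ?_
      rw [add_sub_cancel_left, norm_smul, Real.norm_eq_abs, abs_of_pos hr]
      have : r * ‖u‖ ≤ r * 1 := by gcongr
      nlinarith
    have h2 : |∑ i, u i * (f (w + r • Pi.single i 1) - f w)| ≤
        ∑ i, |f (w + r • Pi.single i 1) - f w| := by
      refine (Finset.abs_sum_le_sum_abs _ _).trans (Finset.sum_le_sum fun i _ => ?_)
      rw [abs_mul]
      have h3 : |u i| ≤ 1 := (norm_le_pi_norm u i).trans hu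
      have h4 := abs_nonneg (f (w + r • Pi.single i 1) - f w)
      nlinarith
    calc |φ u| ≤ |f (w + r • u) - f w| + |∑ i, u i * (f (w + r • Pi.single i 1) - f w)| :=
          abs_sub _ _
      _ ≤ _ := by linarith
  -- lines
  have hline : ∀ i, ∀ s : ℝ, |s| ≤ 1 → |φ (Pi.single i s)| ≤ 6 * τ := by
    intro i
    have hn : ∀ s : ℝ, ‖(Pi.single i s : Fin d → ℝ)‖ = |s| := fun s => by
      rw [Pi.norm_single, Real.norm_eq_abs]
    refine line_add (ψ := fun s => φ (Pi.single i s))
      (B := L * r + ∑ i, |f (w + r • Pi.single i 1) - f w|) ?_ (hφe i) ?_ ?_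
    · intro s hs
      apply hbd
      rw [hn, abs_of_nonneg hs.1]
      exact hs.2
    · simp only [Pi.single_zero]
      exact hφ0
    · intro x y hx hy hxy
      have := hadd (Pi.single i x) (Pi.single i y) (by rw [hn]; exact hx) (by rw [hn]; exact hy)
        (by rw [← Pi.single_add, hn]; exact hxy)
      rw [← Pi.single_add] at this
      exact this
  -- partial sums
  intro u hu
  have hpart : ∀ s : Finset (Fin d),
      |φ (∑ i ∈ s, Pi.single i (u i))| ≤ 8 * (s.card : ℝ) * τ := by
    intro s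
    have hnorm : ∀ s : Finset (Fin d), ‖∑ i ∈ s, (Pi.single i (u i) : Fin d → ℝ)‖ ≤ 1 := by
      intro s
      rw [pi_norm_le_iff_of_nonneg zero_le_one]
      intro k
      rw [Finset.sum_apply]
      by_cases hk : k ∈ s
      · rw [Finset.sum_eq_single k]
        · rw [Pi.single_eq_same]
          exact (norm_le_pi_norm u k).trans hu
        · intro j _ hj
          exact Pi.single_eq_of_ne (Ne.symm hj) _
        · intro h2
          exact absurd hk h2
      · rw [Finset.sum_eq_zero]
        · simp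
        · intro j hj
          apply Pi.single_eq_of_ne
          rintro rfl
          exact hk hj
    induction s using Finset.induction_on with
    | empty => simp [hφ0]
    | insert i s hi ih =>
      rw [Finset.sum_insert hi, Finset.card_insert_of_notMem hi]
      have h1 := hadd (Pi.single i (u i)) (∑ i ∈ s, Pi.single i (u i))
        (by
          rw [Pi.norm_single]
          exact ((norm_le_pi_norm u i).trans hu).trans (by norm_num))
        ((hnorm s).trans (by norm_num))
        (by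
          have h0 := hnorm (insert i s)
          rw [Finset.sum_insert hi] at h0
          exact h0.trans (by norm_num))
      have h2 := hline i (u i) ((norm_le_pi_norm u i).trans hu)
      have h3 : |φ (Pi.single i (u i) + ∑ i ∈ s, Pi.single i (u i))| ≤
          |φ (Pi.single i (u i) + ∑ i ∈ s, Pi.single i (u i)) - φ (Pi.single i (u i)) -
            φ (∑ i ∈ s, Pi.single i (u i))| + |φ (Pi.single i (u i))| +
            |φ (∑ i ∈ s, Pi.single i (u i))| := by
        set A := φ (Pi.single i (u i) + ∑ i ∈ s, Pi.single i (u i))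
        set B := φ (Pi.single i (u i))
        set C := φ (∑ i ∈ s, Pi.single i (u i))
        calc |A| = |(A - B - C) + B + C| := by ring_nf
          _ ≤ |(A - B - C) + B| + |C| := abs_add_le _ _
          _ ≤ |A - B - C| + |B| + |C| := by
              have := abs_add_le (A - B - C) B
              linarith
      push_cast
      linarith
  have h1 := hpart Finset.univ
  rw [Finset.card_univ, Fintype.card_fin] at h1
  have h2 : ∑ i, (Pi.single i (u i) : Fin d → ℝ) = u := by
    exact Finset.univ_sum_single u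
  rw [h2] at h1
  exact h1

end Pool.Agent.W769.Ent
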