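import Pool.Agent.W769.Ent.Net
import Pool.Agent.W769.Ent.Det
import Pool.Agent.W769.Ent.Count

set_option autoImplicit false
set_option maxHeartbeats 1000000

open MeasureTheory Set Finset Topology Filter
open scoped ENNReal

namespace Pool.Agent.W769.Ent

variable {d : ℕ}

theorem Aq_le {a : (Fin d → ℝ) → Fin d → ℝ} {L : ℝ} (ha : ∀ v w, ‖a v - a w‖ ≤ L * ‖v - w‖)
    {r : ℝ} (hr : 0 < r) (w : Fin d → ℝ) (i k : Fin d) : |Aq a r w i k| ≤ L := by
  unfold Aq
  rw [abs_div, abs_of_pos hr, div_le_iff₀ hr]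
  have h1 := (norm_le_pi_norm (a (w + r • Pi.single k 1) - a w) i).trans (ha _ _)
  rw [add_sub_cancel_left, norm_smul, Real.norm_of_nonneg hr.le, Pi.norm_single,
    norm_one, mul_one, Pi.sub_apply, Real.norm_eq_abs] at h1
  exact h1

theorem Aq_cont {a : (Fin d → ℝ) → Fin d → ℝ} (ha : Continuous a) (r : ℝ) :
    Continuous (Aq a r) := by
  apply continuous_matrix
  intro i k
  unfold Aq
  fun_prop

/-- the set of the bad heights of the point `w` at scale `r` -/
def badT (a : (Fin d → ℝ) → Fin d → ℝ) (η r : ℝ) (t : ℝ) : Set (Fin d → ℝ) :=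
  {w | |(Aq a r w + t • (1 : Matrix (Fin d) (Fin d) ℝ)).det| ≤ η}

theorem detc {a : (Fin d → ℝ) → Fin d → ℝ} (ha : Continuous a) (r : ℝ) :
    Continuous (fun p : ℝ × (Fin d → ℝ) =>
      |(Aq a r p.2 + p.1 • (1 : Matrix (Fin d) (Fin d) ℝ)).det|) := by
  apply Continuous.abs
  apply Continuous.matrix_det
  exact ((Aq_cont ha r).comp continuous_snd).add (continuous_fst.smul continuous_const)

theorem annulus (hd : 1 ≤ d) {a : (Fin d → ℝ) → Fin d → ℝ} {L : ℝ} (hL : 1 ≤ L)
    (ha : ∀ v w, ‖a v - a w‖ ≤ L * ‖v - w‖) {η κ τ : ℝ} (hη : 0 < η)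
    (hκ : κ = η / ((d.factorial : ℝ) * (L + 1) ^ (d - 1))) (hτ : τ = κ / (64 * d)) {j : ℕ}
    {w w' : Fin d → ℝ} {t : ℝ} (ht : t ∈ Icc (0 : ℝ) 1)
    (hw : ∀ u : Fin d → ℝ, ‖u‖ ≤ 1 →
        ‖a (w + (1 / 2 ^ j : ℝ) • u) - a w - (1 / 2 ^ j : ℝ) • (Aq a (1 / 2 ^ j) w).mulVec u‖ ≤
          8 * d * (τ * (1 / 2 ^ j)))
    (hdet : w ∉ badT a η (1 / 2 ^ j) t) (h1 : 1 / 2 ^ (j + 2) ≤ ‖w - w'‖)
    (h2 : ‖w - w'‖ ≤ 1 / 2 ^ j) :
    κ / 8 * (1 / 2 ^ j) ≤ ‖(a w' + t • w') - (a w + t • w)‖ := by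
  have hd0 : (0 : ℝ) < d := by exact_mod_cast (show 0 < d by omega)
  have hr : (0 : ℝ) < 1 / 2 ^ j := by positivity
  set r : ℝ := 1 / 2 ^ j with hrdef
  have hfac : (0 : ℝ) < (d.factorial : ℝ) * (L + 1) ^ (d - 1) := by
    have : 0 < L + 1 := by linarith
    positivity
  have hκ0 : 0 < κ := by rw [hκ]; positivity
  set u : Fin d → ℝ := r⁻¹ • (w' - w) with hu
  have hwu : w + r • u = w' := by
    rw [hu, smul_smul, mul_inv_cancel₀ hr.ne', one_smul]
    abel
  have hun : ‖u‖ = r⁻¹ * ‖w - w'‖ := by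
    rw [hu, norm_smul, Real.norm_eq_abs, abs_of_pos (inv_pos.2 hr), norm_sub_rev]
  have hu1 : ‖u‖ ≤ 1 := by
    rw [hun, inv_mul_le_iff₀ hr, mul_one]
    exact h2
  have hu4 : 1 / 4 ≤ ‖u‖ := by
    rw [hun]
    have h3 : (1 : ℝ) / 2 ^ (j + 2) = r * (1 / 4) := by
      rw [hrdef, pow_add]; ring
    rw [h3] at h1
    calc (1 : ℝ) / 4 = r⁻¹ * (r * (1 / 4)) := by field_simp
      _ ≤ _ := by gcongr
  set B : Matrix (Fin d) (Fin d) ℝ := Aq a r w + t • (1 : Matrix (Fin d) (Fin d) ℝ) with hB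
  have hBe : ∀ i k, |B i k| ≤ L + 1 := by
    intro i k
    rw [hB, Matrix.add_apply, Matrix.smul_apply, smul_eq_mul]
    refine (abs_add_le _ _).trans ?_
    have h3 := Aq_le ha hr w i k
    have h4 : |t * (1 : Matrix (Fin d) (Fin d) ℝ) i k| ≤ 1 := by
      rw [Matrix.one_apply]
      split_ifs
      · rw [mul_one, abs_of_nonneg ht.1]; exact ht.2
      · simp
    linarith
  have hdet' : η < |B.det| := by
    by_contra hcon
    push Not at hcon
    exact hdet hcon
  have hlow := det_lower B (by linarith : (0 : ℝ) ≤ L + 1) hBe u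
  have hBu : κ * (1 / 4) ≤ ‖B.mulVec u‖ := by
    have h5 : η * (1 / 4) ≤ (d.factorial : ℝ) * (L + 1) ^ (d - 1) * ‖B.mulVec u‖ := by
      refine le_trans ?_ hlow
      gcongr
    rw [hκ, div_mul_eq_mul_div, div_le_iff₀ hfac]
    linarith
  have hexp : (a w' + t • w') - (a w + t • w) =
      (a (w + r • u) - a w - r • (Aq a r w).mulVec u) + r • B.mulVec u := by
    rw [hB, Matrix.add_mulVec, Matrix.smul_mulVec, Matrix.one_mulVec, smul_add, hwu]
    have : r • t • u = t • (w' - w) := by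
      rw [hu, smul_comm r t, smul_smul r r⁻¹, mul_inv_cancel₀ hr.ne', one_smul]
    rw [this, smul_sub]
    abel
  rw [hexp]
  have herr := hw u hu1
  have h6 : ‖r • B.mulVec u‖ = r * ‖B.mulVec u‖ := by
    rw [norm_smul, Real.norm_eq_abs, abs_of_pos hr]
  have h7 : ‖r • B.mulVec u‖ - ‖a (w + r • u) - a w - r • (Aq a r w).mulVec u‖ ≤
      ‖(a (w + r • u) - a w - r • (Aq a r w).mulVec u) + r • B.mulVec u‖ := by
    have := norm_sub_le ((a (w + r • u) - a w - r • (Aq a r w).mulVec u) + r • B.mulVec u)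
      (a (w + r • u) - a w - r • (Aq a r w).mulVec u)
    rw [add_sub_cancel_left] at this
    linarith
  have h8 : 8 * (d : ℝ) * (τ * r) = κ / 8 * r := by
    rw [hτ]; field_simp; norm_num
  rw [h8] at herr
  rw [h6] at h7
  have h9 : r * (κ * (1 / 4)) ≤ r * ‖B.mulVec u‖ := by gcongr
  nlinarith

/-- the set of directions whose line passes near `y` at height `t` -/
def St (a : (Fin d → ℝ) → Fin d → ℝ) (δ t : ℝ) (y : Fin d → ℝ) : Set (Fin d → ℝ) :=
  {w | w ∈ Metric.closedBall 0 1 ∧ ‖a w + t • w - y‖ ≤ δ}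

/-- the normalised multiplicity function -/
noncomputable def Nm (a : (Fin d → ℝ) → Fin d → ℝ) (δ t : ℝ) (y : Fin d → ℝ) : ℝ :=
  volume.real (St a δ t y) / δ ^ d

theorem St_meas {a : (Fin d → ℝ) → Fin d → ℝ} (ha : Continuous a) (δ t : ℝ) (y : Fin d → ℝ) :
    MeasurableSet (St a δ t y) := by
  have h : Continuous (fun w => ‖a w + t • w - y‖) := by fun_prop
  exact Metric.isClosed_closedBall.measurableSet.inter
    (isClosed_le h continuous_const).measurableSet

theorem tonelli {a : (Fin d → ℝ) → Fin d → ℝ} (ha : Continuous a) {δ : ℝ} (hδ : 0 ≤ δ) (t : ℝ)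
    {T : Set (Fin d → ℝ)} (hT : MeasurableSet T) :
    Measurable (fun y => volume (St a δ t y ∩ T)) ∧ ∫⁻ y, volume (St a δ t y ∩ T) =
      ENNReal.ofReal ((2 * δ) ^ d) * volume (Metric.closedBall (0 : Fin d → ℝ) 1 ∩ T) := by
  set M : Set ((Fin d → ℝ) × (Fin d → ℝ)) :=
    {p | p.2 ∈ Metric.closedBall (0 : Fin d → ℝ) 1 ∩ T ∧ ‖a p.2 + t • p.2 - p.1‖ ≤ δ} with hM
  have hMm : MeasurableSet M := by
    apply MeasurableSet.inter
    · exact measurable_snd (Metric.isClosed_closedBall.measurableSet.inter hT)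
    · have h : Continuous (fun p : (Fin d → ℝ) × (Fin d → ℝ) => ‖a p.2 + t • p.2 - p.1‖) := by
        fun_prop
      exact (isClosed_le h continuous_const).measurableSet
  have h0 : ∀ y, volume (St a δ t y ∩ T) = volume (Prod.mk y ⁻¹' M) := by
    intro y
    congr 1
    ext w
    simp only [hM, St, Set.mem_preimage, Set.mem_ofPred_eq, Set.mem_inter_iff]
    tauto
  refine ⟨by simp_rw [h0]; exact measurable_measure_prodMk_left hMm, ?_⟩
  have h1 : ∫⁻ y, volume (St a δ t y ∩ T) =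
      ((volume : Measure (Fin d → ℝ)).prod (volume : Measure (Fin d → ℝ))) M := by
    rw [Measure.prod_apply hMm]
    exact lintegral_congr h0
  rw [h1, Measure.prod_apply_symm hMm]
  have h2 : ∀ w : Fin d → ℝ, volume ((fun y => (y, w)) ⁻¹' M) =
      (Metric.closedBall (0 : Fin d → ℝ) 1 ∩ T).indicator
        (fun _ => ENNReal.ofReal ((2 * δ) ^ d)) w := by
    intro w
    by_cases hw : w ∈ Metric.closedBall (0 : Fin d → ℝ) 1 ∩ T
    · rw [Set.indicator_of_mem hw]
      have h3 : (fun y => (y, w)) ⁻¹' M = Metric.closedBall (a w + t • w) δ := by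
        ext y
        simp only [hM, Set.mem_preimage, Set.mem_ofPred_eq, Metric.mem_closedBall]
        rw [dist_comm, dist_eq_norm]
        exact ⟨fun h => h.2, fun h => ⟨hw, h⟩⟩
      rw [h3, Real.volume_pi_closedBall _ hδ, Fintype.card_fin]
    · rw [Set.indicator_of_notMem hw]
      have h3 : (fun y => (y, w)) ⁻¹' M = ∅ := by
        ext y
        simp only [hM, Set.mem_preimage, Set.mem_ofPred_eq, Set.mem_empty_iff_false, iff_false]
        exact fun h => hw h.1
      rw [h3, measure_empty]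
  simp_rw [h2]
  rw [lintegral_indicator (Metric.isClosed_closedBall.measurableSet.inter hT), setLIntegral_const]

theorem heights_le (hd : 1 ≤ d) {a : (Fin d → ℝ) → Fin d → ℝ} (ha : Continuous a) {s : ℝ}
    (hs : 0 ≤ s) (r : ℝ) :
    Measurable (fun t => volume (Metric.closedBall (0 : Fin d → ℝ) 1 ∩ badT a (s ^ d) r t)) ∧
    ∫⁻ t in Icc (0 : ℝ) 1, volume (Metric.closedBall (0 : Fin d → ℝ) 1 ∩ badT a (s ^ d) r t) ≤
      ENNReal.ofReal (2 ^ d * (2 * d * s)) := by
  set D : Set (ℝ × (Fin d → ℝ)) :=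
    {p | p.2 ∈ Metric.closedBall (0 : Fin d → ℝ) 1 ∧
      |(Aq a r p.2 + p.1 • (1 : Matrix (Fin d) (Fin d) ℝ)).det| ≤ s ^ d} with hD
  have hDm : MeasurableSet D := by
    apply MeasurableSet.inter
    · exact measurable_snd Metric.isClosed_closedBall.measurableSet
    · exact (isClosed_le (detc ha r) continuous_const).measurableSet
  refine ⟨measurable_measure_prodMk_left hDm, ?_⟩
  calc ∫⁻ t in Icc (0 : ℝ) 1, volume (Metric.closedBall (0 : Fin d → ℝ) 1 ∩ badT a (s ^ d) r t)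
      ≤ ∫⁻ t, volume (Prod.mk t ⁻¹' D) := by
        refine (setLIntegral_le_lintegral _ _).trans (le_of_eq ?_)
        rfl
    _ = ((volume : Measure ℝ).prod (volume : Measure (Fin d → ℝ))) D :=
        (Measure.prod_apply hDm).symm
    _ = ∫⁻ w, volume ((fun t => (t, w)) ⁻¹' D) := Measure.prod_apply_symm hDm
    _ ≤ ∫⁻ w, (Metric.closedBall (0 : Fin d → ℝ) 1).indicator
          (fun _ => ENNReal.ofReal (2 * d * s)) w := by
        refine lintegral_mono fun w => ?_
        by_cases hw : w ∈ Metric.closedBall (0 : Fin d → ℝ) 1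
        · rw [Set.indicator_of_mem hw]
          refine le_trans (measure_mono ?_) (sublevel (Aq a r w) hd hs)
          intro t ht
          exact ht.2
        · rw [Set.indicator_of_notMem hw]
          have : (fun t : ℝ => (t, w)) ⁻¹' D = ∅ := by
            ext t
            simp only [hD, Set.mem_preimage, Set.mem_ofPred_eq, Set.mem_empty_iff_false, iff_false]
            exact fun h => hw h.1
          rw [this, measure_empty]
    _ = ENNReal.ofReal (2 ^ d * (2 * d * s)) := by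
        rw [lintegral_indicator Metric.isClosed_closedBall.measurableSet, setLIntegral_const,
          Real.volume_pi_closedBall _ zero_le_one, Fintype.card_fin, mul_one,
          ← ENNReal.ofReal_mul (by positivity), mul_comm]

theorem Lip_cont {a : (Fin d → ℝ) → Fin d → ℝ} {L : ℝ} (hL : 0 ≤ L)
    (ha : ∀ v w, ‖a v - a w‖ ≤ L * ‖v - w‖) : Continuous a := by
  have : LipschitzWith (Real.toNNReal L) a := by
    apply LipschitzWith.of_dist_le_mul
    intro v w
    rw [dist_eq_norm, dist_eq_norm, Real.coe_toNNReal _ hL]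
    exact ha v w
  exact this.continuous

/-- number of scales -/
theorem exists_scale {κ δ : ℝ} (hκ1 : κ ≤ 1) (hδ : 0 < δ) (hδ1 : δ ≤ 1) :
    ∃ k0 : ℕ, (∀ j < k0, 2 ^ j * (16 * δ) < κ) ∧ κ ≤ 2 ^ k0 * (16 * δ) ∧
      (k0 : ℝ) ≤ 2 * (1 + Real.log (1 / δ)) := by
  have hex : ∃ k : ℕ, κ ≤ 2 ^ k * (16 * δ) := by
    obtain ⟨k, hk⟩ := pow_unbounded_of_one_lt (κ / (16 * δ)) (by norm_num : (1 : ℝ) < 2)
    exact ⟨k, by rw [div_lt_iff₀ (by positivity)] at hk; exact hk.le⟩
  classical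
  have hlog : 0 ≤ Real.log (1 / δ) := Real.log_nonneg (by rw [le_div_iff₀ hδ]; linarith)
  refine ⟨Nat.find hex, fun j hj => ?_, Nat.find_spec hex, ?_⟩
  · have := Nat.find_min hex hj
    push Not at this
    exact this
  · rcases Nat.eq_zero_or_pos (Nat.find hex) with h0 | h0
    · rw [h0]; push_cast; positivity
    · have h1 := Nat.find_min hex (Nat.sub_lt h0 one_pos)
      push Not at h1
      set k := Nat.find hex - 1 with hk
      have h2 : (2 : ℝ) ^ k ≤ 1 / δ := by
        rw [le_div_iff₀ hδ]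
        have : (0 : ℝ) < 2 ^ k * δ := by positivity
        linarith
      have h3 := Real.log_le_log (by positivity) h2
      rw [Real.log_pow] at h3
      have h4 : (0.69 : ℝ) < Real.log 2 := by
        have := Real.log_two_gt_d9
        linarith
      have h5 : ((Nat.find hex : ℕ) : ℝ) = k + 1 := by
        have : Nat.find hex = k + 1 := by omega
        rw [this]; push_cast; ring
      rw [h5]
      have h6 : (0 : ℝ) ≤ k := by positivity
      nlinarith

end Pool.Agent.W769.Ent
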