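import Pool.Agent.W769.Ent.Energy
import Pool.Agent.W769.Ent.Jensen

set_option autoImplicit false
set_option maxHeartbeats 1000000

open MeasureTheory Set Finset Topology Filter
open scoped ENNReal

namespace Pool.Agent.W769.Ent

variable {d : ℕ}

/-- the grid -/
noncomputable def grid (d : ℕ) (μ : ℝ) (Z : ℕ) : Finset (Fin d → ℝ) :=
  (Fintype.piFinset (fun _ : Fin d => Finset.Icc (-(Z : ℤ)) Z)).image
    (fun z i => μ * (z i : ℝ))

theorem grid_card (d : ℕ) (μ : ℝ) (Z : ℕ) : ((grid d μ Z).card : ℝ) ≤ (2 * (Z : ℝ) + 1) ^ d := by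
  have h1 : (grid d μ Z).card ≤ (2 * Z + 1) ^ d := by
    refine Finset.card_image_le.trans (le_of_eq ?_)
    rw [Fintype.card_piFinset, Finset.prod_const, Finset.card_univ, Fintype.card_fin, Int.card_Icc]
    congr 1
    omega
  exact_mod_cast h1

theorem grid_norm {μ : ℝ} {Z : ℕ} (hμ : 0 ≤ μ) (hZ : μ * Z ≤ 3) {p : Fin d → ℝ}
    (hp : p ∈ grid d μ Z) : ‖p‖ ≤ 3 := by
  obtain ⟨z, hz, rfl⟩ := Finset.mem_image.1 hp
  rw [pi_norm_le_iff_of_nonneg (by norm_num)]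
  intro i
  have h1 := Fintype.mem_piFinset.1 hz i
  rw [Finset.mem_Icc] at h1
  have h2 : |(z i : ℝ)| ≤ Z := by
    rw [abs_le]
    exact ⟨by exact_mod_cast h1.1, by exact_mod_cast h1.2⟩
  rw [Real.norm_eq_abs, abs_mul, abs_of_nonneg hμ]
  calc μ * |(z i : ℝ)| ≤ μ * Z := by gcongr
    _ ≤ 3 := hZ

theorem grid_near {μ : ℝ} {Z : ℕ} (hμ : 0 < μ) (hZ : 2 / μ + 1 ≤ Z) {p : Fin d → ℝ}
    (hp : ‖p‖ ≤ 2) : ∃ q ∈ grid d μ Z, ‖p - q‖ ≤ μ := by
  refine ⟨fun i => μ * (round (p i / μ) : ℝ), Finset.mem_image.2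
    ⟨fun i => round (p i / μ), Fintype.mem_piFinset.2 fun i => ?_, rfl⟩, ?_⟩
  · have h1 : |p i| ≤ 2 := (norm_le_pi_norm p i).trans hp
    have h2 : |p i / μ| ≤ 2 / μ := by
      rw [abs_div, abs_of_pos hμ]
      gcongr
    have h3 := abs_sub_round (p i / μ)
    rw [abs_le] at h2 h3
    rw [Finset.mem_Icc]
    constructor
    · have : -(Z : ℝ) ≤ (round (p i / μ) : ℝ) := by linarith
      exact_mod_cast this
    · have : (round (p i / μ) : ℝ) ≤ (Z : ℝ) := by linarith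
      exact_mod_cast this
  · rw [pi_norm_le_iff_of_nonneg hμ.le]
    intro i
    have h3 := abs_sub_round (p i / μ)
    rw [Pi.sub_apply, Real.norm_eq_abs]
    have h4 : p i - μ * (round (p i / μ) : ℝ) = μ * (p i / μ - round (p i / μ)) := by
      field_simp
    rw [h4, abs_mul, abs_of_pos hμ]
    nlinarith

/-- the set of the points where `f` is not nearly affine at scale `r` -/
def bad (f : (Fin d → ℝ) → ℝ) (μ : ℝ) (Z : ℕ) (θ r : ℝ) : Set (Fin d → ℝ) :=
  ⋃ p ∈ grid d μ Z, ⋃ q ∈ grid d μ Z,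
    {w | θ * r ≤ |f (w + r • (p + q)) + f (w + r • (p - q)) - 2 * f (w + r • p)|}

theorem bad_meas {f : (Fin d → ℝ) → ℝ} (hf : Continuous f) (μ : ℝ) (Z : ℕ) (θ r : ℝ) :
    MeasurableSet (bad f μ Z θ r) := by
  apply Finset.measurableSet_biUnion
  intro p _
  apply Finset.measurableSet_biUnion
  intro q _
  apply IsClosed.measurableSet
  exact isClosed_le continuous_const (by fun_prop)

theorem good_jensen {f : (Fin d → ℝ) → ℝ} {L μ τ r : ℝ} {Z : ℕ} (hL : 0 ≤ L)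
    (hf : ∀ v w, |f v - f w| ≤ L * ‖v - w‖) (hμ : 0 < μ) (hZ : 2 / μ + 1 ≤ Z)
    (hμτ : 6 * L * μ ≤ τ / 2) (hr : 0 < r) {w : Fin d → ℝ} (hw : w ∉ bad f μ Z (τ / 2) r)
    {x y : Fin d → ℝ} (hx : ‖x‖ ≤ 2) (hy : ‖y‖ ≤ 2) :
    |f (w + r • x) + f (w + r • y) - 2 * f (w + r • ((1 / 2 : ℝ) • (x + y)))| ≤ τ * r := by
  set p0 := (1 / 2 : ℝ) • (x + y) with hp0
  set q0 := (1 / 2 : ℝ) • (x - y) with hq0
  have hp0n : ‖p0‖ ≤ 2 := by
    rw [hp0, norm_smul, Real.norm_eq_abs, abs_of_pos (by norm_num : (0 : ℝ) < 1 / 2)]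
    have := norm_add_le x y
    linarith
  have hq0n : ‖q0‖ ≤ 2 := by
    rw [hq0, norm_smul, Real.norm_eq_abs, abs_of_pos (by norm_num : (0 : ℝ) < 1 / 2)]
    have := norm_sub_le x y
    linarith
  obtain ⟨p, hp, hpp⟩ := grid_near hμ hZ hp0n
  obtain ⟨q, hq, hqq⟩ := grid_near hμ hZ hq0n
  have h1 : |f (w + r • (p + q)) + f (w + r • (p - q)) - 2 * f (w + r • p)| < τ / 2 * r := by
    by_contra hcon
    push Not at hcon
    apply hw
    simp only [bad, Set.mem_iUnion]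
    exact ⟨p, hp, q, hq, hcon⟩
  have ex : x = p0 + q0 := by
    rw [hp0, hq0, ← smul_add]
    ext i
    simp only [Pi.smul_apply, Pi.add_apply, Pi.sub_apply, smul_eq_mul]
    ring
  have ey : y = p0 - q0 := by
    rw [hp0, hq0, ← smul_sub]
    ext i
    simp only [Pi.smul_apply, Pi.add_apply, Pi.sub_apply, smul_eq_mul]
    ring
  have h2 : |f (w + r • x) - f (w + r • (p + q))| ≤ L * (r * (2 * μ)) := by
    refine (hf _ _).trans ?_
    gcongr
    have e1 : w + r • x - (w + r • (p + q)) = r • ((p0 - p) + (q0 - q)) := by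
      rw [ex, smul_add r (p0 - p), smul_sub, smul_sub, smul_add, smul_add]; abel
    rw [e1, norm_smul, Real.norm_eq_abs, abs_of_pos hr]
    gcongr
    refine (norm_add_le _ _).trans ?_
    linarith
  have h3 : |f (w + r • y) - f (w + r • (p - q))| ≤ L * (r * (2 * μ)) := by
    refine (hf _ _).trans ?_
    gcongr
    have e1 : w + r • y - (w + r • (p - q)) = r • ((p0 - p) - (q0 - q)) := by
      rw [ey, smul_sub r (p0 - p), smul_sub, smul_sub, smul_sub, smul_sub]; abel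
    rw [e1, norm_smul, Real.norm_eq_abs, abs_of_pos hr]
    gcongr
    refine (norm_sub_le _ _).trans ?_
    linarith
  have h4 : |f (w + r • p0) - f (w + r • p)| ≤ L * (r * μ) := by
    refine (hf _ _).trans ?_
    gcongr
    have e1 : w + r • p0 - (w + r • p) = r • (p0 - p) := by
      rw [smul_sub]; abel
    rw [e1, norm_smul, Real.norm_eq_abs, abs_of_pos hr]
    gcongr
  have h5 : 6 * L * μ * r ≤ τ / 2 * r := by gcongr
  rw [abs_le] at h2 h3 h4 ⊢
  rw [abs_lt] at h1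
  constructor
  · nlinarith [h1.1, h2.1, h3.1, h4.2]
  · nlinarith [h1.2, h2.2, h3.2, h4.1]

theorem D2_eq (f : (Fin d → ℝ) → ℝ) (q : Fin d → ℝ) {r : ℝ} (hr : 0 < r) (z : Fin d → ℝ) :
    r * D2 f q (2 * r) z = f (z + (2 * r) • q) - 2 * f (z + r • q) + f z := by
  unfold D2
  have : 2 * r / 2 = r := by ring
  rw [this]
  field_simp

theorem bad_piece {f : (Fin d → ℝ) → ℝ} (hf : Continuous f) {μ θ r : ℝ} {Z : ℕ} (hμ : 0 ≤ μ)
    (hZ : μ * Z ≤ 3) (hθ : 0 < θ) (hr : 0 < r) (hr1 : r ≤ 1) {p q : Fin d → ℝ}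
    (hp : p ∈ grid d μ Z) (hq : q ∈ grid d μ Z) :
    (volume ({w | θ * r ≤ |f (w + r • (p + q)) + f (w + r • (p - q)) - 2 * f (w + r • p)|} ∩
      Metric.closedBall (0 : Fin d → ℝ) 1)).toReal ≤
      (1 / θ ^ 2) * ∫ w in Metric.closedBall (0 : Fin d → ℝ) 7, (D2 f q (2 * r) w) ^ 2 := by
  set h : Fin d → ℝ := r • (p - q) with hh
  have hhn : ‖h‖ ≤ 6 := by
    rw [hh, norm_smul, Real.norm_eq_abs, abs_of_pos hr]
    have h1 := grid_norm hμ hZ hp
    have h2 := grid_norm hμ hZ hq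
    have h3 := norm_sub_le p q
    have h4 : 0 ≤ ‖p - q‖ := norm_nonneg _
    nlinarith
  have hc : Continuous (fun w => (D2 f q (2 * r) w) ^ 2) := (D2_cont hf q _).pow 2
  have hset : {w | θ * r ≤ |f (w + r • (p + q)) + f (w + r • (p - q)) - 2 * f (w + r • p)|} =
      {w | θ ^ 2 ≤ (D2 f q (2 * r) (w + h)) ^ 2} := by
    ext w
    simp only [Set.mem_ofPred_eq]
    have e1 : f (w + r • (p + q)) + f (w + r • (p - q)) - 2 * f (w + r • p) =
        r * D2 f q (2 * r) (w + h) := by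
      rw [D2_eq f q hr, hh]
      have e2 : w + r • (p - q) + (2 * r) • q = w + r • (p + q) := by
        ext i
        simp only [Pi.smul_apply, Pi.add_apply, Pi.sub_apply, smul_eq_mul]
        ring
      have e3 : w + r • (p - q) + r • q = w + r • p := by
        ext i
        simp only [Pi.smul_apply, Pi.add_apply, Pi.sub_apply, smul_eq_mul]
        ring
      rw [e2, e3]
      ring
    rw [e1, abs_mul, abs_of_pos hr, mul_comm θ r, mul_le_mul_iff_right₀ hr, sq_le_sq,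
      abs_of_pos hθ]
  have h1 := mul_meas_ge_le_integral_of_nonneg
    (μ := volume.restrict (Metric.closedBall (0 : Fin d → ℝ) 1))
    (f := fun w => (D2 f q (2 * r) (w + h)) ^ 2)
    (Filter.Eventually.of_forall fun w => sq_nonneg _)
    (intOn (hc.comp (continuous_id.add continuous_const)) 1) (θ ^ 2)
  have hms : MeasurableSet {w | θ ^ 2 ≤ (D2 f q (2 * r) (w + h)) ^ 2} :=
    (isClosed_le continuous_const (hc.comp (continuous_id.add continuous_const))).measurableSet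
  rw [Measure.real, Measure.restrict_apply hms] at h1
  have h2 := shift_le hc (fun w => sq_nonneg _) h 1
  have hsub : Metric.closedBall (0 : Fin d → ℝ) (1 + ‖h‖) ⊆ Metric.closedBall 0 7 :=
    Metric.closedBall_subset_closedBall (by linarith)
  have h3 := setIntegral_mono_set (intOn hc 7) (Filter.Eventually.of_forall fun w => sq_nonneg _)
    hsub.eventuallyLE
  rw [hset]
  rw [one_div, ← div_eq_inv_mul, le_div_iff₀ (by positivity), mul_comm]
  exact (h1.trans h2).trans h3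

/-- **Sum over the scales.** -/
theorem bad_sum {f : (Fin d → ℝ) → ℝ} {L : ℝ} (hL : 0 ≤ L)
    (hf : ∀ v w, |f v - f w| ≤ L * ‖v - w‖) {μ θ : ℝ} {Z : ℕ} (hμ : 0 ≤ μ) (hZ : μ * Z ≤ 3)
    (hθ : 0 < θ) (k : ℕ) :
    ∑ j ∈ range k, (volume (bad f μ Z θ (1 / 2 ^ j) ∩
      Metric.closedBall (0 : Fin d → ℝ) 1)).toReal ≤
      ((2 * (Z : ℝ) + 1) ^ d) ^ 2 * (36 * L ^ 2 * 26 ^ d / θ ^ 2) := by
  have hfc : Continuous f := by
    have : LipschitzWith (Real.toNNReal L) f := by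
      apply LipschitzWith.of_dist_le_mul
      intro v w
      rw [Real.dist_eq, dist_eq_norm, Real.coe_toNNReal _ hL]
      exact hf v w
    exact this.continuous
  have hfin : ∀ s : Set (Fin d → ℝ), volume (s ∩ Metric.closedBall (0 : Fin d → ℝ) 1) ≠ ⊤ :=
    fun s => ne_top_of_le_ne_top (isCompact_closedBall (0 : Fin d → ℝ) 1).measure_lt_top.ne
      (measure_mono Set.inter_subset_right)
  have h1 : ∀ j, (volume (bad f μ Z θ (1 / 2 ^ j) ∩
      Metric.closedBall (0 : Fin d → ℝ) 1)).toReal ≤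
      ∑ _p ∈ grid d μ Z, ∑ q ∈ grid d μ Z,
        (1 / θ ^ 2) * ∫ w in Metric.closedBall (0 : Fin d → ℝ) 7, (D2 f q (2 / 2 ^ j) w) ^ 2 := by
    intro j
    have hr : (0 : ℝ) < 1 / 2 ^ j := by positivity
    have hr1 : (1 : ℝ) / 2 ^ j ≤ 1 := by
      rw [div_le_one (by positivity)]
      exact one_le_pow₀ (by norm_num)
    have h2 : volume (bad f μ Z θ (1 / 2 ^ j) ∩ Metric.closedBall (0 : Fin d → ℝ) 1) ≤
        ∑ p ∈ grid d μ Z, ∑ q ∈ grid d μ Z, volume ({w | θ * (1 / 2 ^ j) ≤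
          |f (w + (1 / 2 ^ j : ℝ) • (p + q)) + f (w + (1 / 2 ^ j : ℝ) • (p - q)) -
            2 * f (w + (1 / 2 ^ j : ℝ) • p)|} ∩ Metric.closedBall (0 : Fin d → ℝ) 1) := by
      unfold bad
      simp_rw [Set.iUnion_inter]
      refine (measure_biUnion_finset_le _ _).trans (Finset.sum_le_sum fun p _ => ?_)
      exact measure_biUnion_finset_le _ _
    refine (ENNReal.toReal_mono ?_ h2).trans ?_
    · exact ENNReal.sum_ne_top.2 fun p _ => ENNReal.sum_ne_top.2 fun q _ => hfin _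
    · rw [ENNReal.toReal_sum fun p _ => ENNReal.sum_ne_top.2 fun q _ => hfin _]
      refine Finset.sum_le_sum fun p hp => ?_
      rw [ENNReal.toReal_sum fun q _ => hfin _]
      refine Finset.sum_le_sum fun q hq => ?_
      have h3 := bad_piece hfc hμ hZ hθ hr hr1 hp hq
      have e1 : (2 : ℝ) * (1 / 2 ^ j) = 2 / 2 ^ j := by ring
      rw [e1] at h3
      exact h3
  calc ∑ j ∈ range k, (volume (bad f μ Z θ (1 / 2 ^ j) ∩
      Metric.closedBall (0 : Fin d → ℝ) 1)).toReal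
      ≤ ∑ j ∈ range k, ∑ _p ∈ grid d μ Z, ∑ q ∈ grid d μ Z,
        (1 / θ ^ 2) * ∫ w in Metric.closedBall (0 : Fin d → ℝ) 7, (D2 f q (2 / 2 ^ j) w) ^ 2 :=
        Finset.sum_le_sum fun j _ => h1 j
    _ = ∑ _p ∈ grid d μ Z, ∑ q ∈ grid d μ Z, (1 / θ ^ 2) * ∑ j ∈ range k,
          ∫ w in Metric.closedBall (0 : Fin d → ℝ) 7, (D2 f q (2 / 2 ^ j) w) ^ 2 := by
        rw [Finset.sum_comm]
        refine Finset.sum_congr rfl fun p _ => ?_
        rw [Finset.sum_comm]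
        refine Finset.sum_congr rfl fun q _ => ?_
        rw [Finset.mul_sum]
    _ ≤ ∑ _p ∈ grid d μ Z, ∑ _q ∈ grid d μ Z, (1 / θ ^ 2) * (36 * L ^ 2 * 26 ^ d) := by
        refine Finset.sum_le_sum fun p _ => Finset.sum_le_sum fun q hq => ?_
        gcongr
        have hqn := grid_norm hμ hZ hq
        refine (energy_lip hL hf q k (c := 2) (R := 7) (by norm_num) (by norm_num)).trans ?_
        have hq0 := norm_nonneg q
        calc 4 * (L * ‖q‖) ^ 2 * (2 * (7 + 2 * ‖q‖)) ^ d ≤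
              4 * (L * 3) ^ 2 * (2 * (7 + 2 * 3)) ^ d := by gcongr
          _ = 36 * L ^ 2 * 26 ^ d := by norm_num; ring
    _ = ((grid d μ Z).card : ℝ) ^ 2 * (36 * L ^ 2 * 26 ^ d / θ ^ 2) := by
        simp only [Finset.sum_const, nsmul_eq_mul]
        ring
    _ ≤ ((2 * (Z : ℝ) + 1) ^ d) ^ 2 * (36 * L ^ 2 * 26 ^ d / θ ^ 2) := by
        gcongr
        exact grid_card d μ Z

/-- difference quotient matrix at scale `r` -/
noncomputable def Aq (a : (Fin d → ℝ) → Fin d → ℝ) (r : ℝ) (w : Fin d → ℝ) :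
    Matrix (Fin d) (Fin d) ℝ :=
  fun i k => (a (w + r • Pi.single k 1) i - a w i) / r

/-- **Quantitative differentiation of Lipschitz maps.** -/
theorem quant_diff (d : ℕ) : ∃ C : ℝ, 0 < C ∧ ∀ (L τ : ℝ) (a : (Fin d → ℝ) → Fin d → ℝ),
    1 ≤ L → 0 < τ → τ ≤ 1 → (∀ v w, ‖a v - a w‖ ≤ L * ‖v - w‖) →
    ∃ Bd : ℕ → Set (Fin d → ℝ), (∀ j, MeasurableSet (Bd j)) ∧
      (∀ k : ℕ, ∑ j ∈ range k, (volume (Bd j ∩ Metric.closedBall (0 : Fin d → ℝ) 1)).toReal ≤
        C * (L / τ) ^ (2 * d + 2)) ∧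
      ∀ (j : ℕ) (w : Fin d → ℝ), w ∉ Bd j → ∀ u : Fin d → ℝ, ‖u‖ ≤ 1 →
        ‖a (w + (1 / 2 ^ j : ℝ) • u) - a w - (1 / 2 ^ j : ℝ) • (Aq a (1 / 2 ^ j) w).mulVec u‖ ≤
          8 * d * (τ * (1 / 2 ^ j)) := by
  refine ⟨d * (144 * 26 ^ d * 84 ^ (2 * d)) + 1, by positivity, ?_⟩
  intro L τ a hL hτ hτ1 ha
  have hL0 : 0 < L := by linarith
  set μ : ℝ := τ / (12 * L) with hμ
  have hμ0 : 0 < μ := by positivity
  have hμ1 : μ ≤ 1 / 12 := by
    rw [hμ, div_le_iff₀ (by positivity)]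
    linarith
  set Z : ℕ := ⌈2 / μ + 1⌉₊ with hZ
  have hZ1 : 2 / μ + 1 ≤ Z := Nat.le_ceil _
  have hZ2 : (Z : ℝ) < 2 / μ + 1 + 1 := Nat.ceil_lt_add_one (by positivity)
  have hμZ : μ * Z ≤ 3 := by
    have h1 : μ * Z ≤ μ * (2 / μ + 1 + 1) := by gcongr
    have h2 : μ * (2 / μ + 1 + 1) = 2 + 2 * μ := by
      field_simp
      ring
    linarith
  have hcomp : ∀ i, ∀ v w, |a v i - a w i| ≤ L * ‖v - w‖ := fun i v w =>
    (norm_le_pi_norm (a v - a w) i).trans (ha v w)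
  have hcc : ∀ i, Continuous (fun v => a v i) := by
    intro i
    have : LipschitzWith (Real.toNNReal L) (fun v => a v i) := by
      apply LipschitzWith.of_dist_le_mul
      intro v w
      rw [Real.dist_eq, dist_eq_norm, Real.coe_toNNReal _ hL0.le]
      exact hcomp i v w
    exact this.continuous
  refine ⟨fun j => ⋃ i, bad (fun v => a v i) μ Z (τ / 2) (1 / 2 ^ j), ?_, ?_, ?_⟩
  · intro j
    exact MeasurableSet.iUnion fun i => bad_meas (hcc i) _ _ _ _
  · intro k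
    have hfin : ∀ s : Set (Fin d → ℝ), volume (s ∩ Metric.closedBall (0 : Fin d → ℝ) 1) ≠ ⊤ :=
      fun s => ne_top_of_le_ne_top (isCompact_closedBall (0 : Fin d → ℝ) 1).measure_lt_top.ne
        (measure_mono Set.inter_subset_right)
    have h1 : ∀ j, (volume ((⋃ i, bad (fun v => a v i) μ Z (τ / 2) (1 / 2 ^ j)) ∩
        Metric.closedBall (0 : Fin d → ℝ) 1)).toReal ≤
        ∑ i, (volume (bad (fun v => a v i) μ Z (τ / 2) (1 / 2 ^ j) ∩
        Metric.closedBall (0 : Fin d → ℝ) 1)).toReal := by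
      intro j
      rw [← ENNReal.toReal_sum fun i _ => hfin _]
      apply ENNReal.toReal_mono (ENNReal.sum_ne_top.2 fun i _ => hfin _)
      rw [Set.iUnion_inter]
      refine (measure_iUnion_le _).trans (le_of_eq ?_)
      rw [tsum_fintype]
    calc ∑ j ∈ range k, (volume ((⋃ i, bad (fun v => a v i) μ Z (τ / 2) (1 / 2 ^ j)) ∩
          Metric.closedBall (0 : Fin d → ℝ) 1)).toReal
        ≤ ∑ j ∈ range k, ∑ i, (volume (bad (fun v => a v i) μ Z (τ / 2) (1 / 2 ^ j) ∩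
          Metric.closedBall (0 : Fin d → ℝ) 1)).toReal := Finset.sum_le_sum fun j _ => h1 j
      _ = ∑ i, ∑ j ∈ range k, (volume (bad (fun v => a v i) μ Z (τ / 2) (1 / 2 ^ j) ∩
          Metric.closedBall (0 : Fin d → ℝ) 1)).toReal := Finset.sum_comm
      _ ≤ ∑ _i : Fin d, ((2 * (Z : ℝ) + 1) ^ d) ^ 2 * (36 * L ^ 2 * 26 ^ d / (τ / 2) ^ 2) :=
          Finset.sum_le_sum fun i _ => bad_sum hL0.le (hcomp i) hμ0.le hμZ (by positivity) k
      _ = d * (((2 * (Z : ℝ) + 1) ^ d) ^ 2 * (36 * L ^ 2 * 26 ^ d / (τ / 2) ^ 2)) := by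
          rw [Finset.sum_const, Finset.card_univ, Fintype.card_fin, nsmul_eq_mul]
      _ ≤ d * (((84 * (L / τ)) ^ d) ^ 2 * (36 * L ^ 2 * 26 ^ d / (τ / 2) ^ 2)) := by
          gcongr
          have h2 : 1 / μ = 12 * (L / τ) := by
            rw [hμ]; field_simp
          have h3 : 2 / μ = 24 * (L / τ) := by
            have : 2 / μ = 2 * (1 / μ) := by ring
            rw [this, h2]; ring
          have h4 : 1 ≤ L / τ := by
            rw [le_div_iff₀ hτ]; linarith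
          linarith
      _ = d * (144 * 26 ^ d * 84 ^ (2 * d)) * (L / τ) ^ (2 * d + 2) := by
          rw [mul_pow, mul_pow, ← pow_mul, ← pow_mul, pow_add, mul_comm d 2]
          field_simp
          ring
      _ ≤ _ := by
          gcongr
          linarith
  · intro j w hw u hu
    have hr : (0 : ℝ) < 1 / 2 ^ j := by positivity
    have hnn : 0 ≤ 8 * (d : ℝ) * (τ * (1 / 2 ^ j)) := by positivity
    rw [pi_norm_le_iff_of_nonneg hnn]
    intro i
    have hwi : w ∉ bad (fun v => a v i) μ Z (τ / 2) (1 / 2 ^ j) := fun h =>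
      hw (Set.mem_iUnion.2 ⟨i, h⟩)
    have h1 := jensen_stab (f := fun v => a v i) (w := w) hr hL0.le (hcomp i)
      (τ := τ * (1 / 2 ^ j)) (fun x y hx hy =>
        good_jensen hL0.le (hcomp i) hμ0 hZ1 (by rw [hμ]; field_simp; norm_num) hr hwi hx hy) u hu
    rw [Real.norm_eq_abs]
    refine le_trans (le_of_eq ?_) h1
    congr 1
    simp only [Pi.sub_apply, Pi.smul_apply, smul_eq_mul, Matrix.mulVec, dotProduct, Aq]
    congr 1
    rw [Finset.mul_sum]
    refine Finset.sum_congr rfl fun k _ => ?_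
    field_simp

end Pool.Agent.W769.Ent
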