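import Pool.Agent.W769.Ent.Cap

set_option autoImplicit false
set_option maxHeartbeats 1000000

open MeasureTheory Set Finset Topology Filter
open scoped ENNReal InnerProductSpace

namespace Pool.Agent.W769.Ent

open Pool.Agent.W769.Iso Pool.Agent.W769.Kak

variable {d : ℕ}

/-- **Tubes with arbitrary directions.** -/
theorem sphere_all (hd : 1 ≤ d) : ∃ C : ℝ, 0 < C ∧ ∀ (ι : Type) [Fintype ι]
    (e a : ι → Eu d) (L δ : ℝ), 0 ≤ L → 0 < δ → δ ≤ 1 →
    (∀ i, ‖e i‖ = 1) →
    (∀ i j, i ≠ j → δ ≤ ‖e i - e j‖) →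
    (∀ i j, ‖a i - a j‖ ≤ L * ‖e i - e j‖) →
    ∫⁻ y, ENNReal.ofReal (Ph (Nt e a δ y)) ≤
      ENNReal.ofReal (C * (1 + L) ^ (2 * d * (d + 2) + 1) *
        (1 + Real.log (1 / δ)) ^ (1 - 1 / (2 * (d : ℝ) ^ 2 + 2 * d + 1))) := by
  classical
  obtain ⟨C1, hC1, hcap⟩ := cap hd
  obtain ⟨t, hts, htf, htc⟩ := (isCompact_sphere (0 : Eu d) 1).finite_cover_balls
    (show (0 : ℝ) < 1 / 8 by norm_num)
  set F : Finset (Eu d) := htf.toFinset with hF
  set M : ℝ := (F.card : ℝ) + 1 with hM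
  have hM1 : 1 ≤ M := by
    rw [hM]
    have : (0 : ℝ) ≤ (F.card : ℝ) := by positivity
    linarith
  refine ⟨M ^ 2 * (M * C1), by positivity, ?_⟩
  intro ι _ e a L δ hL hδ hδ1 he hsep hlip
  have hFe : ∀ f ∈ F, ‖f‖ = 1 := by
    intro f hf
    have := hts (htf.mem_toFinset.1 hf)
    rwa [mem_sphere_zero_iff_norm] at this
  -- pieces
  set N : Eu d → Eu d → ℝ := fun f y => Nt (fun i : {i // ‖e i - f‖ ≤ 1 / 8} => e i.1)
    (fun i => a i.1) δ y with hN
  have hsum : ∀ y, Nt e a δ y ≤ ∑ f ∈ F, N f y := by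
    intro y
    have h1 : ∀ f, N f y = ∑ i, if ‖e i - f‖ ≤ 1 / 8 then
        (tube δ (e i) (a i)).indicator (fun _ => (1 : ℝ)) y else 0 := by
      intro f
      simp only [hN, Nt]
      rw [← Finset.sum_filter]
      exact (Finset.sum_subtype _ (fun x => by simp)
        (fun i => (tube δ (e i) (a i)).indicator (fun _ => (1 : ℝ)) y)).symm
    simp_rw [h1]
    rw [Finset.sum_comm]
    unfold Nt
    refine Finset.sum_le_sum fun i _ => ?_
    obtain ⟨f, hf, hif⟩ : ∃ f ∈ t, e i ∈ Metric.ball f (1 / 8) := by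
      have := htc (show e i ∈ Metric.sphere (0 : Eu d) 1 by
        rw [mem_sphere_zero_iff_norm]; exact he i)
      simpa using this
    have hfF : f ∈ F := htf.mem_toFinset.2 hf
    have h2 : ‖e i - f‖ ≤ 1 / 8 := by
      rw [Metric.mem_ball, dist_eq_norm] at hif
      exact hif.le
    refine le_trans ?_ (Finset.single_le_sum (f := fun f => if ‖e i - f‖ ≤ 1 / 8 then
        (tube δ (e i) (a i)).indicator (fun _ => (1 : ℝ)) y else 0) (fun g _ => ?_) hfF)
    · rw [if_pos h2]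
    · split_ifs
      · exact Set.indicator_nonneg (fun _ _ => zero_le_one) _
      · exact le_rfl
  have hNn : ∀ f ∈ F, ∀ y, 0 ≤ N f y := fun f _ y => Nt_nonneg _ _ _ _
  have hpt : ∀ y, ENNReal.ofReal (Ph (Nt e a δ y)) ≤
      ENNReal.ofReal (M ^ 2) * ∑ f ∈ F, ENNReal.ofReal (Ph (N f y)) := by
    intro y
    rw [← ENNReal.ofReal_sum_of_nonneg fun f hf => Ph_nonneg (hNn f hf y),
      ← ENNReal.ofReal_mul (by positivity)]
    apply ENNReal.ofReal_le_ofReal
    refine (Ph_mono (Nt_nonneg _ _ _ _) (hsum y)).trans ?_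
    exact Ph_sum_le F (fun f => N f y) (fun f hf => hNn f hf y) (by rw [hM]; linarith) hM1
  have hm : ∀ f, Measurable (fun y => ENNReal.ofReal (Ph (N f y))) := fun f =>
    ENNReal.measurable_ofReal.comp (Ph_meas.comp (Nt_meas _ _ _))
  set X : ℝ := C1 * (1 + L) ^ (2 * d * (d + 2) + 1) *
        (1 + Real.log (1 / δ)) ^ (1 - 1 / (2 * (d : ℝ) ^ 2 + 2 * d + 1)) with hX
  have hlogδ : 0 ≤ Real.log (1 / δ) := Real.log_nonneg (by rw [le_div_iff₀ hδ]; linarith)
  have hX0 : 0 ≤ X := by positivity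
  calc ∫⁻ y, ENNReal.ofReal (Ph (Nt e a δ y))
      ≤ ∫⁻ y, ENNReal.ofReal (M ^ 2) * ∑ f ∈ F, ENNReal.ofReal (Ph (N f y)) :=
        lintegral_mono hpt
    _ = ENNReal.ofReal (M ^ 2) * ∑ f ∈ F, ∫⁻ y, ENNReal.ofReal (Ph (N f y)) := by
        rw [lintegral_const_mul' _ _ ENNReal.ofReal_ne_top, lintegral_finsetSum _ fun f _ => hm f]
    _ ≤ ENNReal.ofReal (M ^ 2) * ∑ _f ∈ F, ENNReal.ofReal X := by
        gcongr with f hf
        exact hcap _ (fun i : {i // ‖e i - f‖ ≤ 1 / 8} => e i.1) (fun i => a i.1) f L δ hL hδ hδ1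
          (hFe f hf) (fun i => he i.1) (fun i => i.2)
          (fun i j hij => hsep i.1 j.1 fun h => hij (Subtype.ext h)) (fun i j => hlip i.1 j.1)
    _ = ENNReal.ofReal (M ^ 2) * (ENNReal.ofReal (F.card : ℝ) * ENNReal.ofReal X) := by
        rw [Finset.sum_const, nsmul_eq_mul, ENNReal.ofReal_natCast]
    _ = ENNReal.ofReal (M ^ 2 * ((F.card : ℝ) * X)) := by
        rw [← ENNReal.ofReal_mul (by positivity : (0 : ℝ) ≤ (F.card : ℝ)),
          ← ENNReal.ofReal_mul (by positivity : (0 : ℝ) ≤ M ^ 2)]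
    _ ≤ _ := by
        apply ENNReal.ofReal_le_ofReal
        have h1 : (F.card : ℝ) ≤ M := by rw [hM]; linarith
        calc M ^ 2 * ((F.card : ℝ) * X) ≤ M ^ 2 * (M * X) := by gcongr
          _ = _ := by rw [hX]; ring

/-- from the entropy to sets, general form -/
theorem level_gen {α : Type*} [MeasurableSpace α] {μ : Measure α} {N : α → ℝ}
    {X γ : ℝ} (hX : 0 < X) (hγ : 0 < γ)
    (hent : ∫⁻ y, ENNReal.ofReal (Ph (N y)) ∂μ ≤ ENNReal.ofReal X) {E : Set α}
    (hint : ENNReal.ofReal γ ≤ ∫⁻ y in E, ENNReal.ofReal (N y) ∂μ) :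
    ENNReal.ofReal (Real.exp (-((2 + 2 * X) / γ))) ≤ μ E := by
  set lam : ℝ := Real.exp (2 * X / γ) with hlam
  have hlam1 : 1 < lam := Real.one_lt_exp_iff.2 (by positivity)
  have hloglam : Real.log lam = 2 * X / γ := Real.log_exp _
  have hlog : 0 < Real.log lam := Real.log_pos hlam1
  have hpt : ∀ y, ENNReal.ofReal (N y) ≤ ENNReal.ofReal lam +
      ENNReal.ofReal (1 / Real.log lam) * ENNReal.ofReal (Ph (N y)) := by
    intro y
    rw [← ENNReal.ofReal_mul (by positivity)]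
    rcases le_or_gt (N y) lam with h | h
    · exact (ENNReal.ofReal_le_ofReal h).trans le_self_add
    · refine le_trans (ENNReal.ofReal_le_ofReal ?_) le_add_self
      have h1 : Real.log lam ≤ Real.posLog (N y) := by
        rw [Real.posLog_eq_log]
        · exact Real.log_le_log (by linarith) h.le
        · rw [abs_of_pos (by linarith)]; linarith
      have h2 : 0 < N y := by linarith
      calc N y = 1 / Real.log lam * (N y * Real.log lam) := by field_simp
        _ ≤ 1 / Real.log lam * Ph (N y) := by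
            unfold Ph
            gcongr
            linarith
  have h7 : ENNReal.ofReal γ ≤ ENNReal.ofReal lam * μ E + ENNReal.ofReal (γ / 2) := by
    refine hint.trans ?_
    calc ∫⁻ y in E, ENNReal.ofReal (N y) ∂μ
        ≤ ∫⁻ y in E, (ENNReal.ofReal lam +
          ENNReal.ofReal (1 / Real.log lam) * ENNReal.ofReal (Ph (N y))) ∂μ :=
          lintegral_mono hpt
      _ = ENNReal.ofReal lam * μ E + ENNReal.ofReal (1 / Real.log lam) *
          ∫⁻ y in E, ENNReal.ofReal (Ph (N y)) ∂μ := by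
          rw [lintegral_add_left measurable_const, setLIntegral_const,
            lintegral_const_mul' _ _ ENNReal.ofReal_ne_top]
      _ ≤ ENNReal.ofReal lam * μ E + ENNReal.ofReal (1 / Real.log lam) * ENNReal.ofReal X := by
          gcongr
          exact (setLIntegral_le_lintegral _ _).trans hent
      _ = ENNReal.ofReal lam * μ E + ENNReal.ofReal (γ / 2) := by
          rw [← ENNReal.ofReal_mul (by rw [hloglam]; positivity), hloglam]
          congr 2
          field_simp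
  rcases eq_or_ne (μ E) ⊤ with htop | htop
  · rw [htop]; exact le_top
  set p : ℝ := (μ E).toReal with hp
  have hpE : μ E = ENNReal.ofReal p := (ENNReal.ofReal_toReal htop).symm
  have hp0 : 0 ≤ p := ENNReal.toReal_nonneg
  rw [hpE] at h7 ⊢
  rw [← ENNReal.ofReal_mul (by positivity), ← ENNReal.ofReal_add (by positivity) (by positivity),
    ENNReal.ofReal_le_ofReal_iff (by positivity)] at h7
  apply ENNReal.ofReal_le_ofReal
  have h8 : γ / 2 ≤ lam * p := by linarith
  have h9 : Real.exp (-(2 / γ)) ≤ γ / 2 := by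
    have h10 := Real.one_sub_inv_le_log_of_pos (show 0 < γ / 2 by positivity)
    have h11 : (γ / 2)⁻¹ = 2 / γ := by rw [inv_div]
    rw [h11] at h10
    calc Real.exp (-(2 / γ)) ≤ Real.exp (Real.log (γ / 2)) := by
          apply Real.exp_le_exp.2
          linarith
      _ = γ / 2 := Real.exp_log (by positivity)
  have h12 : Real.exp (-(2 / γ) - 2 * X / γ) ≤ p := by
    rw [Real.exp_sub, div_le_iff₀ (Real.exp_pos _), mul_comm p]
    exact h9.trans h8
  have h13 : -((2 + 2 * X) / γ) = -(2 / γ) - 2 * X / γ := by ring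
  rw [h13]
  exact h12

/-- **Sets that meet a family of tubes with Lipschitz positions in large mass.** -/
theorem sphere_level (hd : 1 ≤ d) : ∃ C : ℝ, 0 < C ∧ ∀ (ι : Type) [Fintype ι]
    (e a : ι → Eu d) (L δ : ℝ), 0 ≤ L → 0 < δ → δ ≤ 1 →
    (∀ i, ‖e i‖ = 1) →
    (∀ i j, i ≠ j → δ ≤ ‖e i - e j‖) →
    (∀ i j, ‖a i - a j‖ ≤ L * ‖e i - e j‖) → ∀ (γ : ℝ) (E : Set (Eu d)), 0 < γ →
    ENNReal.ofReal γ ≤ ∑ i, volume (tube δ (e i) (a i) ∩ E) →
    ENNReal.ofReal (Real.exp (-(C / γ * (1 + L) ^ (2 * d * (d + 2) + 1) *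
        (1 + Real.log (1 / δ)) ^ (1 - 1 / (2 * (d : ℝ) ^ 2 + 2 * d + 1))))) ≤ volume E := by
  obtain ⟨C1, hC1, hs⟩ := sphere_all hd
  refine ⟨2 * C1 + 2, by positivity, ?_⟩
  intro ι _ e a L δ hL hδ hδ1 he hsep hlip γ E hγ hint
  have hlogδ : 0 ≤ Real.log (1 / δ) := Real.log_nonneg (by rw [le_div_iff₀ hδ]; linarith)
  set ex : ℝ := 1 / (2 * (d : ℝ) ^ 2 + 2 * d + 1) with hex
  have he1 : ex ≤ 1 := by
    rw [hex, div_le_one (by positivity)]
    nlinarith [show (0 : ℝ) ≤ d by positivity]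
  set Y : ℝ := (1 + L) ^ (2 * d * (d + 2) + 1) * (1 + Real.log (1 / δ)) ^ (1 - ex) with hY
  have hY1 : 1 ≤ Y := by
    have h1 : (1 : ℝ) ≤ (1 + L) ^ (2 * d * (d + 2) + 1) := one_le_pow₀ (by linarith)
    have h2 : 1 ≤ (1 + Real.log (1 / δ)) ^ (1 - ex) :=
      Real.one_le_rpow (by linarith) (by linarith)
    nlinarith
  have hX : C1 * (1 + L) ^ (2 * d * (d + 2) + 1) * (1 + Real.log (1 / δ)) ^ (1 - ex) = C1 * Y := by
    rw [hY]; ring
  have h1 := hs ι e a L δ hL hδ hδ1 he hsep hlip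
  rw [hX] at h1
  have h2 := level_gen (by positivity : 0 < C1 * Y) hγ h1 (E := E) (by
    refine hint.trans (le_of_eq ?_)
    have h3 : ∀ y, ENNReal.ofReal (Nt e a δ y) =
        ∑ i, (tube δ (e i) (a i)).indicator (fun _ => (1 : ℝ≥0∞)) y := by
      intro y
      unfold Nt
      rw [ENNReal.ofReal_sum_of_nonneg fun i _ => Set.indicator_nonneg (fun _ _ => zero_le_one) _]
      refine Finset.sum_congr rfl fun i _ => ?_
      by_cases hy : y ∈ tube δ (e i) (a i)
      · rw [Set.indicator_of_mem hy, Set.indicator_of_mem hy, ENNReal.ofReal_one]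
      · rw [Set.indicator_of_notMem hy, Set.indicator_of_notMem hy, ENNReal.ofReal_zero]
    simp_rw [h3]
    rw [lintegral_finsetSum _ fun i _ =>
      measurable_const.indicator (isClosed_tube δ (e i) (a i)).measurableSet]
    refine Finset.sum_congr rfl fun i _ => ?_
    rw [lintegral_indicator (isClosed_tube δ (e i) (a i)).measurableSet,
      Measure.restrict_restrict (isClosed_tube δ (e i) (a i)).measurableSet, setLIntegral_const,
      one_mul])
  refine le_trans (ENNReal.ofReal_le_ofReal (Real.exp_le_exp.2 (neg_le_neg ?_))) h2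
  have h4 : (2 * C1 + 2) / γ * (1 + L) ^ (2 * d * (d + 2) + 1) *
      (1 + Real.log (1 / δ)) ^ (1 - ex) = ((2 * C1 + 2) * Y) / γ := by rw [hY]; ring
  rw [h4]
  gcongr
  nlinarith

end Pool.Agent.W769.Ent
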